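import Mathlib

/-! Chowla's conjecture for random signs (helper2): weighted inequalities of Bonferroni. -/

set_option autoImplicit false

namespace Pool.Agent.L5helper2.CH

open Finset

/-- the sum over the sets `D` with less than `K` elements of `(-1)^|D| ∏_{p ∈ D} u p` -/
noncomputable def TT (K : ℕ) (S : Finset ℕ) (u : ℕ → ℝ) : ℝ :=
  ∑ D ∈ S.powerset, if #D < K then (-1) ^ #D * ∏ p ∈ D, u p else 0

/-- the elementary symmetric function -/
noncomputable def EE (K : ℕ) (S : Finset ℕ) (u : ℕ → ℝ) : ℝ :=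
  ∑ D ∈ S.powerset, if #D = K then ∏ p ∈ D, u p else 0

lemma TT_zero (S : Finset ℕ) (u : ℕ → ℝ) : TT 0 S u = 0 := by
  unfold TT
  simp

lemma EE_zero (S : Finset ℕ) (u : ℕ → ℝ) : EE 0 S u = 1 := by
  unfold EE
  rw [sum_eq_single ∅]
  · simp
  · intro D _ hD
    rw [if_neg]
    intro h
    exact hD (card_eq_zero.1 h)
  · simp

lemma TT_insert (K : ℕ) {S : Finset ℕ} {q : ℕ} (hq : q ∉ S) (u : ℕ → ℝ) :
    TT (K + 1) (insert q S) u = TT (K + 1) S u - u q * TT K S u := by
  unfold TT
  rw [sum_powerset_insert hq, sub_eq_add_neg, mul_sum, ← sum_neg_distrib]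
  congr 1
  refine sum_congr rfl fun D hD => ?_
  have h1 : q ∉ D := fun h => hq (mem_powerset.1 hD h)
  rw [card_insert_of_notMem h1, prod_insert h1]
  by_cases h : #D < K
  · rw [if_pos (by omega), if_pos h, pow_succ]
    ring
  · rw [if_neg (by omega), if_neg h]
    simp

lemma EE_insert (K : ℕ) {S : Finset ℕ} {q : ℕ} (hq : q ∉ S) (u : ℕ → ℝ) :
    EE (K + 1) (insert q S) u = EE (K + 1) S u + u q * EE K S u := by
  unfold EE
  rw [sum_powerset_insert hq, mul_sum]
  congr 1
  refine sum_congr rfl fun D hD => ?_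
  have h1 : q ∉ D := fun h => hq (mem_powerset.1 hD h)
  rw [card_insert_of_notMem h1, prod_insert h1]
  by_cases h : #D = K
  · rw [if_pos (by omega), if_pos h]
  · rw [if_neg (by omega), if_neg h]
    simp

lemma bonf {u : ℕ → ℝ} (S : Finset ℕ) : (∀ p ∈ S, 0 ≤ u p ∧ u p ≤ 1) → ∀ K : ℕ,
    0 ≤ (-1) ^ (K + 1) * (TT K S u - ∏ p ∈ S, (1 - u p)) ∧
    (-1) ^ (K + 1) * (TT K S u - ∏ p ∈ S, (1 - u p)) ≤ EE K S u := by
  classical
  induction S using Finset.induction_on with
  | empty =>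
    intro _ K
    unfold TT EE
    simp only [powerset_empty, sum_singleton, card_empty, pow_zero, prod_empty, mul_one]
    rcases K with _ | K
    · simp
    · simp
  | insert q S hq ih =>
    intro hu K
    have hu' : ∀ p ∈ S, 0 ≤ u p ∧ u p ≤ 1 := fun p hp => hu p (mem_insert_of_mem hp)
    have hq1 := hu q (mem_insert_self q S)
    rcases K with _ | K
    · rw [TT_zero, EE_zero]
      have h1 : 0 ≤ ∏ p ∈ insert q S, (1 - u p) := prod_nonneg fun p hp => by linarith [(hu p hp).2]
      have h2 : ∏ p ∈ insert q S, (1 - u p) ≤ 1 := prod_le_one (fun p hp => by linarith [(hu p hp).2])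
        fun p hp => by linarith [(hu p hp).1]
      constructor
      · simp only [zero_add, pow_one, zero_sub]
        linarith
      · simp only [zero_add, pow_one, zero_sub]
        linarith
    · rw [TT_insert K hq, EE_insert K hq, prod_insert hq]
      obtain ⟨a1, a2⟩ := ih hu' (K + 1)
      obtain ⟨b1, b2⟩ := ih hu' K
      have e : (-1 : ℝ) ^ (K + 1 + 1) * (TT (K + 1) S u - u q * TT K S u - (1 - u q) * ∏ p ∈ S, (1 - u p)) =
          (-1 : ℝ) ^ (K + 1 + 1) * (TT (K + 1) S u - ∏ p ∈ S, (1 - u p)) +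
          u q * ((-1 : ℝ) ^ (K + 1) * (TT K S u - ∏ p ∈ S, (1 - u p))) := by
        rw [pow_succ (-1 : ℝ) (K + 1)]
        ring
      rw [e]
      constructor
      · have := mul_nonneg hq1.1 b1
        linarith
      · have := mul_le_mul_of_nonneg_left b2 hq1.1
        linarith

lemma bonf_odd {u : ℕ → ℝ} {S : Finset ℕ} (hu : ∀ p ∈ S, 0 ≤ u p ∧ u p ≤ 1) {K : ℕ} (hK : Odd K) :
    ∏ p ∈ S, (1 - u p) ≤ TT K S u ∧ TT K S u ≤ ∏ p ∈ S, (1 - u p) + EE K S u := by
  obtain ⟨h1, h2⟩ := bonf S hu K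
  have e : (-1 : ℝ) ^ (K + 1) = 1 := (hK.add_one).neg_one_pow
  rw [e, one_mul] at h1 h2
  constructor <;> linarith

lemma EE_le {u : ℕ → ℝ} {S : Finset ℕ} (hu : ∀ p ∈ S, 0 ≤ u p) {t : ℝ} (ht : 0 < t) (K : ℕ) :
    EE K S u ≤ Real.exp (t * ∑ p ∈ S, u p) / t ^ K := by
  rw [le_div_iff₀ (by positivity)]
  have h1 : EE K S u * t ^ K ≤ ∑ D ∈ S.powerset, ∏ p ∈ D, (t * u p) := by
    unfold EE
    rw [sum_mul]
    refine sum_le_sum fun D hD => ?_
    have hD2 : 0 ≤ ∏ p ∈ D, u p := prod_nonneg fun p hp => hu p (mem_powerset.1 hD hp)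
    rw [prod_mul_distrib, prod_const]
    split_ifs with h
    · rw [h, mul_comm]
    · rw [zero_mul]
      positivity
  refine h1.trans ?_
  rw [← prod_one_add, mul_sum, Real.exp_sum]
  refine prod_le_prod (fun p hp => by have := hu p hp; positivity) fun p _ => ?_
  rw [add_comm]
  exact Real.add_one_le_exp _

/-- the number of the sets with less than `K` elements -/
lemma card_small (S : Finset ℕ) (K : ℕ) : (#(S.powerset.filter fun D => #D < K) : ℝ) ≤ (#S + 1 : ℝ) ^ K := by
  have h1 : (#(S.powerset.filter fun D => #D < K) : ℝ) ≤ ∑ j ∈ range (K + 1), (K.choose j : ℝ) * (#S : ℝ) ^ j := by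
    have h2 : S.powerset.filter (fun D => #D < K) ⊆ (range K).biUnion fun j => powersetCard j S := by
      intro D hD
      rw [mem_filter] at hD
      rw [mem_biUnion]
      exact ⟨#D, mem_range.2 hD.2, mem_powersetCard.2 ⟨mem_powerset.1 hD.1, rfl⟩⟩
    have h3 : #(S.powerset.filter fun D => #D < K) ≤ ∑ j ∈ range K, (#S).choose j := by
      refine (card_le_card h2).trans (card_biUnion_le.trans ?_)
      refine sum_le_sum fun j _ => ?_
      rw [card_powersetCard]
    calc (#(S.powerset.filter fun D => #D < K) : ℝ) ≤ ((∑ j ∈ range K, (#S).choose j : ℕ) : ℝ) := by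
          exact_mod_cast h3
      _ ≤ ∑ j ∈ range K, (K.choose j : ℝ) * (#S : ℝ) ^ j := by
          push_cast
          refine sum_le_sum fun j hj => ?_
          have h4 : ((#S).choose j : ℝ) ≤ (#S : ℝ) ^ j := by exact_mod_cast Nat.choose_le_pow _ _
          have h5 : (1 : ℝ) ≤ (K.choose j : ℝ) := by
            exact_mod_cast Nat.choose_pos (mem_range.1 hj).le
          calc ((#S).choose j : ℝ) ≤ (#S : ℝ) ^ j := h4
            _ = 1 * (#S : ℝ) ^ j := (one_mul _).symm
            _ ≤ _ := mul_le_mul_of_nonneg_right h5 (by positivity)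
      _ ≤ _ := sum_le_sum_of_subset_of_nonneg (range_subset_range.2 (Nat.le_succ K)) fun j _ _ => by positivity
  refine h1.trans (le_of_eq ?_)
  rw [add_pow]
  refine sum_congr rfl fun j _ => ?_
  rw [one_pow, mul_one, mul_comm]

end Pool.Agent.L5helper2.CH
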