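import Pool.Agent.L5helper2.CH.B9

/-! Chowla's conjecture for random signs (helper2): linear forms. -/

set_option autoImplicit false

namespace Pool.Agent.L5helper2.CH

open Finset MeasureTheory ProbabilityTheory Filter
open scoped Polynomial Topology

variable {Ω : Type} [MeasurableSpace Ω] {P : Measure Ω} {X : ℕ → Ω → ℝ}

/-- the linear polynomial -/
noncomputable def lin (a b : ℕ) : ℤ[X] := Polynomial.C (a : ℤ) * Polynomial.X + Polynomial.C (b : ℤ)

lemma ev_lin (a b n : ℕ) : ev (lin a b) n = ((a * n + b : ℕ) : ℤ) := by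
  unfold ev lin
  simp

lemma lin_map (a b : ℕ) : (lin a b).map (Int.castRingHom ℚ) =
    Polynomial.C (a : ℚ) * Polynomial.X + Polynomial.C (b : ℚ) := by
  unfold lin
  simp

lemma lin_sep {a : ℕ} (b : ℕ) (ha : 1 ≤ a) : ((lin a b).map (Int.castRingHom ℚ)).Separable := by
  rw [lin_map, Polynomial.Separable]
  have ha' : (a : ℚ) ≠ 0 := by exact_mod_cast (by omega : a ≠ 0)
  have e : Polynomial.derivative (Polynomial.C (a : ℚ) * Polynomial.X + Polynomial.C (b : ℚ)) = Polynomial.C (a : ℚ) := by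
    simp
  rw [e]
  refine ⟨0, Polynomial.C ((a : ℚ)⁻¹), ?_⟩
  rw [zero_mul, zero_add, ← Polynomial.C_mul, inv_mul_cancel₀ ha', Polynomial.C_1]

lemma lin_coprime {a b a' b' : ℕ} (h : a * b' ≠ a' * b) :
    IsCoprime ((lin a b).map (Int.castRingHom ℚ)) ((lin a' b').map (Int.castRingHom ℚ)) := by
  rw [lin_map, lin_map]
  have hΔ : (a' : ℚ) * b - a * b' ≠ 0 := by
    intro h0
    apply h
    have : (a : ℚ) * b' = a' * b := by linarith
    exact_mod_cast this
  set Δ : ℚ := (a' : ℚ) * b - a * b' with hΔd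
  refine ⟨Polynomial.C (a' / Δ), Polynomial.C (-(a / Δ)), ?_⟩
  have e : Polynomial.C ((a' : ℚ) / Δ) * (Polynomial.C (a : ℚ) * Polynomial.X + Polynomial.C (b : ℚ)) +
      Polynomial.C (-((a : ℚ) / Δ)) * (Polynomial.C (a' : ℚ) * Polynomial.X + Polynomial.C (b' : ℚ)) =
      Polynomial.C ((a' : ℚ) / Δ * a + -(a / Δ) * a') * Polynomial.X + Polynomial.C ((a' : ℚ) / Δ * b + -(a / Δ) * b') := by
    simp only [Polynomial.C_add, Polynomial.C_mul]
    ring
  rw [e]
  have e1 : (a' : ℚ) / Δ * a + -(a / Δ) * a' = 0 := by ring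
  have e2 : (a' : ℚ) / Δ * b + -(a / Δ) * b' = 1 := by
    have : (a' : ℚ) / Δ * b + -(a / Δ) * b' = (a' * b - a * b') / Δ := by ring
    rw [this, ← hΔd, div_self hΔ]
  rw [e1, e2, Polynomial.C_0, zero_mul, zero_add, Polynomial.C_1]

lemma rr_lin {a b p : ℕ} (hp : p.Prime) (h : ¬ p ∣ a) : 1 ≤ rr (ev (lin a b)) p := by
  have : Fact p.Prime := ⟨hp⟩
  unfold rr
  rw [Nat.one_le_iff_ne_zero, card_ne_zero]
  have ha : (a : ZMod p) ≠ 0 := by
    rw [Ne, ZMod.natCast_eq_zero_iff]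
    exact h
  refine ⟨(-(b : ZMod p) / a).val, ?_⟩
  rw [mem_filter, mem_range]
  refine ⟨ZMod.val_lt _, ?_⟩
  rw [ev_lin, ← ZMod.intCast_zmod_eq_zero_iff_dvd]
  push_cast
  rw [ZMod.natCast_zmod_val]
  field_simp
  ring

/-- the distance function -/
noncomputable def Dist (P : Measure Ω) (X : ℕ → Ω → ℝ) (y : ℕ) : ℝ := ∑ p ∈ (Icc 1 y).filter Nat.Prime, dl P X p / p

lemma Signs.Dist_le (h : Signs P X) {a : ℕ} (b : ℕ) (ha : 1 ≤ a) (y : ℕ) :
    Dist P X y ≤ Dq P X (ev (lin a b)) y + a := by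
  unfold Dist Dq
  have h1 : ∀ p ∈ (Icc 1 y).filter Nat.Prime, dl P X p / p ≤
      dl P X p * ((rr (ev (lin a b)) p : ℝ) / p) + (if p ≤ a then 1 else 0) := by
    intro p hp
    rw [mem_filter, mem_Icc] at hp
    have hp0 : (0 : ℝ) < p := by exact_mod_cast hp.2.pos
    split_ifs with h2
    · have h3 : dl P X p / p ≤ 1 := by
        rw [div_le_one hp0]
        have : (1 : ℝ) ≤ p := by exact_mod_cast hp.2.one_lt.le
        linarith [h.dl_le p]
      have h4 : 0 ≤ dl P X p * ((rr (ev (lin a b)) p : ℝ) / p) := mul_nonneg (h.dl_nonneg p) (by positivity)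
      linarith
    · have h3 : (1 : ℝ) ≤ rr (ev (lin a b)) p := by
        have := rr_lin (a := a) (b := b) hp.2 (fun h4 => h2 (Nat.le_of_dvd (by omega) h4))
        exact_mod_cast this
      rw [add_zero, div_eq_mul_one_div]
      exact mul_le_mul_of_nonneg_left (div_le_div_of_nonneg_right h3 hp0.le) (h.dl_nonneg p)
  refine (sum_le_sum h1).trans ?_
  rw [sum_add_distrib]
  refine add_le_add le_rfl ?_
  rw [sum_boole]
  have : #(((Icc 1 y).filter Nat.Prime).filter fun p => p ≤ a) ≤ a := by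
    calc _ ≤ #(Icc 1 a) := by
          refine card_le_card fun p hp => ?_
          rw [mem_filter, mem_filter, mem_Icc] at hp
          exact mem_Icc.2 ⟨hp.1.1.1, hp.2⟩
      _ = a := by rw [Nat.card_Icc]; omega
  exact_mod_cast this

lemma Signs.Dist_nonneg (h : Signs P X) (y : ℕ) : 0 ≤ Dist P X y :=
  sum_nonneg fun p _ => div_nonneg (h.dl_nonneg p) (Nat.cast_nonneg p)

/-- the correlations of `f` along linear forms -/
noncomputable def Cor (X : ℕ → Ω → ℝ) (c : ℕ → ℝ) {k : ℕ} (a b : Fin k → ℕ) (T : Finset (Fin k)) (ω : Ω) (x : ℕ) : ℝ :=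
  ∑ n ∈ Ioc 0 x, c n * ∏ i ∈ T, FF X ω (a i * n + b i)

theorem Signs.as_lin (h : Signs P X) (hD : Tendsto (fun y : ℕ => Dist P X y / log4 y) atTop atTop) {c : ℕ → ℝ}
    (hc : ∀ n, |c n| ≤ 1) {k : ℕ} {a b : Fin k → ℕ} (ha : ∀ i, 1 ≤ a i) (hab : ∀ i j, i ≠ j → a i * b j ≠ a j * b i)
    {T : Finset (Fin k)} (hT : T.Nonempty) :
    ∀ᵐ ω ∂P, ∀ ε : ℝ, 0 < ε → ∃ x0 : ℕ, ∀ x, x0 ≤ x →
      |Cor X c a b T ω x| ≤ x * Real.exp (-((1 - ε) * (#T * Dist P X (zx x)))) := by
  classical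
  set G : Fin k → ℤ[X] := fun i => lin (a i) (b i) with hG
  have hco : ∀ i ∈ T, ∀ j ∈ T, i ≠ j → IsCoprime ((G i).map (Int.castRingHom ℚ)) ((G j).map (Int.castRingHom ℚ)) :=
    fun i _ j _ hij => lin_coprime (hab i j hij)
  set Q : ℤ[X] := ∏ i ∈ T, G i with hQ
  have hsep : (Q.map (Int.castRingHom ℚ)).Separable := by
    rw [hQ, Polynomial.map_prod]
    exact Polynomial.separable_prod' (fun i hi j hj hij => hco i hi j hj hij) fun i _ => lin_sep (b i) (ha i)
  have hGdeg : ∀ i, (G i).natDegree = 1 := by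
    intro i
    rw [hG]
    unfold lin
    have : ((a i : ℕ) : ℤ) ≠ 0 := by
      have := ha i
      exact_mod_cast (by omega : a i ≠ 0)
    exact Polynomial.natDegree_linear this
  have hdeg : 1 ≤ Q.natDegree := by
    rw [hQ, Polynomial.natDegree_prod _ _ (fun i _ h0 => by
      have := hGdeg i
      rw [h0] at this
      simp at this), sum_congr rfl fun i _ => hGdeg i, sum_const, smul_eq_mul, mul_one]
    exact hT.card_pos
  obtain ⟨C, hC⟩ := h.Dq_prod T G hco
  have hTpos : (1 : ℝ) ≤ #T := by exact_mod_cast hT.card_pos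
  have hE : ∀ y, #T * Dist P X y ≤ Dq P X (ev Q) y + (C + ∑ i ∈ T, (a i : ℝ)) := by
    intro y
    have h1 : (#T : ℝ) * Dist P X y = ∑ _i ∈ T, Dist P X y := by rw [sum_const, nsmul_eq_mul]
    rw [h1]
    have h2 : ∑ _i ∈ T, Dist P X y ≤ ∑ i ∈ T, (Dq P X (ev (G i)) y + a i) :=
      sum_le_sum fun i _ => h.Dist_le (b i) (ha i) y
    rw [sum_add_distrib] at h2
    have := hC y
    linarith
  have hE4 : Tendsto (fun y : ℕ => #T * Dist P X y / log4 y) atTop atTop := by
    refine tendsto_atTop_mono' _ ?_ hD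
    filter_upwards [log4_tendsto.eventually_ge_atTop 1] with y hy
    refine div_le_div_of_nonneg_right ?_ (by linarith)
    have := h.Dist_nonneg y
    nlinarith
  filter_upwards [h.as_poly hsep hdeg hE hE4 hc] with ω hω ε hε
  obtain ⟨x0, hx0⟩ := hω ε hε
  refine ⟨x0, fun x hx => ?_⟩
  have h1 := hx0 x hx
  have e : SS X c (ev Q) ω x = Cor X c a b T ω x := by
    unfold SS Cor
    refine sum_congr rfl fun n _ => ?_
    congr 1
    rw [← FF_prod]
    congr 1
    have e2 : ev Q n = ((∏ i ∈ T, (a i * n + b i) : ℕ) : ℤ) := by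
      rw [Nat.cast_prod]
      have e3 : ev Q n = ∏ i ∈ T, ev (G i) n := by
        unfold ev
        rw [hQ, Polynomial.eval_prod]
      rw [e3]
      exact prod_congr rfl fun i _ => ev_lin _ _ _
    rw [e2, Int.natAbs_natCast]
  rwa [e] at h1

/-- the level is large -/
lemma zx_loglog {ε : ℝ} (hε : 0 < ε) : ∀ᶠ x : ℕ in atTop,
    (1 - ε) * Real.log (Real.log x) ≤ Real.log (Real.log (zx x)) := by
  have ht := Real.tendsto_exp_div_pow_atTop 3
  have h2 : Tendsto (fun L : ℝ => ε * L) atTop atTop := tendsto_id.const_mul_atTop hε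
  have key : ∀ᶠ L : ℝ in atTop, Real.exp ((1 - ε) * L) ≤ Real.log (zz (Real.exp L) L) := by
    filter_upwards [(ht.comp h2).eventually_ge_atTop (2 / ε ^ 3), eventually_ge_atTop 2,
      (Real.tendsto_exp_div_pow_atTop 3).eventually_ge_atTop 4] with L hL hL2 hL4
    simp only [Function.comp] at hL
    have hL0 : 0 < L := by linarith
    rw [le_div_iff₀ (by positivity)] at hL
    have h3 : 2 * L ^ 3 ≤ Real.exp (ε * L) := by
      have e : 2 / ε ^ 3 * (ε * L) ^ 3 = 2 * L ^ 3 := by field_simp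
      linarith
    set a := Real.exp L / (2 * L ^ 3) with ha
    have h4 : Real.exp ((1 - ε) * L) ≤ a := by
      rw [ha, le_div_iff₀ (by positivity)]
      calc Real.exp ((1 - ε) * L) * (2 * L ^ 3) ≤ Real.exp ((1 - ε) * L) * Real.exp (ε * L) :=
            mul_le_mul_of_nonneg_left h3 (Real.exp_pos _).le
        _ = Real.exp L := by rw [← Real.exp_add]; congr 1; ring
    have h6 : Real.exp L / L ^ 3 = 2 * a := by rw [ha]; field_simp
    have ha2 : 2 ≤ a := by linarith
    have h7 := Nat.lt_floor_add_one (Real.exp (Real.exp L / L ^ 3))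
    have h8 : Real.exp (2 * a) = Real.exp a * Real.exp a := by rw [← Real.exp_add]; congr 1; ring
    rw [h6, h8] at h7
    have h9 : 3 ≤ Real.exp a := by
      have := Real.add_one_le_exp a
      linarith
    have h10 : Real.exp a ≤ zz (Real.exp L) L := by
      unfold zz
      rw [h6, h8]
      nlinarith
    refine h4.trans ?_
    rw [Real.le_log_iff_exp_le ((Real.exp_pos _).trans_le h10)]
    exact h10
  filter_upwards [tend_LL.eventually key, (Real.tendsto_log_atTop.comp tendsto_natCast_atTop_atTop).eventually_gt_atTop 1]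
    with x h3 h4
  simp only [Function.comp] at h4
  rw [Real.exp_log (by linarith)] at h3
  have h5 : (zx x : ℝ) = zz (Real.log x) (Real.log (Real.log x)) := rfl
  rw [h5, Real.le_log_iff_exp_le ((Real.exp_pos _).trans_le h3)]
  exact h3

/-- powers of the logarithm -/
lemma Signs.log_power (h : Signs P X) {δ : ℝ} (hδ : 0 < δ)
    (hD : ∀ᶠ y : ℕ in atTop, δ * Real.log (Real.log y) ≤ Dist P X y) (m : ℕ) {ε : ℝ} (hε : 0 < ε) :
    ∃ ε' : ℝ, 0 < ε' ∧ ∀ᶠ x : ℕ in atTop,
      Real.exp (-((1 - ε') * (m * Dist P X (zx x)))) ≤ Real.log x ^ (-(m * δ) + ε) := by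
  set ε' : ℝ := min (1 / 2) (ε / (2 * (m * δ + 1))) with hε'
  have hmδ : 0 ≤ m * δ := by positivity
  have hε'0 : 0 < ε' := lt_min (by norm_num) (by positivity)
  have hε'1 : ε' ≤ 1 / 2 := min_le_left _ _
  have hε'2 : ε' * (2 * (m * δ + 1)) ≤ ε := by
    have := min_le_right (1 / 2 : ℝ) (ε / (2 * (m * δ + 1)))
    rw [← hε', le_div_iff₀ (by positivity)] at this
    exact this
  refine ⟨ε', hε'0, ?_⟩
  filter_upwards [zx_loglog hε'0, zx_tendsto.eventually hD, tend_LL.eventually_ge_atTop 1,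
    (Real.tendsto_log_atTop.comp tendsto_natCast_atTop_atTop).eventually_gt_atTop 1] with x h1 h2 h3 h4
  simp only [Function.comp] at h4
  rw [Real.rpow_def_of_pos (by linarith)]
  refine Real.exp_le_exp.2 ?_
  set L := Real.log (Real.log x) with hL
  set Dz := Dist P X (zx x) with hDz
  have h5 : δ * ((1 - ε') * L) ≤ Dz := (mul_le_mul_of_nonneg_left h1 hδ.le).trans h2
  have h6 : (1 - ε') * (m * (δ * ((1 - ε') * L))) ≤ (1 - ε') * (m * Dz) :=
    mul_le_mul_of_nonneg_left (mul_le_mul_of_nonneg_left h5 (Nat.cast_nonneg m)) (by linarith)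
  have h7 : (m * δ) * L * (1 - 2 * ε') ≤ (1 - ε') * (m * (δ * ((1 - ε') * L))) := by
    have e : (1 - ε') * (m * (δ * ((1 - ε') * L))) = (m * δ) * L * (1 - ε') ^ 2 := by ring
    rw [e]
    refine mul_le_mul_of_nonneg_left ?_ (by positivity)
    nlinarith [sq_nonneg ε']
  have h8 : (m * δ) * (2 * ε') * L ≤ ε * L := by
    refine mul_le_mul_of_nonneg_right ?_ (by linarith)
    nlinarith
  nlinarith

end Pool.Agent.L5helper2.CH
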