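import Pool.Agent.L5helper2.CH.B10
import Pool.Agent.H474R2.GE.FA

/-! Chowla's conjecture for random signs (helper2): all squarefree polynomials. -/

set_option autoImplicit false

namespace Pool.Agent.L5helper2.CH

open Finset MeasureTheory ProbabilityTheory Filter
open scoped Polynomial Topology

variable {Ω : Type} [MeasurableSpace Ω] {P : Measure Ω} {X : ℕ → Ω → ℝ}

lemma zx_le : ∀ᶠ x : ℕ in atTop, zx x ≤ x := by
  filter_upwards [tend_LL.eventually_ge_atTop 1,
    (Real.tendsto_log_atTop.comp tendsto_natCast_atTop_atTop).eventually_gt_atTop 1, eventually_ge_atTop 1] with x h1 h2 h3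
  simp only [Function.comp] at h2
  have hx0 : (0 : ℝ) < x := by exact_mod_cast h3
  unfold zx zz
  refine Nat.floor_le_of_le ?_
  have hxe : (x : ℝ) = Real.exp (Real.log x) := by rw [Real.exp_log hx0]
  nth_rw 3 [hxe]
  refine Real.exp_le_exp.2 ?_
  rw [div_le_iff₀ (by positivity)]
  have : (1 : ℝ) ≤ Real.log (Real.log x) ^ 3 := one_le_pow₀ h1
  nlinarith

/-- the factors -/
noncomputable def facs (f : ℤ[X]) : Finset ℤ[X] := (UniqueFactorizationMonoid.normalizedFactors f).toFinset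

section

variable {f : ℤ[X]}

lemma facs_irr {F : ℤ[X]} (hF : F ∈ facs f) : Irreducible F := by
  unfold facs at hF
  rw [Multiset.mem_toFinset] at hF
  exact UniqueFactorizationMonoid.irreducible_of_normalized_factor F hF

lemma facs_deg (hprim : f.IsPrimitive) {F : ℤ[X]} (hF : F ∈ facs f) : 1 ≤ F.natDegree := by
  have h1 := facs_irr hF
  by_contra h2
  have h3 : F.natDegree = 0 := by omega
  obtain ⟨a, rfl⟩ : ∃ a, F = Polynomial.C a := ⟨F.coeff 0, Polynomial.eq_C_of_natDegree_eq_zero h3⟩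
  have h4 : Polynomial.C a ∣ f := by
    unfold facs at hF
    rw [Multiset.mem_toFinset] at hF
    exact UniqueFactorizationMonoid.dvd_of_mem_normalizedFactors hF
  exact h1.not_isUnit ((hprim a h4).map Polynomial.C)

lemma facs_prim (hprim : f.IsPrimitive) {F : ℤ[X]} (hF : F ∈ facs f) : F.IsPrimitive :=
  (facs_irr hF).isPrimitive (by have := facs_deg hprim hF; omega)

lemma facs_map_irr (hprim : f.IsPrimitive) {F : ℤ[X]} (hF : F ∈ facs f) :
    Irreducible (F.map (Int.castRingHom ℚ)) :=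
  (Polynomial.IsPrimitive.Int.irreducible_iff_irreducible_map_cast (facs_prim hprim hF)).1 (facs_irr hF)

lemma facs_coprime (hprim : f.IsPrimitive) {F G : ℤ[X]} (hF : F ∈ facs f) (hG : G ∈ facs f) (h : F ≠ G) :
    IsCoprime (F.map (Int.castRingHom ℚ)) (G.map (Int.castRingHom ℚ)) := by
  rw [(facs_map_irr hprim hF).coprime_iff_not_dvd]
  intro h1
  rw [← Polynomial.IsPrimitive.Int.dvd_iff_map_cast_dvd_map_cast F G (facs_prim hprim hF)] at h1
  have h2 := (facs_irr hF).associated_of_dvd (facs_irr hG) h1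
  apply h
  unfold facs at hF hG
  rw [Multiset.mem_toFinset] at hF hG
  exact h2.eq_of_normalized (UniqueFactorizationMonoid.normalize_normalized_factor F hF)
    (UniqueFactorizationMonoid.normalize_normalized_factor G hG)

lemma facs_card (hsq : Squarefree f) (h0 : f ≠ 0) : #(facs f) = Multiset.card (UniqueFactorizationMonoid.normalizedFactors f) := by
  unfold facs
  rw [Multiset.toFinset_card_of_nodup]
  exact (UniqueFactorizationMonoid.squarefree_iff_nodup_normalizedFactors h0).1 hsq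

lemma facs_prod (hsq : Squarefree f) (h0 : f ≠ 0) : Associated (∏ F ∈ facs f, F) f := by
  have h1 : ∏ F ∈ facs f, F = (UniqueFactorizationMonoid.normalizedFactors f).prod := by
    unfold facs
    rw [Finset.prod_eq_multiset_prod, Multiset.toFinset_val,
      Multiset.dedup_eq_self.2 ((UniqueFactorizationMonoid.squarefree_iff_nodup_normalizedFactors h0).1 hsq),
      Multiset.map_id']
  rw [h1]
  exact UniqueFactorizationMonoid.prod_normalizedFactors h0

lemma facs_ev (hsq : Squarefree f) (h0 : f ≠ 0) (n : ℕ) : (ev (∏ F ∈ facs f, F) n).natAbs = (ev f n).natAbs := by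
  have h1 := (facs_prod hsq h0).map (Polynomial.evalRingHom (n : ℤ))
  rw [Int.associated_iff_natAbs] at h1
  exact h1

lemma facs_nonempty (h0 : f ≠ 0) (hdeg : 1 ≤ f.natDegree) : (facs f).Nonempty := by
  rw [nonempty_iff_ne_empty]
  intro h1
  unfold facs at h1
  rw [Multiset.toFinset_eq_empty] at h1
  have h2 := UniqueFactorizationMonoid.prod_normalizedFactors h0
  rw [h1, Multiset.prod_zero] at h2
  have h3 : IsUnit f := (associated_one_iff_isUnit.1 h2.symm)
  have h4 := Polynomial.natDegree_eq_zero_of_isUnit h3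
  omega

end

lemma Signs.Dq_ge (h : Signs P X) {ψ : ℕ → ℝ} (hψ : Antitone ψ) (hψ0 : ∀ x, 0 ≤ ψ x)
    (hψd : ∀ p : ℕ, p.Prime → ψ p ≤ dl P X p) {F : ℤ[X]} (hF : Irreducible F) (hd : 1 ≤ F.natDegree) :
    ∃ C : ℝ, 0 ≤ C ∧ ∀ y : ℕ, 3 ≤ y → ψ y * Real.log (Real.log y) ≤ Dq P X (ev F) y + C := by
  obtain ⟨C, hC0, hC⟩ := Pool.Agent.H474R2.GE.mertens_rho F hF (by omega)
  refine ⟨C, hC0, fun y hy => ?_⟩
  have h1 := (abs_le.1 (hC y (by exact_mod_cast hy))).1
  have hψ1 : ψ y ≤ 1 := by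
    refine (hψ (by omega : 2 ≤ y)).trans ((hψd 2 Nat.prime_two).trans (h.dl_le 2))
  have e : Pool.Agent.H474R2.PG.Sg (Pool.Agent.H474R2.PG.rho F) y =
      ∑ p ∈ (Icc 1 y).filter Nat.Prime, (rr (ev F) p : ℝ) / p := by
    unfold Pool.Agent.H474R2.PG.Sg Pool.Agent.H474R2.PG.PR
    rw [Nat.floor_natCast]
    rfl
  rw [e] at h1
  have h2 : ψ y * ∑ p ∈ (Icc 1 y).filter Nat.Prime, (rr (ev F) p : ℝ) / p ≤ Dq P X (ev F) y := by
    unfold Dq
    rw [mul_sum]
    refine sum_le_sum fun p hp => ?_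
    rw [mem_filter, mem_Icc] at hp
    exact mul_le_mul_of_nonneg_right ((hψ hp.1.2).trans (hψd p hp.2)) (by positivity)
  have h3 : ψ y * (Real.log (Real.log y) - C) ≤ ψ y * ∑ p ∈ (Icc 1 y).filter Nat.Prime, (rr (ev F) p : ℝ) / p :=
    mul_le_mul_of_nonneg_left (by linarith) (hψ0 y)
  have h4 : ψ y * C ≤ C := mul_le_of_le_one_left hC0 hψ1
  nlinarith

theorem Signs.as_fac (h : Signs P X) {ψ : ℕ → ℝ} (hψ : Antitone ψ) (hψ0 : ∀ x, 0 ≤ ψ x)
    (hψd : ∀ p : ℕ, p.Prime → ψ p ≤ dl P X p)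
    (hlim : Tendsto (fun x : ℕ => ψ x * Real.log (Real.log x) / log4 x) atTop atTop)
    {f : ℤ[X]} (hprim : f.IsPrimitive) (hsq : Squarefree f) (hdeg : 1 ≤ f.natDegree) {c : ℕ → ℝ} (hc : ∀ n, |c n| ≤ 1) :
    ∀ᵐ ω ∂P, ∀ ε : ℝ, 0 < ε → ∃ x0 : ℕ, ∀ x : ℕ, x0 ≤ x → |SS X c (ev f) ω x| ≤
      x * Real.exp (-((1 - ε) * (#(facs f) * (ψ x * Real.log (Real.log x))))) := by
  classical
  have h0 : f ≠ 0 := hsq.ne_zero
  set s := facs f with hs
  set Q : ℤ[X] := ∏ F ∈ s, F with hQ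
  have hne : s.Nonempty := facs_nonempty h0 hdeg
  have hsep : (Q.map (Int.castRingHom ℚ)).Separable := by
    rw [hQ, Polynomial.map_prod]
    exact Polynomial.separable_prod' (fun i hi j hj hij => facs_coprime hprim hi hj hij)
      fun i hi => (facs_map_irr hprim hi).separable
  have hQdeg : 1 ≤ Q.natDegree := by
    rw [hQ, Polynomial.natDegree_prod _ _ (fun i hi => (facs_irr hi).ne_zero)]
    obtain ⟨F, hF⟩ := hne
    exact (facs_deg hprim hF).trans (single_le_sum (f := fun F : ℤ[X] => F.natDegree) (fun _ _ => Nat.zero_le _) hF)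
  obtain ⟨C, hC⟩ := h.Dq_prod s (fun F => F) fun i hi j hj hij => facs_coprime hprim hi hj hij
  have hF : ∀ F ∈ s, ∃ C : ℝ, 0 ≤ C ∧ ∀ y : ℕ, 3 ≤ y → ψ y * Real.log (Real.log y) ≤ Dq P X (ev F) y + C :=
    fun F hF => h.Dq_ge hψ hψ0 hψd (facs_irr hF) (facs_deg hprim hF)
  choose! B hB0 hB using hF
  set E : ℕ → ℝ := fun y => if y < 3 then 0 else #s * (ψ y * Real.log (Real.log y)) with hE
  have hE1 : ∀ y, E y ≤ Dq P X (ev Q) y + (|C| + ∑ F ∈ s, B F) := by
    intro y
    have hB00 : 0 ≤ ∑ F ∈ s, B F := sum_nonneg hB0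
    rw [hE]
    simp only
    split_ifs with hy
    · have := h.Dq_nonneg (ev Q) y
      have := abs_nonneg C
      linarith
    · have h1 : (#s : ℝ) * (ψ y * Real.log (Real.log y)) ≤ ∑ F ∈ s, (Dq P X (ev F) y + B F) := by
        rw [← nsmul_eq_mul, ← sum_const]
        exact sum_le_sum fun F hF => hB F hF y (by omega)
      rw [sum_add_distrib] at h1
      have h2 := hC y
      have h3 := le_abs_self C
      linarith
  have hs1 : (1 : ℝ) ≤ #s := by exact_mod_cast hne.card_pos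
  have hE4 : Tendsto (fun y : ℕ => E y / log4 y) atTop atTop := by
    refine tendsto_atTop_mono' _ ?_ hlim
    filter_upwards [log4_tendsto.eventually_ge_atTop 1, eventually_ge_atTop 3, tend_LL.eventually_ge_atTop 0]
      with y hy hy3 hy4
    rw [hE]
    simp only
    rw [if_neg (by omega)]
    refine div_le_div_of_nonneg_right ?_ (by linarith)
    exact le_mul_of_one_le_left (mul_nonneg (hψ0 y) hy4) hs1
  filter_upwards [h.as_poly hsep hQdeg hE1 hE4 hc] with ω hω ε hε
  set ε' : ℝ := min ε 1 / 2 with hε'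
  have hm0 : 0 < min ε 1 := lt_min hε one_pos
  have hε'0 : 0 < ε' := half_pos hm0
  have hε'1 : ε' ≤ 1 / 2 := by rw [hε']; linarith [min_le_right ε 1]
  have hε'2 : 2 * ε' ≤ ε := by rw [hε']; linarith [min_le_left ε 1]
  obtain ⟨x0, hx0⟩ := hω ε' hε'0
  obtain ⟨x1, hx1⟩ := eventually_atTop.1 ((zx_loglog hε'0).and ((zx_tendsto.eventually_ge_atTop 3).and
    (zx_le.and (tend_LL.eventually_ge_atTop 0))))
  refine ⟨max x0 x1, fun x hx => ?_⟩
  have h1 := hx0 x ((le_max_left _ _).trans hx)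
  obtain ⟨h2, h3, h4, h5⟩ := hx1 x ((le_max_right _ _).trans hx)
  have e : SS X c (ev Q) ω x = SS X c (ev f) ω x := by
    unfold SS
    refine sum_congr rfl fun n _ => ?_
    rw [hQ, hs, facs_ev hsq h0 n]
  rw [e] at h1
  refine h1.trans (mul_le_mul_of_nonneg_left (Real.exp_le_exp.2 (neg_le_neg ?_)) (Nat.cast_nonneg x))
  rw [hE]
  simp only
  rw [if_neg (by omega)]
  set L := Real.log (Real.log x) with hL
  have h6 : ψ x * ((1 - ε') * L) ≤ ψ (zx x) * Real.log (Real.log (zx x)) :=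
    mul_le_mul (hψ h4) h2 (mul_nonneg (by linarith) h5) (hψ0 _)
  have h7 : (1 - ε) * (#s * (ψ x * L)) ≤ (1 - ε') * (#s * (ψ x * ((1 - ε') * L))) := by
    have h8 : 0 ≤ #s * (ψ x * L) := mul_nonneg (by linarith) (mul_nonneg (hψ0 x) h5)
    have h9 : (1 - ε') * (#s * (ψ x * ((1 - ε') * L))) = (1 - ε') ^ 2 * (#s * (ψ x * L)) := by ring
    rw [h9]
    refine mul_le_mul_of_nonneg_right ?_ h8
    nlinarith [sq_nonneg ε']
  refine h7.trans (mul_le_mul_of_nonneg_left (mul_le_mul_of_nonneg_left h6 (by linarith)) (by linarith))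

end Pool.Agent.L5helper2.CH
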