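import Pool.Agent.L5helper2.CH.B11

/-! Chowla's conjecture for random signs (helper2): the sharp form of the condition. -/

set_option autoImplicit false

namespace Pool.Agent.L5helper2.CH

open Finset MeasureTheory ProbabilityTheory Filter
open scoped Polynomial Topology

variable {Ω : Type} [MeasurableSpace Ω] {P : Measure Ω} {X : ℕ → Ω → ℝ} {q : ℕ → ℤ} {P0 d : ℕ}

/-- the probability that the sum is not small -/
lemma Signs.bad_const (h : Signs P X) (hq : Good q P0 d) (hd : 1 ≤ d)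
    (hD : Tendsto (fun x : ℕ => Dq P X q (zx x) - Dq P X q (P1 P0 d (Real.log (Real.log x)))) atTop atTop)
    {c : ℕ → ℝ} (hc : ∀ n, |c n| ≤ 1) {A : ℝ} (hA : 0 ≤ A) :
    ∀ᶠ x : ℕ in atTop, P.real {ω | Real.exp (-A) * x < |SS X c q ω x|} /
      (Real.exp (-A) * x) ≤ 5 * (1 / ((x : ℝ) * Real.log x ^ 2)) := by
  have hP := h.prob
  obtain ⟨C, L0, hC0, hL0, hmom⟩ := h.mom hq
  have ht := Real.tendsto_exp_div_pow_atTop 3
  filter_upwards [hD.eventually_ge_atTop (2 * A + 1), tend_LL.eventually (eventually_ge_atTop L0),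
    tend_LL.eventually (ht.eventually_ge_atTop 16),
    tend_LL.eventually (eventually_ge_atTop (A + 3)),
    (Real.tendsto_log_atTop.comp tendsto_natCast_atTop_atTop).eventually_ge_atTop 3,
    eventually_ge_atTop 1] with x e1 e2 e3 e5 e7 e8
  simp only [Function.comp] at e7
  set ℓ := Real.log (x : ℝ) with hℓ
  set L := Real.log ℓ with hL
  have hℓ0 : 0 < ℓ := by linarith
  have hℓL : Real.exp L = ℓ := by rw [hL, Real.exp_log hℓ0]
  rw [hℓL] at e3
  have hx0 : (0 : ℝ) < x := by exact_mod_cast e8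
  have hd1 : (1 : ℝ) ≤ d := by exact_mod_cast hd
  have hLpos : 3 ≤ L := by linarith
  have hzx : zx x = zz ℓ L := rfl
  rw [hzx] at e1
  set z := zz ℓ L with hz
  set Dz := Dq P X q z with hDz
  set Dp := Dq P X q (P1 P0 d L) with hDp
  set J := JJ L with hJ
  have hJge : 2 * L ≤ J := JJ_ge
  have hJle : (J : ℝ) ≤ 4 * L := JJ_le (by linarith)
  have hJeven : Even J := ⟨⌈L⌉₊, by rw [hJ]; unfold JJ; ring⟩
  set η := Real.exp (-A) with hη
  have hη0 : 0 < η := Real.exp_pos _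
  have h1 := hmom c hc x ℓ L hℓ hL e2 hℓ0
  rw [← hz, ← hDz, ← hDp, ← hJ] at h1
  have h2 : (η * x) ^ J * P.real {ω | η * x < |SS X c q ω x|} ≤ ∫ ω, SS X c q ω x ^ J ∂P := by
    have h3 := mul_meas_ge_le_integral_of_nonneg (μ := P) (f := fun ω => SS X c q ω x ^ J)
      (Eventually.of_forall fun ω => hJeven.pow_nonneg _)
      (Integrable.of_bound ((h.meas_SS c q x).pow_const J).aestronglyMeasurable ((x : ℝ) ^ J)
        (Eventually.of_forall fun ω => by
          rw [Real.norm_eq_abs, abs_pow]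
          refine pow_le_pow_left₀ (abs_nonneg _) ?_ _
          unfold SS
          refine (abs_sum_le_sum_abs _ _).trans ?_
          calc ∑ n ∈ Ioc 0 x, |c n * FF X ω (q n).natAbs| ≤ ∑ _n ∈ Ioc 0 x, (1 : ℝ) := by
                refine sum_le_sum fun n _ => ?_
                rw [abs_mul]
                exact mul_le_one₀ (hc n) (abs_nonneg _) (h.abs_FF ω _)
            _ = x := by simp)) ((η * x) ^ J)
    refine le_trans ?_ h3
    refine mul_le_mul_of_nonneg_left ?_ (by positivity)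
    refine measureReal_mono ?_ (measure_ne_top P _)
    intro ω hω
    have h4 : η * x < |SS X c q ω x| := hω
    show (η * x) ^ J ≤ SS X c q ω x ^ J
    rw [← hJeven.pow_abs (SS X c q ω x)]
    exact pow_le_pow_left₀ (by positivity) h4.le J
  set Pb := P.real {ω | η * x < |SS X c q ω x|} with hPb
  set E := 3 * Real.exp (-(J * (Dz - Dp))) + Real.exp (-(8 * J * d * (L + C))) + Real.exp (-(ℓ / 2)) with hE
  have h3 : η ^ J * Pb ≤ E := by
    have h4 : (η * x) ^ J * Pb ≤ (x : ℝ) ^ J * E := h2.trans ((le_abs_self _).trans h1)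
    rw [mul_pow] at h4
    have hxJ : 0 < (x : ℝ) ^ J := by positivity
    have h5 : (x : ℝ) ^ J * (η ^ J * Pb) ≤ (x : ℝ) ^ J * E := by linarith [h4]
    exact le_of_mul_le_mul_left h5 hxJ
  have h4 : Pb / η ≤ Real.exp ((J + 1) * A) * E := by
    have h5 : Real.exp ((J + 1) * A) * (η ^ J * Pb) = Pb / η := by
      have h6 : Real.exp ((J + 1) * A) = (η ^ J * η)⁻¹ := by
        rw [hη, ← Real.exp_nat_mul, ← Real.exp_add, ← Real.exp_neg]
        congr 1
        ring
      rw [h6]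
      field_simp
    rw [← h5]
    exact mul_le_mul_of_nonneg_left h3 (Real.exp_pos _).le
  have hJ1 : (1 : ℝ) ≤ J := by linarith
  have hJA : (J + 1) * A ≤ 2 * J * A := mul_le_mul_of_nonneg_right (by linarith) hA
  have t1 : Real.exp ((J + 1) * A) * (3 * Real.exp (-(J * (Dz - Dp)))) ≤ 3 * Real.exp (-(2 * L)) := by
    have e : Real.exp ((J + 1) * A) * (3 * Real.exp (-(J * (Dz - Dp)))) =
        3 * Real.exp ((J + 1) * A + -(J * (Dz - Dp))) := by
      rw [Real.exp_add]; ring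
    rw [e]
    refine mul_le_mul_of_nonneg_left (Real.exp_le_exp.2 ?_) (by norm_num)
    have h6 : J * (2 * A + 1) ≤ J * (Dz - Dp) := mul_le_mul_of_nonneg_left e1 (by linarith)
    nlinarith
  have t2 : Real.exp ((J + 1) * A) * Real.exp (-(8 * J * d * (L + C))) ≤ Real.exp (-(2 * L)) := by
    rw [← Real.exp_add]
    refine Real.exp_le_exp.2 ?_
    have h5 : J * L ≤ J * d * (L + C) := by
      have h51 : J * 1 * L ≤ J * d * (L + C) :=
        mul_le_mul (mul_le_mul_of_nonneg_left hd1 (by linarith)) (by linarith) (by linarith) (by positivity)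
      linarith
    have h6 : J * A ≤ J * L := mul_le_mul_of_nonneg_left (by linarith) (by linarith)
    have h7 : 1 * L ≤ J * L := mul_le_mul_of_nonneg_right hJ1 (by linarith)
    nlinarith
  have t3 : Real.exp ((J + 1) * A) * Real.exp (-(ℓ / 2)) ≤ Real.exp (-(2 * L)) := by
    rw [← Real.exp_add]
    refine Real.exp_le_exp.2 ?_
    rw [le_div_iff₀ (by positivity)] at e3
    have h5 : J * A ≤ 4 * L * L := mul_le_mul hJle (by linarith) hA (by linarith)
    have h6 : L ^ 3 = L * L * L := by ring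
    have h7 : 3 * (L * L) ≤ L ^ 3 := by
      rw [h6]
      have : 0 ≤ L * L := by positivity
      nlinarith
    have h8 : 3 * L ≤ L * L := by nlinarith
    nlinarith
  have h5 : Pb / η ≤ 5 * Real.exp (-(2 * L)) := by
    refine h4.trans ?_
    rw [hE, mul_add, mul_add]
    linarith
  have h6 : Real.exp (-(2 * L)) = 1 / ℓ ^ 2 := by
    rw [Real.exp_neg, one_div]
    congr 1
    rw [two_mul, Real.exp_add, hℓL]
    ring
  rw [h6] at h5
  calc Pb / (η * x) = (Pb / η) * (1 / x) := by field_simp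
    _ ≤ (5 * (1 / ℓ ^ 2)) * (1 / x) := mul_le_mul_of_nonneg_right h5 (by positivity)
    _ = _ := by ring

/-- the sums are `o(x)` -/
theorem Signs.as_null (h : Signs P X) (hq : Good q P0 d) (hd : 1 ≤ d)
    (hD : Tendsto (fun x : ℕ => Dq P X q (zx x) - Dq P X q (P1 P0 d (Real.log (Real.log x)))) atTop atTop)
    {c : ℕ → ℝ} (hc : ∀ n, |c n| ≤ 1) :
    ∀ᵐ ω ∂P, ∀ ε : ℝ, 0 < ε → ∃ x0 : ℕ, ∀ x, x0 ≤ x → |SS X c q ω x| ≤ ε * x := by
  have hP := h.prob
  have key : ∀ m : ℕ, ∀ᵐ ω ∂P, ∃ x0 : ℕ, ∀ y, x0 ≤ y → |SS X c q ω y| ≤ 4 * (Real.exp (-(m : ℝ)) * y) := by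
    intro m
    refine as_general (P := P) (s := fun ω x => SS X c q ω x) (fun x => h.meas_SS c q x)
      (fun ω x => by
        unfold SS
        rw [← Finset.insert_Ioc_right_eq_Ioc_add_one (Nat.zero_le x), sum_insert (by simp), add_sub_cancel_right, abs_mul]
        exact mul_le_one₀ (hc _) (abs_nonneg _) (h.abs_FF ω _))
      (η := fun _ => Real.exp (-(m : ℝ))) (x1 := 0) (fun x => Real.exp_pos _)
      (fun x _ => by
        rw [Real.exp_le_one_iff]
        simp)
      (fun x y _ _ => le_rfl)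
      ?_
    refine Summable.of_norm_bounded_eventually_nat (summable_log_sq.mul_left 5) ?_
    filter_upwards [h.bad_const hq hd hD hc (Nat.cast_nonneg m)] with x hx
    rw [Real.norm_of_nonneg (by positivity)]
    exact hx
  rw [← ae_all_iff] at key
  filter_upwards [key] with ω hω ε hε
  obtain ⟨m, hm⟩ := exists_nat_gt (4 / ε)
  obtain ⟨x0, hx0⟩ := hω m
  refine ⟨x0, fun x hx => (hx0 x hx).trans ?_⟩
  rw [← mul_assoc]
  refine mul_le_mul_of_nonneg_right ?_ (Nat.cast_nonneg x)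
  have h1 := Real.add_one_le_exp (m : ℝ)
  rw [Real.exp_neg]
  rw [← div_eq_mul_inv, div_le_iff₀ (Real.exp_pos _)]
  rw [div_lt_iff₀ hε] at hm
  nlinarith

lemma sum_split (f : ℕ → ℝ) {w z : ℕ} (hwz : w ≤ z) :
    ∑ p ∈ (Icc 1 z).filter Nat.Prime, f p = ∑ p ∈ (Icc 1 w).filter Nat.Prime, f p + ∑ p ∈ (Ioc w z).filter Nat.Prime, f p := by
  rw [← sum_union]
  · congr 1
    ext p
    simp only [mem_filter, mem_Icc, mem_union, mem_Ioc]
    constructor
    · rintro ⟨h1, h2⟩
      by_cases h3 : p ≤ w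
      · exact Or.inl ⟨⟨h1.1, h3⟩, h2⟩
      · exact Or.inr ⟨⟨by omega, h1.2⟩, h2⟩
    · rintro (⟨h1, h2⟩ | ⟨h1, h2⟩)
      · exact ⟨⟨h1.1, by omega⟩, h2⟩
      · exact ⟨⟨h2.one_lt.le, h1.2⟩, h2⟩
  · rw [disjoint_left]
    intro p hp hp'
    rw [mem_filter, mem_Icc] at hp
    rw [mem_filter, mem_Ioc] at hp'
    omega

lemma Signs.Dist_mono (h : Signs P X) {y z : ℕ} (hyz : y ≤ z) : Dist P X y ≤ Dist P X z := by
  unfold Dist
  rw [sum_split _ hyz]
  have : 0 ≤ ∑ p ∈ (Ioc y z).filter Nat.Prime, dl P X p / p :=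
    sum_nonneg fun p _ => div_nonneg (h.dl_nonneg p) (Nat.cast_nonneg p)
  linarith

/-- the cut offs -/
lemma cut (P0 : ℕ) {d : ℕ} (hd : 1 ≤ d) (W : ℕ) : ∀ᶠ x : ℕ in atTop,
    W ≤ P1 P0 d (Real.log (Real.log x)) ∧ P1 P0 d (Real.log (Real.log x)) ≤ ⌊Real.log (Real.log (zx x)) ^ 4⌋₊ ∧
      ⌊Real.log (Real.log (zx x)) ^ 4⌋₊ ≤ zx x := by
  have hzx := zx_tendsto
  have hlp : ∀ᶠ y : ℕ in atTop, Real.log (Real.log y) ^ 4 ≤ y := by
    have h1 : ∀ᶠ L : ℝ in atTop, L ^ 4 ≤ Real.exp (Real.exp L) := by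
      filter_upwards [(Real.tendsto_exp_div_pow_atTop 4).eventually_ge_atTop 1, eventually_ge_atTop 1] with L hL hL1
      rw [le_div_iff₀ (by positivity), one_mul] at hL
      have := Real.add_one_le_exp (Real.exp L)
      linarith
    filter_upwards [tend_LL.eventually h1, (Real.tendsto_log_atTop.comp tendsto_natCast_atTop_atTop).eventually_gt_atTop 1,
      eventually_ge_atTop 1] with y h2 h3 h4
    simp only [Function.comp] at h3
    have hy : (0 : ℝ) < y := by exact_mod_cast h4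
    rwa [Real.exp_log (by linarith), Real.exp_log hy] at h2
  filter_upwards [zx_loglog (show (0 : ℝ) < 1 / 2 by norm_num), tend_LL.eventually_ge_atTop (max ((P0 : ℝ) + 16 * d ^ 2 + 16) W),
    hzx.eventually hlp] with x h1 h2 h3
  set L := Real.log (Real.log x) with hL
  have hLP : (P0 : ℝ) + 16 * d ^ 2 + 16 ≤ L := (le_max_left _ _).trans h2
  have hLW : (W : ℝ) ≤ L := (le_max_right _ _).trans h2
  have hP0 : (0 : ℝ) ≤ P0 := Nat.cast_nonneg P0
  have hd2 : (0 : ℝ) ≤ 16 * (d : ℝ) ^ 2 := by positivity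
  have hd1 : (1 : ℝ) ≤ d := by exact_mod_cast hd
  have hL16 : 16 ≤ L := by linarith
  have hJ := JJ_ge (L := L)
  have hJ2 : (JJ L : ℝ) ≤ 4 * L := JJ_le (by linarith)
  refine ⟨?_, ?_, ?_⟩
  · have h4 : (W : ℝ) ≤ (P1 P0 d L : ℕ) := by
      unfold P1
      push_cast
      have h5 : (2 * L) * 1 ≤ JJ L * d := mul_le_mul hJ hd1 (by norm_num) (by positivity)
      have h6 : 2 * L ≤ ((JJ L : ℝ) * d) ^ 2 := by nlinarith
      linarith
    exact_mod_cast h4
  · refine Nat.le_floor ?_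
    have h5 : ((JJ L : ℝ) * d) ^ 2 ≤ 16 * (d : ℝ) ^ 2 * L ^ 2 := by
      have h6 : (JJ L : ℝ) * d ≤ 4 * L * d := mul_le_mul_of_nonneg_right hJ2 (Nat.cast_nonneg d)
      have h7 : ((JJ L : ℝ) * d) ^ 2 ≤ (4 * L * d) ^ 2 := pow_le_pow_left₀ (by positivity) h6 2
      linarith [h7]
    have h8 : (1 : ℝ) ≤ L ^ 2 := one_le_pow₀ (by linarith)
    have h10 : ((P1 P0 d L : ℕ) : ℝ) ≤ L ^ 3 := by
      unfold P1
      push_cast
      have h9 : (P0 : ℝ) + 1 ≤ (P0 + 1) * L ^ 2 := by nlinarith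
      have h10 : (P0 + 1 + 16 * (d : ℝ) ^ 2) * L ^ 2 ≤ L * L ^ 2 := mul_le_mul_of_nonneg_right (by linarith) (by positivity)
      nlinarith
    have h11 : L / 2 ≤ Real.log (Real.log (zx x)) := by linarith
    have h12 : (L / 2) ^ 4 ≤ Real.log (Real.log (zx x)) ^ 4 := pow_le_pow_left₀ (by positivity) h11 4
    have h13 : L ^ 3 ≤ (L / 2) ^ 4 := by
      have : (L / 2) ^ 4 = L ^ 3 * (L / 16) := by ring
      rw [this]
      have h14 : 0 ≤ L ^ 3 := by positivity
      nlinarith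
    linarith
  · exact Nat.floor_le_of_le h3

/-- Chowla's conjecture for random signs, linear forms, under the weak condition -/
theorem Signs.as_lin0 (h : Signs P X)
    (hD : Tendsto (fun y : ℕ => Dist P X y - Dist P X ⌊Real.log (Real.log y) ^ 4⌋₊) atTop atTop) {c : ℕ → ℝ}
    (hc : ∀ n, |c n| ≤ 1) {k : ℕ} {a b : Fin k → ℕ} (ha : ∀ i, 1 ≤ a i) (hab : ∀ i j, i ≠ j → a i * b j ≠ a j * b i)
    {T : Finset (Fin k)} (hT : T.Nonempty) :
    ∀ᵐ ω ∂P, ∀ ε : ℝ, 0 < ε → ∃ x0 : ℕ, ∀ x, x0 ≤ x → |Cor X c a b T ω x| ≤ ε * x := by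
  classical
  set G : Fin k → ℤ[X] := fun i => lin (a i) (b i) with hG
  have hco : ∀ i ∈ T, ∀ j ∈ T, i ≠ j → IsCoprime ((G i).map (Int.castRingHom ℚ)) ((G j).map (Int.castRingHom ℚ)) :=
    fun i _ j _ hij => lin_coprime (hab i j hij)
  set Q : ℤ[X] := ∏ i ∈ T, G i with hQ
  have hsep : (Q.map (Int.castRingHom ℚ)).Separable := by
    rw [hQ, Polynomial.map_prod]
    exact Polynomial.separable_prod' (fun i hi j hj hij => hco i hi j hj hij) fun i _ => lin_sep (b i) (ha i)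
  have hGdeg : ∀ i, (G i).natDegree = 1 := by
    intro i
    rw [hG]
    unfold lin
    have : ((a i : ℕ) : ℤ) ≠ 0 := by
      have := ha i
      exact_mod_cast (by omega : a i ≠ 0)
    exact Polynomial.natDegree_linear this
  have hdeg : 1 ≤ Q.natDegree := by
    rw [hQ, Polynomial.natDegree_prod _ _ (fun i _ h0 => by
      have := hGdeg i
      rw [h0] at this
      simp at this), sum_congr rfl fun i _ => hGdeg i, sum_const, smul_eq_mul, mul_one]
    exact hT.card_pos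
  obtain ⟨P0, hgood⟩ := good_poly hsep
  obtain ⟨P2, hP2⟩ := rr_prod T G hco
  set W := P2 + ∑ i ∈ T, a i with hW
  have hrr : ∀ p : ℕ, p.Prime → W < p → #T ≤ rr (ev Q) p := by
    intro p hp hpW
    refine le_trans ?_ (hP2 p hp (by omega))
    calc #T = ∑ _i ∈ T, 1 := by simp
      _ ≤ _ := sum_le_sum fun i hi => rr_lin hp (fun h4 => by
          have h5 := Nat.le_of_dvd (by have := ha i; omega) h4
          have h6 : a i ≤ ∑ i ∈ T, a i := single_le_sum (fun _ _ => Nat.zero_le _) hi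
          omega)
  have hdiff : ∀ w z : ℕ, W ≤ w → w ≤ z → #T * (Dist P X z - Dist P X w) ≤ Dq P X (ev Q) z - Dq P X (ev Q) w := by
    intro w z hw hwz
    unfold Dist Dq
    rw [sum_split _ hwz, sum_split (fun p => dl P X p * ((rr (ev Q) p : ℝ) / p)) hwz, add_sub_cancel_left,
      add_sub_cancel_left, mul_sum]
    refine sum_le_sum fun p hp => ?_
    rw [mem_filter, mem_Ioc] at hp
    have h1 : ((#T : ℕ) : ℝ) ≤ rr (ev Q) p := by exact_mod_cast hrr p hp.2 (by omega)
    have hp0 : (0 : ℝ) < p := by exact_mod_cast hp.2.pos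
    have h2 := h.dl_nonneg p
    calc (#T : ℝ) * (dl P X p / p) = dl P X p * (#T / p) := by ring
      _ ≤ _ := mul_le_mul_of_nonneg_left (div_le_div_of_nonneg_right h1 hp0.le) h2
  have hTpos : (1 : ℝ) ≤ #T := by exact_mod_cast hT.card_pos
  have hD' : Tendsto (fun x : ℕ => Dq P X (ev Q) (zx x) - Dq P X (ev Q) (P1 P0 Q.natDegree (Real.log (Real.log x)))) atTop atTop := by
    refine tendsto_atTop_mono' _ ?_ (hD.comp zx_tendsto)
    filter_upwards [cut P0 hdeg W, (hD.comp zx_tendsto).eventually_ge_atTop 0] with x ⟨h1, h2, h3⟩ h4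
    simp only [Function.comp] at h4 ⊢
    have h5 := hdiff _ _ h1 (h2.trans h3)
    have h6 := h.Dist_mono h2
    nlinarith
  filter_upwards [h.as_null hgood hdeg hD' hc] with ω hω ε hε
  obtain ⟨x0, hx0⟩ := hω ε hε
  refine ⟨x0, fun x hx => ?_⟩
  have h1 := hx0 x hx
  have e : SS X c (ev Q) ω x = Cor X c a b T ω x := by
    unfold SS Cor
    refine sum_congr rfl fun n _ => ?_
    congr 1
    rw [← FF_prod]
    congr 1
    have e2 : ev Q n = ((∏ i ∈ T, (a i * n + b i) : ℕ) : ℤ) := by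
      rw [Nat.cast_prod]
      have e3 : ev Q n = ∏ i ∈ T, ev (G i) n := by
        unfold ev
        rw [hQ, Polynomial.eval_prod]
      rw [e3]
      exact prod_congr rfl fun i _ => ev_lin _ _ _
    rw [e2, Int.natAbs_natCast]
  rwa [e] at h1

end Pool.Agent.L5helper2.CH
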