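import Pool.Agent.L5helper2.CH.B12

/-! Chowla's conjecture for random signs (helper2): weights, sign patterns, logarithmic averages, aperiodicity. -/

set_option autoImplicit false

namespace Pool.Agent.L5helper2.CH

open Finset MeasureTheory ProbabilityTheory Filter
open scoped Topology

/-- sequences with mean value zero -/
def Nul (c : ℕ → ℝ) : Prop := ∀ ε : ℝ, 0 < ε → ∃ x0 : ℕ, ∀ x, x0 ≤ x → |∑ n ∈ Icc 1 x, c n| ≤ ε * x

lemma Nul.zero : Nul fun _ => 0 := by
  intro ε hε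
  refine ⟨0, fun x _ => ?_⟩
  simp only [sum_const_zero, abs_zero]
  positivity

lemma Nul.add {c d : ℕ → ℝ} (hc : Nul c) (hd : Nul d) : Nul fun n => c n + d n := by
  intro ε hε
  obtain ⟨x0, hx0⟩ := hc (ε / 2) (half_pos hε)
  obtain ⟨x1, hx1⟩ := hd (ε / 2) (half_pos hε)
  refine ⟨max x0 x1, fun x hx => ?_⟩
  rw [sum_add_distrib]
  have h1 := hx0 x ((le_max_left _ _).trans hx)
  have h2 := hx1 x ((le_max_right _ _).trans hx)
  have h3 := abs_add_le (∑ n ∈ Icc 1 x, c n) (∑ n ∈ Icc 1 x, d n)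
  linarith

lemma Nul.mul {c : ℕ → ℝ} (hc : Nul c) (t : ℝ) : Nul fun n => t * c n := by
  intro ε hε
  obtain ⟨x0, hx0⟩ := hc (ε / (|t| + 1)) (by positivity)
  refine ⟨x0, fun x hx => ?_⟩
  rw [← mul_sum, abs_mul]
  have h1 := hx0 x hx
  have h2 : |t| * |∑ n ∈ Icc 1 x, c n| ≤ |t| * (ε / (|t| + 1) * x) := mul_le_mul_of_nonneg_left h1 (abs_nonneg t)
  refine h2.trans ?_
  rw [← mul_assoc]
  refine mul_le_mul_of_nonneg_right ?_ (Nat.cast_nonneg x)
  rw [mul_div_assoc', div_le_iff₀ (by positivity)]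
  nlinarith [abs_nonneg t]

lemma Nul.sum {ι : Type*} (s : Finset ι) {c : ι → ℕ → ℝ} (hc : ∀ i ∈ s, Nul (c i)) : Nul fun n => ∑ i ∈ s, c i n := by
  classical
  induction s using Finset.induction_on with
  | empty => simpa using Nul.zero
  | insert i s hi ih =>
    simp_rw [sum_insert hi]
    exact (hc i (mem_insert_self i s)).add (ih fun j hj => hc j (mem_insert_of_mem hj))

lemma Nul.tendsto {c : ℕ → ℝ} (hc : Nul c) : Tendsto (fun x : ℕ => (∑ n ∈ Icc 1 x, c n) / x) atTop (𝓝 0) := by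
  rw [Metric.tendsto_atTop]
  intro ε hε
  obtain ⟨x0, hx0⟩ := hc (ε / 2) (half_pos hε)
  refine ⟨max x0 1, fun x hx => ?_⟩
  have h1 := hx0 x ((le_max_left _ _).trans hx)
  have hx' : (0 : ℝ) < x := by exact_mod_cast (le_max_right _ _).trans hx
  rw [Real.dist_eq, sub_zero, abs_div, abs_of_pos hx', div_lt_iff₀ hx']
  nlinarith

lemma abel (c : ℕ → ℝ) (x : ℕ) : ∑ n ∈ Icc 1 x, c n / n =
    (∑ n ∈ Icc 1 x, c n) / (x + 1) + ∑ n ∈ Icc 1 x, (∑ m ∈ Icc 1 n, c m) / ((n : ℝ) * (n + 1)) := by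
  induction x with
  | zero => simp
  | succ x ih =>
    rw [Finset.sum_Icc_succ_top (by omega), Finset.sum_Icc_succ_top (f := fun n => (∑ m ∈ Icc 1 n, c m) / ((n : ℝ) * (n + 1))) (by omega), ih,
      Finset.sum_Icc_succ_top (f := c) (by omega)]
    set S := ∑ n ∈ Icc 1 x, c n
    push_cast
    have h1 : (x : ℝ) + 1 ≠ 0 := by positivity
    have h2 : (x : ℝ) + 1 + 1 ≠ 0 := by positivity
    field_simp
    ring

lemma Nul.log {c : ℕ → ℝ} (hc : Nul c) : Tendsto (fun x : ℕ => (∑ n ∈ Icc 1 x, c n / n) / Real.log x) atTop (𝓝 0) := by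
  rw [Metric.tendsto_atTop]
  intro ε hε
  obtain ⟨x0, hx0⟩ := hc (ε / 4) (by positivity)
  set K : ℝ := ∑ n ∈ range x0, |∑ m ∈ Icc 1 n, c m| with hK
  have hK0 : 0 ≤ K := sum_nonneg fun _ _ => abs_nonneg _
  have hb : ∀ n : ℕ, |∑ m ∈ Icc 1 n, c m| ≤ ε / 4 * n + K := by
    intro n
    by_cases h : x0 ≤ n
    · have := hx0 n h
      linarith
    · have h1 : |∑ m ∈ Icc 1 n, c m| ≤ K :=
        single_le_sum (f := fun n => |∑ m ∈ Icc 1 n, c m|) (fun _ _ => abs_nonneg _) (mem_range.2 (not_le.1 h))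
      have : 0 ≤ ε / 4 * n := by positivity
      linarith
  have hlog := Real.tendsto_log_atTop.comp (tendsto_natCast_atTop_atTop (R := ℝ))
  obtain ⟨x1, hx1⟩ := eventually_atTop.1 (hlog.eventually_ge_atTop (max 1 (8 * (K + ε) / ε)))
  refine ⟨max x1 1, fun x hx => ?_⟩
  have h1 := hx1 x ((le_max_left _ _).trans hx)
  simp only [Function.comp] at h1
  have hl1 : 1 ≤ Real.log x := (le_max_left _ _).trans h1
  have hl2 : 8 * (K + ε) / ε ≤ Real.log x := (le_max_right _ _).trans h1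
  rw [div_le_iff₀ hε] at hl2
  rw [Real.dist_eq, sub_zero, abs_div, abs_of_pos (by linarith : 0 < Real.log (x : ℝ)), div_lt_iff₀ (by linarith)]
  rw [abel]
  have h2 : |(∑ n ∈ Icc 1 x, c n) / ((x : ℝ) + 1)| ≤ ε / 4 + K := by
    rw [abs_div, abs_of_pos (by positivity : (0 : ℝ) < (x : ℝ) + 1), div_le_iff₀ (by positivity)]
    have := hb x
    have hx' : (0 : ℝ) ≤ x := Nat.cast_nonneg x
    nlinarith
  have h3 : |∑ n ∈ Icc 1 x, (∑ m ∈ Icc 1 n, c m) / ((n : ℝ) * (n + 1))| ≤ ε / 4 * (1 + Real.log x) + K := by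
    refine (abs_sum_le_sum_abs _ _).trans ?_
    have h4 : ∀ n ∈ Icc 1 x, |(∑ m ∈ Icc 1 n, c m) / ((n : ℝ) * (n + 1))| ≤ ε / 4 * (n : ℝ)⁻¹ + K * (1 / (n : ℝ) - 1 / ((n : ℝ) + 1)) := by
      intro n hn
      rw [mem_Icc] at hn
      have hn0 : (0 : ℝ) < n := by exact_mod_cast hn.1
      rw [abs_div, abs_of_pos (by positivity : (0 : ℝ) < (n : ℝ) * (n + 1)), div_le_iff₀ (by positivity)]
      have h5 := hb n
      have e : (ε / 4 * (n : ℝ)⁻¹ + K * (1 / (n : ℝ) - 1 / ((n : ℝ) + 1))) * ((n : ℝ) * (n + 1)) = ε / 4 * (n + 1) + K := by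
        field_simp
        ring
      rw [e]
      linarith
    refine (sum_le_sum h4).trans ?_
    rw [sum_add_distrib, ← mul_sum, ← mul_sum]
    have h5 : ∑ n ∈ Icc 1 x, (n : ℝ)⁻¹ ≤ 1 + Real.log x := by
      have := harmonic_le_one_add_log x
      rw [harmonic_eq_sum_Icc] at this
      push_cast at this
      exact this
    have h6 : ∑ n ∈ Icc 1 x, (1 / (n : ℝ) - 1 / ((n : ℝ) + 1)) ≤ 1 := by
      have h7 : ∀ y : ℕ, ∑ n ∈ Icc 1 y, (1 / (n : ℝ) - 1 / ((n : ℝ) + 1)) = 1 - 1 / ((y : ℝ) + 1) := by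
        intro y
        induction y with
        | zero => simp
        | succ y ih =>
          rw [Finset.sum_Icc_succ_top (by omega), ih]
          push_cast
          ring
      rw [h7]
      have : 0 ≤ 1 / ((x : ℝ) + 1) := by positivity
      linarith
    have h8 := mul_le_mul_of_nonneg_left h5 (by positivity : 0 ≤ ε / 4)
    have h9 := mul_le_mul_of_nonneg_left h6 hK0
    linarith
  have h4 := abs_add_le ((∑ n ∈ Icc 1 x, c n) / ((x : ℝ) + 1)) (∑ n ∈ Icc 1 x, (∑ m ∈ Icc 1 n, c m) / ((n : ℝ) * (n + 1)))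
  nlinarith

open Classical in
/-- the expansion of a pattern -/
lemma pattern_expand {k : ℕ} (f : ℕ → ℝ) (a b : Fin k → ℕ) (s : Fin k → ℝ) (n : ℕ)
    (hf : ∀ i, f (a i * n + b i) = 1 ∨ f (a i * n + b i) = -1) (hs : ∀ i, s i = 1 ∨ s i = -1) :
    (if ∀ i, f (a i * n + b i) = s i then (1 : ℝ) else 0) - (1 / 2) ^ k =
      ∑ T ∈ (univ : Finset (Fin k)).powerset.filter Finset.Nonempty,
        ((1 / 2) ^ k * ∏ i ∈ T, s i) * ∏ i ∈ T, f (a i * n + b i) := by
  have h1 : (if ∀ i, f (a i * n + b i) = s i then (1 : ℝ) else 0) = ∏ i, ((1 + s i * f (a i * n + b i)) / 2) := by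
    by_cases h2 : ∀ i, f (a i * n + b i) = s i
    · have h3 : ∏ i, ((1 + s i * f (a i * n + b i)) / 2) = 1 := by
        refine prod_eq_one fun i _ => ?_
        rw [h2 i]
        rcases hs i with h4 | h4 <;> rw [h4] <;> norm_num
      rw [if_pos h2, h3]
    · rw [if_neg h2]
      push Not at h2
      obtain ⟨i, hi⟩ := h2
      symm
      refine prod_eq_zero (mem_univ i) ?_
      rcases hs i with h4 | h4 <;> rcases hf i with h5 | h5 <;> rw [h4, h5] at hi ⊢ <;>
        first | exact absurd rfl hi | norm_num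
  have h2 : ∏ i, ((1 + s i * f (a i * n + b i)) / 2) =
      ∑ T ∈ (univ : Finset (Fin k)).powerset, ((1 / 2) ^ k * ∏ i ∈ T, s i) * ∏ i ∈ T, f (a i * n + b i) := by
    rw [prod_div_distrib, prod_one_add, prod_const, card_univ, Fintype.card_fin, sum_div]
    refine sum_congr rfl fun T _ => ?_
    rw [prod_mul_distrib, one_div, inv_pow]
    ring
  rw [h1, h2, ← sum_filter_add_sum_filter_not _ (fun T : Finset (Fin k) => T.Nonempty)]
  have h4 : ((univ : Finset (Fin k)).powerset.filter fun T : Finset (Fin k) => ¬ T.Nonempty) = {∅} := by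
    ext T
    rw [mem_filter, mem_powerset, mem_singleton, not_nonempty_iff_eq_empty]
    exact ⟨fun h => h.2, fun h => ⟨subset_univ _, h⟩⟩
  rw [h4, sum_singleton]
  simp

variable {Ω : Type} [MeasurableSpace Ω] {P : Measure Ω} {X : ℕ → Ω → ℝ}

lemma exp_neg_le {u : ℝ} (h0 : 0 ≤ u) (h1 : u ≤ 1) : Real.exp (-u) ≤ 1 - u / 2 := by
  have h2 := Real.add_one_le_exp u
  rw [Real.exp_neg]
  have h3 : (Real.exp u)⁻¹ ≤ (1 + u)⁻¹ := inv_anti₀ (by linarith) (by linarith)
  refine h3.trans ?_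
  rw [inv_eq_one_div, div_le_iff₀ (by linarith)]
  nlinarith

/-- almost surely the distances to all fixed functions are infinite -/
lemma Signs.dist_div (h : Signs P X) (hD : Tendsto (Dist P X) atTop atTop) {r : ℕ → ℝ} (hr : ∀ p, |r p| ≤ 1) :
    ∀ᵐ ω ∂P, Tendsto (fun x : ℕ => ∑ p ∈ (Icc 1 x).filter Nat.Prime, (1 - X p ω * r p) / p) atTop atTop := by
  have hP := h.prob
  set Y : ℕ → Ω → ℝ := fun x ω => ∑ p ∈ (Icc 1 x).filter Nat.Prime, (1 - X p ω * r p) / p with hY
  have hXr : ∀ p ω, |X p ω * r p| ≤ 1 := fun p ω => by rw [abs_mul, h.abs_val, one_mul]; exact hr p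
  have hterm : ∀ p ω, 0 ≤ (1 - X p ω * r p) / (p : ℝ) := fun p ω =>
    div_nonneg (by linarith [(abs_le.1 (hXr p ω)).2]) (Nat.cast_nonneg p)
  have hmono : ∀ ω, Monotone fun x => Y x ω := by
    intro ω x y hxy
    refine sum_le_sum_of_subset_of_nonneg ?_ fun p _ _ => hterm p ω
    exact filter_subset_filter _ (Icc_subset_Icc le_rfl hxy)
  have hYm : ∀ x, Measurable (Y x) := fun x =>
    Finset.measurable_sum _ fun p _ => ((measurable_const.sub ((h.meas p).mul_const _)).div_const _)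
  have hE : ∀ x, ∫ ω, Real.exp (-Y x ω) ∂P ≤ Real.exp (-(Dist P X x / 2)) := by
    intro x
    set T := (Icc 1 x).filter Nat.Prime with hTdef
    have hT : ∀ p ∈ T, p.Prime := fun p hp => (mem_filter.1 hp).2
    have hinj : Function.Injective (fun p : T => (⟨p, hT p p.2⟩ : Nat.Primes)) := by
      intro p q hpq
      have : (p : ℕ) = q := congrArg (fun u : Nat.Primes => (u : ℕ)) hpq
      exact Subtype.ext this
    have h1 := h.ind.precomp hinj
    have h2 := h1.integral_fun_prod_comp (f := fun (p : T) (y : ℝ) => Real.exp (-((1 - y * r p) / (p : ℕ))))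
      (fun p => (h.meas p).aemeasurable)
      (fun p => (Real.measurable_exp.comp (((measurable_const.sub (measurable_id.mul_const _)).div_const _).neg)).aestronglyMeasurable)
    have e1 : ∀ ω, ∏ p : T, Real.exp (-((1 - X p ω * r p) / (p : ℕ))) = Real.exp (-Y x ω) := by
      intro ω
      rw [prod_coe_sort T fun p => Real.exp (-((1 - X p ω * r p) / (p : ℕ))), ← Real.exp_sum, sum_neg_distrib]
    have e2 : ∫ ω, Real.exp (-Y x ω) ∂P = ∏ p ∈ T, ∫ ω, Real.exp (-((1 - X p ω * r p) / (p : ℕ))) ∂P := by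
      rw [← prod_coe_sort T fun p => ∫ ω, Real.exp (-((1 - X p ω * r p) / (p : ℕ))) ∂P]
      rw [← h2]
      refine integral_congr_ae (Eventually.of_forall fun ω => ?_)
      exact (e1 ω).symm
    rw [e2]
    unfold Dist
    rw [sum_div, ← sum_neg_distrib, Real.exp_sum]
    refine prod_le_prod (fun p _ => integral_nonneg fun ω => (Real.exp_pos _).le) fun p hp => ?_
    have hp2 : (2 : ℝ) ≤ p := by exact_mod_cast (hT p hp).two_le
    have hp0 : (0 : ℝ) < p := by linarith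
    have hXi : Integrable (X p) P := by
      have := h.int_X p 1
      simpa using this
    have h3 : ∫ ω, Real.exp (-((1 - X p ω * r p) / (p : ℕ))) ∂P ≤ ∫ ω, (1 - (1 - X p ω * r p) / (p : ℕ) / 2) ∂P := by
      refine integral_mono_of_nonneg (Eventually.of_forall fun ω => (Real.exp_pos _).le) ?_ (Eventually.of_forall fun ω => ?_)
      · exact (integrable_const 1).sub ((((integrable_const 1).sub (hXi.mul_const _)).div_const _).div_const _)
      · refine exp_neg_le (hterm p ω) ?_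
        rw [div_le_one hp0]
        have := (abs_le.1 (hXr p ω)).1
        linarith
    refine h3.trans ?_
    have h4 : ∫ ω, (1 - (1 - X p ω * r p) / ((p : ℕ) : ℝ) / 2) ∂P = 1 - (1 - (∫ ω, X p ω ∂P) * r p) / ((p : ℕ) : ℝ) / 2 := by
      have hi1 : Integrable (fun ω => 1 - X p ω * r p) P := (integrable_const 1).sub (hXi.mul_const _)
      have hi2 : Integrable (fun ω => (1 - X p ω * r p) / ((p : ℕ) : ℝ) / 2) P := (hi1.div_const _).div_const _
      rw [integral_sub (integrable_const 1) hi2, integral_div, integral_div,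
        integral_sub (integrable_const 1) (hXi.mul_const _), integral_mul_const]
      simp
    rw [h4]
    have h5 : (∫ ω, X p ω ∂P) * r p ≤ |∫ ω, X p ω ∂P| := by
      calc (∫ ω, X p ω ∂P) * r p ≤ |(∫ ω, X p ω ∂P) * r p| := le_abs_self _
        _ = |∫ ω, X p ω ∂P| * |r p| := abs_mul _ _
        _ ≤ |∫ ω, X p ω ∂P| * 1 := mul_le_mul_of_nonneg_left (hr p) (abs_nonneg _)
        _ = _ := mul_one _
    have h6 : dl P X p / p / 2 ≤ (1 - (∫ ω, X p ω ∂P) * r p) / ((p : ℕ) : ℝ) / 2 := by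
      unfold dl
      gcongr
    have h7 := Real.add_one_le_exp (-(dl P X p / (p : ℝ) / 2))
    linarith
  have hnull : ∀ m : ℕ, ∀ᵐ ω ∂P, ∃ x, (m : ℝ) < Y x ω := by
    intro m
    rw [ae_iff]
    have hle : ∀ x, P.real {ω | ¬ ∃ x, (m : ℝ) < Y x ω} ≤ Real.exp m * Real.exp (-(Dist P X x / 2)) := by
      intro x
      have h3 := mul_meas_ge_le_integral_of_nonneg (μ := P) (f := fun ω => Real.exp (-Y x ω))
        (Eventually.of_forall fun ω => (Real.exp_pos _).le)
        (Integrable.of_bound (Real.measurable_exp.comp (hYm x).neg).aestronglyMeasurable 1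
          (Eventually.of_forall fun ω => by
            rw [Real.norm_eq_abs, abs_of_pos (Real.exp_pos _), Real.exp_le_one_iff, neg_nonpos]
            exact sum_nonneg fun p _ => hterm p ω)) (Real.exp (-(m : ℝ)))
      have h4 : P.real {ω | ¬ ∃ x, (m : ℝ) < Y x ω} ≤ P.real {ω | Real.exp (-(m : ℝ)) ≤ Real.exp (-Y x ω)} := by
        refine measureReal_mono ?_ (measure_ne_top P _)
        intro ω hω
        have h5 : ¬ ∃ x, (m : ℝ) < Y x ω := hω
        push Not at h5
        exact Real.exp_le_exp.2 (neg_le_neg (h5 x))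
      have h5 := (mul_le_mul_of_nonneg_left h4 (Real.exp_pos (-(m : ℝ))).le).trans (h3.trans (hE x))
      have h6 : Real.exp (m : ℝ) * Real.exp (-(m : ℝ)) = 1 := by rw [← Real.exp_add]; simp
      calc P.real {ω | ¬ ∃ x, (m : ℝ) < Y x ω} = Real.exp m * (Real.exp (-(m : ℝ)) * P.real {ω | ¬ ∃ x, (m : ℝ) < Y x ω}) := by
            rw [← mul_assoc, h6, one_mul]
        _ ≤ _ := mul_le_mul_of_nonneg_left h5 (Real.exp_pos _).le
    have ht : Tendsto (fun x : ℕ => Real.exp m * Real.exp (-(Dist P X x / 2))) atTop (𝓝 (Real.exp m * 0)) := by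
      refine Tendsto.const_mul _ (Real.tendsto_exp_atBot.comp (tendsto_neg_atTop_atBot.comp ?_))
      exact hD.atTop_div_const (by norm_num)
    rw [mul_zero] at ht
    have h0 : P.real {ω | ¬ ∃ x, (m : ℝ) < Y x ω} ≤ 0 := ge_of_tendsto' ht hle
    have h1 : P.real {ω | ¬ ∃ x, (m : ℝ) < Y x ω} = 0 := le_antisymm h0 measureReal_nonneg
    exact (measureReal_eq_zero_iff (measure_ne_top P _)).1 h1
  rw [← ae_all_iff] at hnull
  filter_upwards [hnull] with ω hω
  refine tendsto_atTop_atTop_of_monotone (hmono ω) fun t => ?_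
  obtain ⟨m, hm⟩ := exists_nat_gt t
  obtain ⟨x, hx⟩ := hω m
  exact ⟨x, hm.le.trans hx.le⟩

lemma Signs.abs_FF_eq (h : Signs P X) (ω : Ω) {n : ℕ} (hn : n ≠ 0) : FF X ω n = 1 ∨ FF X ω n = -1 := by
  unfold FF
  rw [if_neg hn]
  unfold Finsupp.prod
  refine prod_induction _ (fun y : ℝ => y = 1 ∨ y = -1) ?_ (Or.inl rfl) ?_
  · rintro y z (h1 | h1) (h2 | h2) <;> rw [h1, h2] <;> norm_num
  · intro p _
    rcases h.val p ω with h1 | h1
    · left
      show X p ω ^ _ = 1
      rw [h1, one_pow]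
    · show X p ω ^ _ = 1 ∨ X p ω ^ _ = -1
      rw [h1]
      exact neg_one_pow_eq_or ℝ _

open Classical in
/-- sign patterns of `g f`, `f` random, along a fixed weight -/
theorem Signs.pattern_nul (h : Signs P X)
    (hD : Tendsto (fun y : ℕ => Dist P X y - Dist P X ⌊Real.log (Real.log y) ^ 4⌋₊) atTop atTop)
    {g : ℕ → ℝ} (hg : ∀ n, 1 ≤ n → g n = 1 ∨ g n = -1) {w : ℕ → ℝ} (hw : ∀ n, |w n| ≤ 1)
    {k : ℕ} {a b : Fin k → ℕ} (ha : ∀ i, 1 ≤ a i) (hab : ∀ i j, i ≠ j → a i * b j ≠ a j * b i) :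
    ∀ᵐ ω ∂P, ∀ s : Fin k → ℝ, (∀ i, s i = 1 ∨ s i = -1) →
      Nul fun n => w n * ((if ∀ i, g (a i * n + b i) * FF X ω (a i * n + b i) = s i then (1 : ℝ) else 0) - (1 / 2) ^ k) := by
  have key : ∀ T : Finset (Fin k), ∀ᵐ ω ∂P, T.Nonempty →
      Nul fun n => w n * ∏ i ∈ T, (g (a i * n + b i) * FF X ω (a i * n + b i)) := by
    intro T
    by_cases hT : T.Nonempty
    · have hc : ∀ n, |if n = 0 then (0 : ℝ) else w n * ∏ i ∈ T, g (a i * n + b i)| ≤ 1 := by
        intro n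
        split_ifs with hn
        · simp
        · rw [abs_mul, abs_prod]
          refine mul_le_one₀ (hw n) (prod_nonneg fun i _ => abs_nonneg _) (prod_le_one (fun i _ => abs_nonneg _) fun i _ => ?_)
          have h1 : 1 * 1 ≤ a i * n := Nat.mul_le_mul (ha i) (Nat.one_le_iff_ne_zero.2 hn)
          rcases hg (a i * n + b i) (by omega) with h2 | h2 <;> rw [h2] <;> simp
      filter_upwards [h.as_lin0 hD hc ha hab hT] with ω hω _ ε hε
      obtain ⟨x0, hx0⟩ := hω ε hε
      refine ⟨x0, fun x hx => ?_⟩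
      have h1 := hx0 x hx
      have e : Cor X (fun n => if n = 0 then (0 : ℝ) else w n * ∏ i ∈ T, g (a i * n + b i)) a b T ω x =
          ∑ n ∈ Icc 1 x, w n * ∏ i ∈ T, (g (a i * n + b i) * FF X ω (a i * n + b i)) := by
        unfold Cor
        have hI : Ioc 0 x = Icc 1 x := by
          ext n
          rw [mem_Ioc, mem_Icc]
          omega
        rw [hI]
        refine sum_congr rfl fun n hn => ?_
        rw [mem_Icc] at hn
        have hn0 : n ≠ 0 := by omega
        simp only [if_neg hn0, prod_mul_distrib]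
        ring
      rwa [e] at h1
    · exact Eventually.of_forall fun ω h => absurd h hT
  rw [← ae_all_iff] at key
  filter_upwards [key] with ω hω s hs
  have h1 : Nul fun n => ∑ T ∈ (univ : Finset (Fin k)).powerset.filter Finset.Nonempty,
      ((1 / 2) ^ k * ∏ i ∈ T, s i) * (w n * ∏ i ∈ T, (g (a i * n + b i) * FF X ω (a i * n + b i))) :=
    Nul.sum _ fun T hT => (hω T (mem_filter.1 hT).2).mul _
  intro ε hε
  obtain ⟨x0, hx0⟩ := h1 ε hε
  refine ⟨x0, fun x hx => ?_⟩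
  have h2 := hx0 x hx
  have e : ∑ n ∈ Icc 1 x, w n * ((if ∀ i, g (a i * n + b i) * FF X ω (a i * n + b i) = s i then (1 : ℝ) else 0) - (1 / 2) ^ k) =
      ∑ n ∈ Icc 1 x, ∑ T ∈ (univ : Finset (Fin k)).powerset.filter Finset.Nonempty,
        ((1 / 2) ^ k * ∏ i ∈ T, s i) * (w n * ∏ i ∈ T, (g (a i * n + b i) * FF X ω (a i * n + b i))) := by
    refine sum_congr rfl fun n hn => ?_
    rw [mem_Icc] at hn
    have hf : ∀ i, g (a i * n + b i) * FF X ω (a i * n + b i) = 1 ∨ g (a i * n + b i) * FF X ω (a i * n + b i) = -1 := by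
      intro i
      have h3 : 1 * 1 ≤ a i * n := Nat.mul_le_mul (ha i) hn.1
      rcases hg (a i * n + b i) (by omega) with h4 | h4 <;>
        rcases h.abs_FF_eq ω (by omega : a i * n + b i ≠ 0) with h5 | h5 <;> rw [h4, h5] <;> norm_num
    rw [pattern_expand (fun m => g m * FF X ω m) a b s n hf hs, mul_sum]
    exact sum_congr rfl fun T _ => by ring
  rwa [e]

end Pool.Agent.L5helper2.CH
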