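import Mathlib

/-! Chowla's conjecture for random signs (helper2): sums of periodic functions over boxes. -/

set_option autoImplicit false

namespace Pool.Agent.L5helper2.CH

open Finset

/-- the box of the residue vectors -/
def Bx (J M : ℕ) : Finset (Fin J → ℕ) := Fintype.piFinset fun _ => range M

lemma mem_Bx {J M : ℕ} {n : Fin J → ℕ} : n ∈ Bx J M ↔ ∀ j, n j < M := by
  unfold Bx
  simp [Fintype.mem_piFinset]

lemma card_Bx (J M : ℕ) : #(Bx J M) = M ^ J := by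
  unfold Bx
  rw [Fintype.card_piFinset]
  simp

lemma crt_sum {J M1 M2 : ℕ} (h1 : 0 < M1) (h2 : 0 < M2) (hco : M1.Coprime M2) (f g : (Fin J → ℕ) → ℝ)
    (hf : ∀ n, f n = f fun j => n j % M1) (hg : ∀ n, g n = g fun j => n j % M2) :
    ∑ n ∈ Bx J (M1 * M2), f n * g n = (∑ n ∈ Bx J M1, f n) * ∑ n ∈ Bx J M2, g n := by
  rw [sum_mul_sum, ← sum_product']
  refine sum_nbij' (fun n => (fun j => n j % M1, fun j => n j % M2))
    (fun y => fun j => (Nat.chineseRemainder hco (y.1 j) (y.2 j) : ℕ)) ?_ ?_ ?_ ?_ ?_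
  · intro n _
    rw [mem_product, mem_Bx, mem_Bx]
    exact ⟨fun j => Nat.mod_lt _ h1, fun j => Nat.mod_lt _ h2⟩
  · intro y _
    rw [mem_Bx]
    exact fun j => Nat.chineseRemainder_lt_mul hco _ _ h1.ne' h2.ne'
  · intro n hn
    rw [mem_Bx] at hn
    funext j
    have h3 : (Nat.chineseRemainder hco (n j % M1) (n j % M2) : ℕ) ≡ n j [MOD M1 * M2] := by
      rw [← Nat.modEq_and_modEq_iff_modEq_mul hco]
      constructor
      · exact (Nat.chineseRemainder hco (n j % M1) (n j % M2)).2.1.trans (Nat.mod_modEq _ _)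
      · exact (Nat.chineseRemainder hco (n j % M1) (n j % M2)).2.2.trans (Nat.mod_modEq _ _)
    exact Nat.ModEq.eq_of_lt_of_lt h3 (Nat.chineseRemainder_lt_mul hco _ _ h1.ne' h2.ne') (hn j)
  · intro y hy
    rw [mem_product, mem_Bx, mem_Bx] at hy
    ext j
    · show (Nat.chineseRemainder hco (y.1 j) (y.2 j) : ℕ) % M1 = y.1 j
      rw [(Nat.chineseRemainder hco (y.1 j) (y.2 j)).2.1, Nat.mod_eq_of_lt (hy.1 j)]
    · show (Nat.chineseRemainder hco (y.1 j) (y.2 j) : ℕ) % M2 = y.2 j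
      rw [(Nat.chineseRemainder hco (y.1 j) (y.2 j)).2.2, Nat.mod_eq_of_lt (hy.2 j)]
  · intro n _
    rw [hf n, hg n]

lemma mod_mod_dvd' {M m n : ℕ} (h : m ∣ M) : n % M % m = n % m := Nat.mod_mod_of_dvd n h

lemma crt_prod {J : ℕ} (D : Finset ℕ) (m : ℕ → ℕ) (h : ℕ → (Fin J → ℕ) → ℝ)
    (hper : ∀ p ∈ D, ∀ n, h p n = h p fun j => n j % m p) : (∀ p ∈ D, 0 < m p) →
    (∀ p ∈ D, ∀ q ∈ D, p ≠ q → (m p).Coprime (m q)) →
    ∑ n ∈ Bx J (∏ p ∈ D, m p), ∏ p ∈ D, h p n = ∏ p ∈ D, ∑ n ∈ Bx J (m p), h p n := by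
  classical
  induction D using Finset.induction_on with
  | empty =>
    intro _ _
    rw [prod_empty, prod_empty]
    simp only [prod_empty, sum_const, card_Bx]
    simp
  | insert q D hq ih =>
    intro hm hco
    have hper' : ∀ p ∈ D, ∀ n, h p n = h p fun j => n j % m p := fun p hp => hper p (mem_insert_of_mem hp)
    have ih' := ih hper' (fun p hp => hm p (mem_insert_of_mem hp))
      (fun p hp r hr => hco p (mem_insert_of_mem hp) r (mem_insert_of_mem hr))
    rw [prod_insert hq, prod_insert hq, ← ih']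
    have e : ∀ n : Fin J → ℕ, ∏ p ∈ insert q D, h p n = h q n * ∏ p ∈ D, h p n := fun n => prod_insert hq
    simp_rw [e]
    refine crt_sum (hm q (mem_insert_self q D)) (prod_pos fun p hp => hm p (mem_insert_of_mem hp)) ?_ _ _
      (hper q (mem_insert_self q D)) ?_
    · refine Nat.Coprime.prod_right fun p hp => ?_
      exact hco q (mem_insert_self q D) p (mem_insert_of_mem hp) fun h => hq (h ▸ hp)
    · intro n
      refine prod_congr rfl fun p hp => ?_
      rw [hper' p hp n, hper' p hp fun j => n j % ∏ p ∈ D, m p]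
      congr 1
      funext j
      exact (mod_mod_dvd' (dvd_prod_of_mem m hp)).symm

/-- the number of the integers in `(0, x]` in a residue class -/
lemma class_count {x M r : ℕ} (hM : 0 < M) (hr : r < M) :
    |(#((Ioc 0 x).filter fun n => n % M = r) : ℝ) - (x : ℝ) / M| ≤ 1 := by
  have h1 : (Ioc 0 x).filter (fun n => n % M = r) = (Ioc 0 x).filter (fun n => n ≡ r [MOD M]) := by
    refine filter_congr fun n _ => ?_
    unfold Nat.ModEq
    rw [Nat.mod_eq_of_lt hr]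
  rw [h1]
  have h2 := Nat.Ioc_filter_modEq_card (0 : ℕ) x (r := M) hM r
  have hM' : (0 : ℚ) < M := by exact_mod_cast hM
  have h3 : (⌊((0 : ℕ) - (r : ℕ) : ℚ) / (M : ℚ)⌋ : ℤ) ≤ ⌊((x : ℕ) - (r : ℕ) : ℚ) / (M : ℚ)⌋ := by
    refine Int.floor_le_floor ?_
    refine div_le_div_of_nonneg_right ?_ hM'.le
    push_cast
    have : (0 : ℚ) ≤ x := Nat.cast_nonneg x
    linarith
  rw [max_eq_left (by linarith)] at h2
  have h4 : (#((Ioc 0 x).filter fun n => n ≡ r [MOD M]) : ℚ) =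
      (⌊((x : ℕ) - (r : ℕ) : ℚ) / (M : ℚ)⌋ : ℚ) - (⌊((0 : ℕ) - (r : ℕ) : ℚ) / (M : ℚ)⌋ : ℚ) := by
    exact_mod_cast h2
  have f1 := Int.floor_le (((x : ℕ) - (r : ℕ) : ℚ) / (M : ℚ))
  have f2 := Int.lt_floor_add_one (((x : ℕ) - (r : ℕ) : ℚ) / (M : ℚ))
  have f3 := Int.floor_le (((0 : ℕ) - (r : ℕ) : ℚ) / (M : ℚ))
  have f4 := Int.lt_floor_add_one (((0 : ℕ) - (r : ℕ) : ℚ) / (M : ℚ))
  have e : ((x : ℕ) - (r : ℕ) : ℚ) / (M : ℚ) - ((0 : ℕ) - (r : ℕ) : ℚ) / (M : ℚ) = (x : ℚ) / M := by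
    push_cast
    ring
  have h5 : |(#((Ioc 0 x).filter fun n => n ≡ r [MOD M]) : ℚ) - (x : ℚ) / M| ≤ 1 := by
    rw [h4, abs_le]
    constructor <;> linarith
  have h6 : ((|(#((Ioc 0 x).filter fun n => n ≡ r [MOD M]) : ℚ) - (x : ℚ) / M| : ℚ) : ℝ) ≤ ((1 : ℚ) : ℝ) := by
    exact_mod_cast h5
  push_cast at h6
  exact h6

lemma prod_near {J : ℕ} (a : Fin J → ℝ) (b : ℝ) (hb : 0 ≤ b) (ha0 : ∀ j, 0 ≤ a j) (ha : ∀ j, |a j - b| ≤ 1) :
    |∏ j, a j - b ^ J| ≤ (b + 1) ^ J - b ^ J := by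
  induction J with
  | zero => simp
  | succ J ih =>
    rw [Fin.prod_univ_succ]
    have h1 := ih (fun j => a j.succ) (fun j => ha0 _) (fun j => ha _)
    have h2 : |a 0| ≤ b + 1 := by
      rw [abs_of_nonneg (ha0 0)]
      have := (abs_le.1 (ha 0)).2
      linarith
    have e : a 0 * ∏ j : Fin J, a j.succ - b ^ (J + 1) = a 0 * (∏ j : Fin J, a j.succ - b ^ J) + (a 0 - b) * b ^ J := by
      ring
    rw [e]
    calc _ ≤ |a 0 * (∏ j : Fin J, a j.succ - b ^ J)| + |(a 0 - b) * b ^ J| := abs_add_le _ _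
      _ ≤ (b + 1) * ((b + 1) ^ J - b ^ J) + 1 * b ^ J := by
          rw [abs_mul, abs_mul, abs_of_nonneg (by positivity : (0 : ℝ) ≤ b ^ J)]
          refine add_le_add (mul_le_mul h2 h1 (abs_nonneg _) (by linarith)) ?_
          exact mul_le_mul_of_nonneg_right (ha 0) (by positivity)
      _ = _ := by ring

/-- sums of periodic functions over long boxes -/
lemma box_count {J x M : ℕ} (hM : 0 < M) (h : (Fin J → ℕ) → ℝ) (h0 : ∀ n, |h n| ≤ 1)
    (hper : ∀ n, h n = h fun j => n j % M) :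
    |∑ n ∈ Fintype.piFinset (fun _ : Fin J => Ioc 0 x), h n - (x : ℝ) ^ J * ((∑ n ∈ Bx J M, h n) / (M : ℝ) ^ J)| ≤
      ((x : ℝ) + M) ^ J - (x : ℝ) ^ J := by
  classical
  have hM' : (0 : ℝ) < M := by exact_mod_cast hM
  have h1 : ∑ n ∈ Fintype.piFinset (fun _ : Fin J => Ioc 0 x), h n =
      ∑ c ∈ Bx J M, h c * ∏ j, (#((Ioc 0 x).filter fun n => n % M = c j) : ℝ) := by
    have h2 : ∀ n ∈ Fintype.piFinset (fun _ : Fin J => Ioc 0 x), (fun j => n j % M) ∈ Bx J M := by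
      intro n _
      rw [mem_Bx]
      exact fun j => Nat.mod_lt _ hM
    rw [← sum_fiberwise_of_maps_to h2]
    refine sum_congr rfl fun c hc => ?_
    have h3 : (Fintype.piFinset (fun _ : Fin J => Ioc 0 x)).filter (fun n => (fun j => n j % M) = c) =
        Fintype.piFinset fun j : Fin J => (Ioc 0 x).filter fun n => n % M = c j := by
      ext n
      simp only [mem_filter, Fintype.mem_piFinset]
      constructor
      · rintro ⟨a1, a2⟩ j
        exact ⟨a1 j, by rw [← a2]⟩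
      · intro a
        exact ⟨fun j => (a j).1, funext fun j => (a j).2⟩
    rw [h3]
    have h4 : ∀ n ∈ Fintype.piFinset (fun j : Fin J => (Ioc 0 x).filter fun n => n % M = c j), h n = h c := by
      intro n hn
      rw [Fintype.mem_piFinset] at hn
      rw [hper n]
      congr 1
      funext j
      exact (mem_filter.1 (hn j)).2
    rw [sum_congr rfl h4, sum_const, Fintype.card_piFinset, nsmul_eq_mul]
    push_cast
    ring
  rw [h1, sum_div, mul_sum, ← sum_sub_distrib]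
  have h5 : ∀ c ∈ Bx J M, |h c * ∏ j, (#((Ioc 0 x).filter fun n => n % M = c j) : ℝ) -
      (x : ℝ) ^ J * (h c / (M : ℝ) ^ J)| ≤ ((x : ℝ) / M + 1) ^ J - ((x : ℝ) / M) ^ J := by
    intro c hc
    rw [mem_Bx] at hc
    have e : h c * ∏ j, (#((Ioc 0 x).filter fun n => n % M = c j) : ℝ) - (x : ℝ) ^ J * (h c / (M : ℝ) ^ J) =
        h c * (∏ j, (#((Ioc 0 x).filter fun n => n % M = c j) : ℝ) - ((x : ℝ) / M) ^ J) := by
      rw [div_pow]
      ring
    rw [e, abs_mul]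
    calc _ ≤ 1 * |∏ j, (#((Ioc 0 x).filter fun n => n % M = c j) : ℝ) - ((x : ℝ) / M) ^ J| :=
          mul_le_mul_of_nonneg_right (h0 c) (abs_nonneg _)
      _ ≤ _ := by
          rw [one_mul]
          exact prod_near _ _ (by positivity) (fun j => Nat.cast_nonneg _) fun j => class_count hM (hc j)
  refine (abs_sum_le_sum_abs _ _).trans ((sum_le_sum h5).trans (le_of_eq ?_))
  rw [sum_const, card_Bx, nsmul_eq_mul]
  push_cast
  rw [mul_sub, ← mul_pow, ← mul_pow]
  congr 2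
  · field_simp
  · field_simp

end Pool.Agent.L5helper2.CH
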