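import Pool.Agent.L5helper2.CH.B1
import Pool.Agent.L5helper2.CH.B2

/-! Chowla's conjecture for random signs (helper2): random completely multiplicative functions. -/

set_option autoImplicit false

namespace Pool.Agent.L5helper2.CH

open Finset MeasureTheory ProbabilityTheory

variable {Ω : Type} [MeasurableSpace Ω] {P : Measure Ω} {X : ℕ → Ω → ℝ}

/-- independent random signs -/
structure Signs (P : Measure Ω) (X : ℕ → Ω → ℝ) : Prop where
  prob : IsProbabilityMeasure P
  meas : ∀ p, Measurable (X p)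
  ind : iIndepFun (fun p : Nat.Primes => X p) P
  val : ∀ p ω, X p ω = 1 ∨ X p ω = -1

/-- the completely multiplicative function with the values `X p` at the primes -/
noncomputable def FF (X : ℕ → Ω → ℝ) (ω : Ω) (n : ℕ) : ℝ :=
  if n = 0 then 0 else n.factorization.prod fun p v => X p ω ^ v

/-- the distance of the law of `X p` from a deterministic sign -/
noncomputable def dl (P : Measure Ω) (X : ℕ → Ω → ℝ) (p : ℕ) : ℝ := 1 - |∫ ω, X p ω ∂P|

/-- `p` divides `m` exactly once -/
noncomputable def hh (p : ℕ) (m : ℤ) : ℝ := if (p : ℤ) ∣ m ∧ ¬ (p : ℤ) ^ 2 ∣ m then 1 else 0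

lemma hh_nonneg (p : ℕ) (m : ℤ) : 0 ≤ hh p m := by
  unfold hh
  split_ifs <;> norm_num

lemma hh_le (p : ℕ) (m : ℤ) : hh p m ≤ 1 := by
  unfold hh
  split_ifs <;> norm_num

lemma FF_mul (ω : Ω) (m n : ℕ) : FF X ω (m * n) = FF X ω m * FF X ω n := by
  unfold FF
  by_cases hm : m = 0
  · simp [hm]
  by_cases hn : n = 0
  · simp [hn]
  rw [if_neg (mul_ne_zero hm hn), if_neg hm, if_neg hn, Nat.factorization_mul hm hn,
    Finsupp.prod_add_index' (fun _ => pow_zero _) (fun _ _ _ => pow_add _ _ _)]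

lemma FF_prod (ω : Ω) {ι : Type*} (s : Finset ι) (n : ι → ℕ) : FF X ω (∏ i ∈ s, n i) = ∏ i ∈ s, FF X ω (n i) := by
  classical
  induction s using Finset.induction_on with
  | empty => simp [FF]
  | insert i s hi ih => rw [prod_insert hi, prod_insert hi, FF_mul, ih]

lemma Signs.abs_val (h : Signs P X) (p : ℕ) (ω : Ω) : |X p ω| = 1 := by
  rcases h.val p ω with h | h <;> rw [h] <;> simp

lemma Signs.abs_FF (h : Signs P X) (ω : Ω) (n : ℕ) : |FF X ω n| ≤ 1 := by
  unfold FF
  split_ifs
  · simp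
  · unfold Finsupp.prod
    rw [abs_prod]
    refine prod_le_one (fun p _ => abs_nonneg _) fun p _ => ?_
    rw [abs_pow, h.abs_val, one_pow]

lemma Signs.meas_FF (h : Signs P X) (n : ℕ) : Measurable fun ω => FF X ω n := by
  unfold FF
  split_ifs
  · exact measurable_const
  · unfold Finsupp.prod
    exact Finset.measurable_prod _ fun p _ => (h.meas p).pow_const _

lemma Signs.int_X (h : Signs P X) (p v : ℕ) : Integrable (fun ω => X p ω ^ v) P := by
  have hP := h.prob
  refine Integrable.of_bound ((h.meas p).pow_const v).aestronglyMeasurable 1 (Filter.Eventually.of_forall fun ω => ?_)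
  rw [Real.norm_eq_abs, abs_pow, h.abs_val, one_pow]

lemma Signs.abs_int_pow (h : Signs P X) (p v : ℕ) : |∫ ω, X p ω ^ v ∂P| ≤ 1 := by
  have hP := h.prob
  calc |∫ ω, X p ω ^ v ∂P| ≤ ∫ ω, |X p ω ^ v| ∂P := abs_integral_le_integral_abs
    _ = ∫ _, (1 : ℝ) ∂P := by
        refine integral_congr_ae (Filter.Eventually.of_forall fun ω => ?_)
        simp only [abs_pow, h.abs_val, one_pow]
    _ = 1 := by simp

lemma Signs.dl_nonneg (h : Signs P X) (p : ℕ) : 0 ≤ dl P X p := by
  have := h.abs_int_pow p 1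
  simp only [pow_one] at this
  unfold dl
  linarith

lemma Signs.dl_le (h : Signs P X) (p : ℕ) : dl P X p ≤ 1 := by
  unfold dl
  linarith [abs_nonneg (∫ ω, X p ω ∂P)]

lemma Signs.int_prod (h : Signs P X) {T : Finset ℕ} (hT : ∀ p ∈ T, p.Prime) (v : ℕ → ℕ) :
    ∫ ω, ∏ p ∈ T, X p ω ^ v p ∂P = ∏ p ∈ T, ∫ ω, X p ω ^ v p ∂P := by
  have hP := h.prob
  have hinj : Function.Injective (fun p : T => (⟨p, hT p p.2⟩ : Nat.Primes)) := by
    intro p q hpq
    have : (p : ℕ) = q := congrArg (fun u : Nat.Primes => (u : ℕ)) hpq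
    exact Subtype.ext this
  have h1 := h.ind.precomp hinj
  have h2 := h1.integral_fun_prod_comp (f := fun (p : T) (y : ℝ) => y ^ v p) (fun p => (h.meas p).aemeasurable)
    (fun p => (measurable_id.pow_const (v p)).aestronglyMeasurable)
  have e1 : ∀ ω, ∏ p : T, X p ω ^ v p = ∏ p ∈ T, X p ω ^ v p := fun ω => prod_coe_sort T fun p => X p ω ^ v p
  simp only [e1] at h2
  rw [h2]
  exact prod_coe_sort T fun p => ∫ ω, X p ω ^ v p ∂P

/-- the mean value of `f(m)` -/
lemma Signs.mean_le (h : Signs P X) {S : Finset ℕ} (hS : ∀ p ∈ S, p.Prime) (m : ℤ) :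
    |∫ ω, FF X ω m.natAbs ∂P| ≤ ∏ p ∈ S, (1 - dl P X p * hh p m) := by
  have hP := h.prob
  have hnn : ∀ p, 0 ≤ 1 - dl P X p * hh p m := by
    intro p
    have h1 := h.dl_le p
    have h2 := hh_le p m
    have h3 := h.dl_nonneg p
    have h4 := hh_nonneg p m
    nlinarith
  by_cases hm : m = 0
  · subst hm
    have e : ∀ ω, FF X ω (0 : ℤ).natAbs = 0 := fun ω => by simp [FF]
    simp only [e, integral_zero, abs_zero]
    exact prod_nonneg fun p _ => hnn p
  have hm' : m.natAbs ≠ 0 := Int.natAbs_ne_zero.2 hm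
  have e : ∀ ω, FF X ω m.natAbs = ∏ p ∈ m.natAbs.primeFactors, X p ω ^ m.natAbs.factorization p := by
    intro ω
    unfold FF
    rw [if_neg hm']
    rfl
  simp only [e]
  rw [h.int_prod (fun p hp => Nat.prime_of_mem_primeFactors hp), abs_prod]
  have hU : ∀ p ∈ m.natAbs.primeFactors, |∫ ω, X p ω ^ m.natAbs.factorization p ∂P| ≤
      (if p ∈ S then 1 - dl P X p * hh p m else 1) := by
    intro p hp
    split_ifs with h1
    · unfold hh
      split_ifs with h2
      · have hpp := Nat.prime_of_mem_primeFactors hp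
        have h3 : m.natAbs.factorization p = 1 := by
          have h4 : p ∣ m.natAbs := Nat.dvd_of_mem_primeFactors hp
          have h5 : ¬ p ^ 2 ∣ m.natAbs := by
            intro h6
            apply h2.2
            rw [← Int.natCast_dvd] at h6
            exact_mod_cast h6
          have h7 : 1 ≤ m.natAbs.factorization p := (hpp.dvd_iff_one_le_factorization hm').1 h4
          have h8 : ¬ 2 ≤ m.natAbs.factorization p := fun h9 => h5 ((hpp.pow_dvd_iff_le_factorization hm').2 h9)
          omega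
        rw [h3]
        simp only [pow_one, mul_one]
        unfold dl
        linarith
      · rw [mul_zero, sub_zero]
        exact h.abs_int_pow _ _
    · exact h.abs_int_pow _ _
  refine (prod_le_prod (fun p _ => abs_nonneg _) hU).trans ?_
  rw [prod_ite, prod_const_one, mul_one]
  have hsub : m.natAbs.primeFactors.filter (fun p => p ∈ S) ⊆ S := fun p hp => (mem_filter.1 hp).2
  rw [← prod_sdiff hsub]
  have h1 : ∏ p ∈ S \ m.natAbs.primeFactors.filter (fun p => p ∈ S), (1 - dl P X p * hh p m) = 1 := by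
    refine prod_eq_one fun p hp => ?_
    rw [mem_sdiff, mem_filter] at hp
    have h2 : ¬ (p : ℤ) ∣ m := by
      intro h3
      apply hp.2
      refine ⟨?_, hp.1⟩
      rw [Nat.mem_primeFactors]
      exact ⟨hS p hp.1, Int.natCast_dvd.1 h3, hm'⟩
    unfold hh
    rw [if_neg fun h3 => h2 h3.1, mul_zero, sub_zero]
  rw [h1, one_mul]

/-- the values of the sum -/
noncomputable def SS (X : ℕ → Ω → ℝ) (c : ℕ → ℝ) (q : ℕ → ℤ) (ω : Ω) (x : ℕ) : ℝ :=
  ∑ n ∈ Ioc 0 x, c n * FF X ω (q n).natAbs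

lemma Signs.meas_SS (h : Signs P X) (c : ℕ → ℝ) (q : ℕ → ℤ) (x : ℕ) : Measurable fun ω => SS X c q ω x := by
  unfold SS
  exact Finset.measurable_sum _ fun n _ => (h.meas_FF _).const_mul _

/-- the moments -/
lemma Signs.moment (h : Signs P X) {c : ℕ → ℝ} (hc : ∀ n, |c n| ≤ 1) (q : ℕ → ℤ) {S : Finset ℕ}
    (hS : ∀ p ∈ S, p.Prime) (x J : ℕ) :
    |∫ ω, SS X c q ω x ^ J ∂P| ≤
      ∑ n ∈ Fintype.piFinset (fun _ : Fin J => Ioc 0 x), ∏ p ∈ S, (1 - dl P X p * hh p (∏ j, q (n j))) := by
  have hP := h.prob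
  have e1 : ∀ ω, SS X c q ω x ^ J = ∑ n ∈ Fintype.piFinset (fun _ : Fin J => Ioc 0 x),
      (∏ j, c (n j)) * FF X ω (∏ j, q (n j)).natAbs := by
    intro ω
    have e2 : SS X c q ω x ^ J = ∏ _j : Fin J, SS X c q ω x := by simp
    rw [e2]
    unfold SS
    rw [prod_univ_sum]
    refine sum_congr rfl fun n _ => ?_
    rw [prod_mul_distrib]
    congr 1
    rw [← FF_prod]
    congr 1
    exact (map_prod Int.natAbsHom _ _).symm
  simp only [e1]
  rw [integral_finset_sum]
  · refine (abs_sum_le_sum_abs _ _).trans (sum_le_sum fun n _ => ?_)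
    rw [integral_const_mul, abs_mul]
    have h1 : |∏ j, c (n j)| ≤ 1 := by
      rw [abs_prod]
      exact prod_le_one (fun _ _ => abs_nonneg _) fun _ _ => hc _
    calc _ ≤ 1 * |∫ ω, FF X ω (∏ j, q (n j)).natAbs ∂P| := mul_le_mul_of_nonneg_right h1 (abs_nonneg _)
      _ ≤ _ := by
          rw [one_mul]
          exact h.mean_le hS _
  · intro n _
    refine Integrable.const_mul ?_ _
    refine Integrable.of_bound (h.meas_FF _).aestronglyMeasurable 1 (Filter.Eventually.of_forall fun ω => ?_)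
    rw [Real.norm_eq_abs]
    exact h.abs_FF ω _

end Pool.Agent.L5helper2.CH
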