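import Pool.Agent.L5helper2.CH.B3

/-! Chowla's conjecture for random signs (helper2): local densities. -/

set_option autoImplicit false

namespace Pool.Agent.L5helper2.CH

open Finset

/-- the number of roots modulo `p` -/
def rr (q : ℕ → ℤ) (p : ℕ) : ℕ := #((range p).filter fun c : ℕ => (p : ℤ) ∣ q c)

/-- polynomial-like sequences -/
structure Good (q : ℕ → ℤ) (P0 d : ℕ) : Prop where
  per : ∀ m n : ℕ, (m : ℤ) ∣ q n - q (n % m)
  lift : ∀ p : ℕ, p.Prime → P0 < p → ∀ b c : ℕ, (p : ℤ) ∣ (b : ℤ) - c → (p : ℤ) ^ 2 ∣ q b → (p : ℤ) ^ 2 ∣ q c →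
    (p : ℤ) ^ 2 ∣ (b : ℤ) - c
  root : ∀ p : ℕ, p.Prime → P0 < p → rr q p ≤ d

/-- the local density -/
noncomputable def gg (q : ℕ → ℤ) (J p : ℕ) : ℝ :=
  (∑ n ∈ Bx J (p ^ 2), hh p (∏ j, q (n j))) / ((p ^ 2 : ℕ) : ℝ) ^ J

variable {q : ℕ → ℤ} {P0 d : ℕ}

lemma rr_le (q : ℕ → ℤ) (p : ℕ) : rr q p ≤ p := by
  unfold rr
  calc _ ≤ #(range p) := card_filter_le _ _
    _ = p := card_range p

lemma Good.dvd_iff (h : Good q P0 d) (m n : ℕ) : (m : ℤ) ∣ q n ↔ (m : ℤ) ∣ q (n % m) := by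
  have h1 := h.per m n
  constructor
  · intro h2
    have : q (n % m) = q n - (q n - q (n % m)) := by ring
    rw [this]
    exact dvd_sub h2 h1
  · intro h2
    have : q n = q (n % m) + (q n - q (n % m)) := by ring
    rw [this]
    exact dvd_add h2 h1

lemma Good.V2 (h : Good q P0 d) {p : ℕ} (hp : 0 < p) :
    #((range (p ^ 2)).filter fun c : ℕ => (p : ℤ) ∣ q c) = p * rr q p := by
  unfold rr
  have h1 : #((range (p ^ 2)).filter fun c : ℕ => (p : ℤ) ∣ q c) =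
      #(range p ×ˢ (range p).filter fun c : ℕ => (p : ℤ) ∣ q c) := by
    refine card_nbij' (fun c => (c / p, c % p)) (fun y => p * y.1 + y.2) ?_ ?_ ?_ ?_
    · intro c hc
      have hc2 := mem_filter.1 (Finset.mem_coe.1 hc)
      rw [mem_range, pow_two] at hc2
      refine Finset.mem_coe.2 (mem_product.2 ⟨mem_range.2 (Nat.div_lt_of_lt_mul hc2.1), mem_filter.2 ⟨mem_range.2 (Nat.mod_lt _ hp), ?_⟩⟩)
      exact (h.dvd_iff p c).1 hc2.2
    · intro y hy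
      have hy2 := mem_product.1 (Finset.mem_coe.1 hy)
      rw [mem_filter, mem_range, mem_range] at hy2
      refine Finset.mem_coe.2 (mem_filter.2 ⟨mem_range.2 ?_, ?_⟩)
      · calc p * y.1 + y.2 < p * y.1 + p := by omega
          _ = p * (y.1 + 1) := by ring
          _ ≤ p * p := Nat.mul_le_mul_left p hy2.1
          _ = p ^ 2 := (pow_two p).symm
      · rw [h.dvd_iff p (p * y.1 + y.2), Nat.mul_add_mod, Nat.mod_eq_of_lt hy2.2.1]
        exact hy2.2.2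
    · intro c _
      exact Nat.div_add_mod c p
    · intro y hy
      have hy2 := mem_product.1 (Finset.mem_coe.1 hy)
      rw [mem_filter, mem_range, mem_range] at hy2
      ext
      · show (p * y.1 + y.2) / p = y.1
        rw [Nat.mul_add_div hp, Nat.div_eq_of_lt hy2.2.1, add_zero]
      · show (p * y.1 + y.2) % p = y.2
        rw [Nat.mul_add_mod, Nat.mod_eq_of_lt hy2.2.1]
  rw [h1, card_product, card_range]

lemma Good.W2 (h : Good q P0 d) {p : ℕ} (hp : p.Prime) (hpP : P0 < p) :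
    #((range (p ^ 2)).filter fun c : ℕ => (p : ℤ) ^ 2 ∣ q c) ≤ rr q p := by
  unfold rr
  refine card_le_card_of_injOn (fun c => c % p) ?_ ?_
  · intro c hc
    have hc2 := mem_filter.1 (Finset.mem_coe.1 hc)
    refine Finset.mem_coe.2 (mem_filter.2 ⟨mem_range.2 (Nat.mod_lt _ hp.pos), ?_⟩)
    rw [← h.dvd_iff p c]
    exact (Dvd.intro_left _ (by ring : (p : ℤ) * p = (p : ℤ) ^ 2)).trans hc2.2
  · intro b hb c hc hbc
    have hb2 := mem_filter.1 (Finset.mem_coe.1 hb)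
    have hc2 := mem_filter.1 (Finset.mem_coe.1 hc)
    rw [mem_range] at hb2 hc2
    have h1 : (p : ℤ) ∣ (b : ℤ) - c := by
      have h2 : c ≡ b [MOD p] := hbc.symm
      exact (Nat.modEq_iff_dvd.1 h2)
    have h2 := h.lift p hp hpP b c h1 hb2.2 hc2.2
    have h3 : c ≡ b [MOD p ^ 2] := by
      rw [Nat.modEq_iff_dvd]
      push_cast
      exact h2
    exact (Nat.ModEq.eq_of_lt_of_lt h3 hc2.1 hb2.1).symm

lemma Good.E2 (h : Good q P0 d) {p : ℕ} (hp : p.Prime) (hpP : P0 < p) :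
    ((p : ℝ) - 1) * rr q p ≤ #((range (p ^ 2)).filter fun c : ℕ => (p : ℤ) ∣ q c ∧ ¬ (p : ℤ) ^ 2 ∣ q c) := by
  have h1 : (range (p ^ 2)).filter (fun c : ℕ => (p : ℤ) ∣ q c) ⊆
      (range (p ^ 2)).filter (fun c : ℕ => (p : ℤ) ∣ q c ∧ ¬ (p : ℤ) ^ 2 ∣ q c) ∪
      (range (p ^ 2)).filter fun c : ℕ => (p : ℤ) ^ 2 ∣ q c := by
    intro c hc
    rw [mem_filter] at hc
    rw [mem_union, mem_filter, mem_filter]
    by_cases h2 : (p : ℤ) ^ 2 ∣ q c
    · exact Or.inr ⟨hc.1, h2⟩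
    · exact Or.inl ⟨hc.1, hc.2, h2⟩
  have h2 := (card_le_card h1).trans (card_union_le _ _)
  rw [h.V2 hp.pos] at h2
  have h3 := h.W2 hp hpP
  have h4 : (p : ℝ) * rr q p ≤ #((range (p ^ 2)).filter fun c : ℕ => (p : ℤ) ∣ q c ∧ ¬ (p : ℤ) ^ 2 ∣ q c) + rr q p := by
    exact_mod_cast h2.trans (Nat.add_le_add_left h3 _)
  linarith

lemma box_one {J M : ℕ} (j : Fin J) (φ ψ : ℕ → ℝ) :
    ∑ n ∈ Bx J M, φ (n j) * ∏ i ∈ univ.erase j, ψ (n i) = (∑ c ∈ range M, φ c) * (∑ c ∈ range M, ψ c) ^ (J - 1) := by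
  classical
  have h1 : ∀ n : Fin J → ℕ, φ (n j) * ∏ i ∈ univ.erase j, ψ (n i) = ∏ i, (if i = j then φ else ψ) (n i) := by
    intro n
    rw [← mul_prod_erase univ _ (mem_univ j), if_pos rfl]
    congr 1
    refine prod_congr rfl fun i hi => ?_
    rw [if_neg (ne_of_mem_erase hi)]
  simp_rw [h1]
  unfold Bx
  rw [← prod_univ_sum (fun _ : Fin J => range M) fun i c => (if i = j then φ else ψ) c,
    ← mul_prod_erase univ _ (mem_univ j), if_pos rfl]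
  congr 1
  rw [prod_congr rfl fun i hi => by rw [if_neg (ne_of_mem_erase hi)], prod_const, card_erase_of_mem (mem_univ j),
    card_univ, Fintype.card_fin]

lemma sum_ind {M : ℕ} (A : ℕ → Prop) [DecidablePred A] :
    ∑ c ∈ range M, (if A c then (1 : ℝ) else 0) = #((range M).filter A) := by
  rw [sum_boole]

lemma prime_dvd_prod {p : ℕ} (hp : p.Prime) {ι : Type*} (s : Finset ι) (f : ι → ℤ) (h : (p : ℤ) ∣ ∏ i ∈ s, f i) :
    ∃ i ∈ s, (p : ℤ) ∣ f i :=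
  (Prime.dvd_finset_prod_iff (Nat.prime_iff_prime_int.1 hp) f).1 h

lemma Good.gg_upper (h : Good q P0 d) {p : ℕ} (hp : p.Prime) (J : ℕ) : gg q J p ≤ J * ((rr q p : ℝ) / p) := by
  classical
  have hp0 : (0 : ℝ) < p := by exact_mod_cast hp.pos
  have hpp : (0 : ℝ) < ((p ^ 2 : ℕ) : ℝ) := by exact_mod_cast pow_pos hp.pos 2
  unfold gg
  rw [div_le_iff₀ (by positivity)]
  have h1 : ∀ n ∈ Bx J (p ^ 2), hh p (∏ j, q (n j)) ≤
      ∑ j : Fin J, (if (p : ℤ) ∣ q (n j) then (1 : ℝ) else 0) * ∏ i ∈ univ.erase j, (fun _ => (1 : ℝ)) (n i) := by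
    intro n _
    simp only [prod_const_one, mul_one]
    unfold hh
    split_ifs with h2
    · obtain ⟨j, _, hj⟩ := prime_dvd_prod hp univ _ h2.1
      calc (1 : ℝ) = if (p : ℤ) ∣ q (n j) then (1 : ℝ) else 0 := by rw [if_pos hj]
        _ ≤ _ := single_le_sum (f := fun j : Fin J => if (p : ℤ) ∣ q (n j) then (1 : ℝ) else 0)
            (fun i _ => by split_ifs <;> norm_num) (mem_univ j)
    · exact sum_nonneg fun i _ => by split_ifs <;> norm_num
  refine (sum_le_sum h1).trans ?_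
  rw [sum_comm]
  have h3 : ∀ j : Fin J, ∑ n ∈ Bx J (p ^ 2), (if (p : ℤ) ∣ q (n j) then (1 : ℝ) else 0) *
      ∏ i ∈ univ.erase j, (fun _ => (1 : ℝ)) (n i) = (p * rr q p : ℝ) * ((p ^ 2 : ℕ) : ℝ) ^ (J - 1) := by
    intro j
    rw [box_one j (fun c => if (p : ℤ) ∣ q c then (1 : ℝ) else 0) (fun _ => (1 : ℝ)), sum_ind, h.V2 hp.pos]
    simp
  rw [sum_congr rfl fun j _ => h3 j, sum_const, card_univ, Fintype.card_fin, nsmul_eq_mul]
  rcases Nat.eq_zero_or_pos J with hJ | hJ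
  · subst hJ
    simp
  obtain ⟨J', rfl⟩ : ∃ J', J = J' + 1 := ⟨J - 1, by omega⟩
  rw [Nat.add_sub_cancel, pow_succ]
  refine le_of_eq ?_
  push_cast
  field_simp
  try ring

lemma Good.gg_lower (h : Good q P0 d) {p : ℕ} (hp : p.Prime) (hpP : P0 < p) (J : ℕ) :
    J * ((rr q p : ℝ) / p) - ((J * d : ℕ) : ℝ) ^ 2 / (p : ℝ) ^ 2 ≤ gg q J p := by
  classical
  have hp0 : (0 : ℝ) < p := by exact_mod_cast hp.pos
  have hp1 : (1 : ℝ) ≤ p := by exact_mod_cast hp.one_lt.le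
  have hpp : (0 : ℝ) < ((p ^ 2 : ℕ) : ℝ) := by exact_mod_cast pow_pos hp.pos 2
  rcases Nat.eq_zero_or_pos J with hJ | hJ
  · subst hJ
    unfold gg
    simp only [CharP.cast_eq_zero, zero_mul, ne_eq, OfNat.ofNat_ne_zero, not_false_eq_true, zero_pow, zero_div,
      sub_zero]
    exact div_nonneg (sum_nonneg fun n _ => hh_nonneg _ _) (by positivity)
  set V : ℕ → Prop := fun c => (p : ℤ) ∣ q c ∧ ¬ (p : ℤ) ^ 2 ∣ q c with hV
  have h1 : ∀ n ∈ Bx J (p ^ 2), ∑ j : Fin J, (fun c => if (p : ℤ) ∣ q c ∧ ¬ (p : ℤ) ^ 2 ∣ q c then (1 : ℝ) else 0) (n j) *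
      ∏ i ∈ univ.erase j, (fun c => if ¬ (p : ℤ) ∣ q c then (1 : ℝ) else 0) (n i) ≤ hh p (∏ j, q (n j)) := by
    intro n _
    by_cases h2 : ∃ j : Fin J, ((p : ℤ) ∣ q (n j) ∧ ¬ (p : ℤ) ^ 2 ∣ q (n j)) ∧ ∀ i, i ≠ j → ¬ (p : ℤ) ∣ q (n i)
    · obtain ⟨j, hj, hi⟩ := h2
      rw [sum_eq_single j]
      · have h3 : hh p (∏ j, q (n j)) = 1 := by
          unfold hh
          rw [if_pos]
          rw [← mul_prod_erase univ _ (mem_univ j)]
          refine ⟨dvd_mul_of_dvd_left hj.1 _, fun h4 => hj.2 ?_⟩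
          have h5 : IsCoprime ((p : ℤ) ^ 2) (∏ i ∈ univ.erase j, q (n i)) := by
            refine IsCoprime.pow_left ?_
            rw [(Nat.prime_iff_prime_int.1 hp).coprime_iff_not_dvd]
            intro h6
            obtain ⟨i, hi1, hi2⟩ := prime_dvd_prod hp _ _ h6
            exact hi i (ne_of_mem_erase hi1) hi2
          exact h5.dvd_of_dvd_mul_right h4
        rw [h3]
        simp only [if_pos hj, one_mul]
        exact prod_le_one (fun i _ => by split_ifs <;> norm_num) fun i _ => by split_ifs <;> norm_num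
      · intro i _ hij
        simp only
        rw [if_neg fun h3 => hi i hij h3.1, zero_mul]
      · intro h3
        exact absurd (mem_univ j) h3
    · have h3 : ∑ j : Fin J, (fun c => if (p : ℤ) ∣ q c ∧ ¬ (p : ℤ) ^ 2 ∣ q c then (1 : ℝ) else 0) (n j) *
          ∏ i ∈ univ.erase j, (fun c => if ¬ (p : ℤ) ∣ q c then (1 : ℝ) else 0) (n i) = 0 := by
        refine sum_eq_zero fun j _ => ?_
        simp only
        by_cases h4 : (p : ℤ) ∣ q (n j) ∧ ¬ (p : ℤ) ^ 2 ∣ q (n j)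
        · have h5 : ∃ i, i ≠ j ∧ (p : ℤ) ∣ q (n i) := by
            by_contra h6
            push Not at h6
            exact h2 ⟨j, h4, h6⟩
          obtain ⟨i, hi1, hi2⟩ := h5
          rw [prod_eq_zero (mem_erase.2 ⟨hi1, mem_univ i⟩) (by rw [if_neg (not_not.2 hi2)]), mul_zero]
        · rw [if_neg h4, zero_mul]
      rw [h3]
      exact hh_nonneg _ _
  have h2 := sum_le_sum h1
  rw [sum_comm] at h2
  rw [sum_congr rfl fun j _ => box_one j (fun c : ℕ => if (p : ℤ) ∣ q c ∧ ¬ (p : ℤ) ^ 2 ∣ q c then (1 : ℝ) else 0)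
    (fun c : ℕ => if ¬ (p : ℤ) ∣ q c then (1 : ℝ) else 0)] at h2
  rw [sum_const, card_univ, Fintype.card_fin, nsmul_eq_mul, sum_ind, sum_ind] at h2
  have hE := h.E2 hp hpP
  have hVc : (#((range (p ^ 2)).filter fun c : ℕ => ¬ (p : ℤ) ∣ q c) : ℝ) = (p : ℝ) ^ 2 - p * rr q p := by
    have h3 := card_filter_add_card_filter_not (s := range (p ^ 2)) (fun c : ℕ => (p : ℤ) ∣ q c)
    rw [h.V2 hp.pos, card_range] at h3
    have h4 : ((p : ℝ) * rr q p) + #((range (p ^ 2)).filter fun c : ℕ => ¬ (p : ℤ) ∣ q c) = (p : ℝ) ^ 2 := by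
      exact_mod_cast h3
    linarith
  rw [hVc] at h2
  have hr : (rr q p : ℝ) ≤ d := by exact_mod_cast h.root p hp hpP
  have hr0 : (0 : ℝ) ≤ rr q p := Nat.cast_nonneg _
  have hrp : (rr q p : ℝ) ≤ p := by exact_mod_cast rr_le q p
  obtain ⟨J', rfl⟩ : ∃ J', J = J' + 1 := ⟨J - 1, by omega⟩
  rw [Nat.add_sub_cancel] at h2
  unfold gg
  rw [le_div_iff₀ (by positivity)]
  refine le_trans ?_ h2
  set a : ℝ := (rr q p : ℝ) / p with ha
  have ha0 : 0 ≤ a := by positivity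
  have ha1 : a ≤ 1 := by rw [ha, div_le_one hp0]; exact hrp
  have had : a ≤ d / p := div_le_div_of_nonneg_right hr hp0.le
  have e1 : (rr q p : ℝ) = a * p := by rw [ha]; field_simp
  have hbern : 1 + (J' : ℝ) * (-a) ≤ (1 + (-a)) ^ J' := one_add_mul_le_pow (by linarith) J'
  have h5 : ((p : ℝ) ^ 2 - p * rr q p) ^ J' = ((p : ℝ) ^ 2) ^ J' * (1 + (-a)) ^ J' := by
    rw [← mul_pow, e1]
    congr 1
    ring
  have h1a : 0 ≤ (1 + (-a)) ^ J' := pow_nonneg (by linarith) _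
  rw [h5]
  have hEp : (p : ℝ) ^ 2 * (a * (1 - 1 / p)) ≤
      #((range (p ^ 2)).filter fun c : ℕ => (p : ℤ) ∣ q c ∧ ¬ (p : ℤ) ^ 2 ∣ q c) := by
    refine le_trans (le_of_eq ?_) hE
    rw [e1]
    field_simp
  have h6 : ((J' + 1 : ℕ) : ℝ) * ((p : ℝ) ^ 2 * (a * (1 - 1 / p)) * (((p : ℝ) ^ 2) ^ J' * (1 + (-a)) ^ J')) ≤
      ((J' + 1 : ℕ) : ℝ) * (#((range (p ^ 2)).filter fun c : ℕ => (p : ℤ) ∣ q c ∧ ¬ (p : ℤ) ^ 2 ∣ q c) *
        (((p : ℝ) ^ 2) ^ J' * (1 + (-a)) ^ J')) := by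
    refine mul_le_mul_of_nonneg_left ?_ (Nat.cast_nonneg _)
    exact mul_le_mul_of_nonneg_right hEp (by positivity)
  refine le_trans ?_ h6
  have hb1 : 0 ≤ 1 - 1 / (p : ℝ) := by
    rw [sub_nonneg, div_le_one hp0]
    exact hp1
  have h7 : a * (1 - 1 / p) * (1 - J' * a) ≤ a * (1 - 1 / p) * (1 + (-a)) ^ J' := by
    refine mul_le_mul_of_nonneg_left (by linarith) (mul_nonneg ha0 hb1)
  have h8 : ((J' + 1 : ℕ) : ℝ) * a - (((J' + 1) * d : ℕ) : ℝ) ^ 2 / (p : ℝ) ^ 2 ≤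
      ((J' + 1 : ℕ) : ℝ) * (a * (1 - 1 / p) * (1 - J' * a)) := by
    push_cast
    have h9 : a * (1 / p) ≤ (d : ℝ) / (p : ℝ) ^ 2 := by
      calc a * (1 / p) ≤ (d / p) * (1 / p) := mul_le_mul_of_nonneg_right had (by positivity)
        _ = _ := by ring
    have h10 : a * a ≤ (d : ℝ) ^ 2 / (p : ℝ) ^ 2 := by
      calc a * a ≤ (d / p) * (d / p) := mul_le_mul had had ha0 (by positivity)
        _ = _ := by ring
    have h11 : (d : ℝ) / (p : ℝ) ^ 2 ≤ (d : ℝ) ^ 2 / (p : ℝ) ^ 2 := by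
      refine div_le_div_of_nonneg_right ?_ (by positivity)
      have : d ≤ d ^ 2 := Nat.le_self_pow (by norm_num) d
      exact_mod_cast this
    have h12 : 0 ≤ a * (1 / p) * (J' * a) := by positivity
    have hJ0 : (0 : ℝ) ≤ J' := Nat.cast_nonneg _
    have e2 : (a * (1 - 1 / p) * (1 - J' * a) : ℝ) = a - a * (1 / p) - J' * (a * a) + a * (1 / p) * (J' * a) := by ring
    rw [e2]
    have h13 : a - a * (1 / (p : ℝ)) - J' * (a * a) + a * (1 / p) * (J' * a) ≥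
        a - (J' + 1) * ((d : ℝ) ^ 2 / (p : ℝ) ^ 2) := by
      have := mul_le_mul_of_nonneg_left h10 hJ0
      nlinarith
    have h14 := mul_le_mul_of_nonneg_left h13 (by positivity : (0 : ℝ) ≤ (J' : ℝ) + 1)
    refine le_trans (le_of_eq ?_) h14
    ring
  have e3 : ((p ^ 2 : ℕ) : ℝ) ^ (J' + 1) = (p : ℝ) ^ 2 * ((p : ℝ) ^ 2) ^ J' := by
    push_cast
    rw [pow_succ]
    ring
  rw [e3]
  calc _ ≤ ((J' + 1 : ℕ) : ℝ) * (a * (1 - 1 / p) * (1 - J' * a)) * ((p : ℝ) ^ 2 * ((p : ℝ) ^ 2) ^ J') :=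
        mul_le_mul_of_nonneg_right h8 (by positivity)
    _ ≤ ((J' + 1 : ℕ) : ℝ) * (a * (1 - 1 / p) * (1 + (-a)) ^ J') * ((p : ℝ) ^ 2 * ((p : ℝ) ^ 2) ^ J') :=
        mul_le_mul_of_nonneg_right (mul_le_mul_of_nonneg_left h7 (Nat.cast_nonneg _)) (by positivity)
    _ = _ := by ring

end Pool.Agent.L5helper2.CH
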