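import Pool.Agent.L5helper2.CH.B4

/-! Chowla's conjecture for random signs (helper2): the pure sieve of Brun in many variables. -/

set_option autoImplicit false

namespace Pool.Agent.L5helper2.CH

open Finset MeasureTheory ProbabilityTheory

variable {q : ℕ → ℤ} {P0 d : ℕ}

lemma hh_congr {p : ℕ} {a b : ℤ} (h : (p : ℤ) ^ 2 ∣ a - b) : hh p a = hh p b := by
  have h1 : (p : ℤ) ∣ a - b := (Dvd.intro_left _ (by ring : (p : ℤ) * p = (p : ℤ) ^ 2)).trans h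
  have h2 : ∀ m : ℤ, m ∣ a - b → (m ∣ a ↔ m ∣ b) := by
    intro m hm
    constructor
    · intro h3
      have : b = a - (a - b) := by ring
      rw [this]
      exact dvd_sub h3 hm
    · intro h3
      have : a = b + (a - b) := by ring
      rw [this]
      exact dvd_add h3 hm
  unfold hh
  simp only [h2 _ h1, h2 _ h]

lemma prod_congr_mod {J : ℕ} {m : ℤ} (a b : Fin J → ℤ) (h : ∀ j, m ∣ a j - b j) : m ∣ ∏ j, a j - ∏ j, b j := by
  rw [← Int.modEq_iff_dvd]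
  unfold Int.ModEq
  rw [prod_int_mod univ m b, prod_int_mod univ m a]
  congr 1
  refine prod_congr rfl fun j _ => ?_
  exact (Int.modEq_iff_dvd.2 (h j))

lemma Good.hh_per (h : Good q P0 d) {p M J : ℕ} (hM : p ^ 2 ∣ M) (n : Fin J → ℕ) :
    hh p (∏ j, q (n j)) = hh p (∏ j, q (n j % M)) := by
  refine hh_congr ?_
  refine prod_congr_mod _ _ fun j => ?_
  refine dvd_trans ?_ (h.per M (n j))
  exact_mod_cast hM

lemma Good.gg_nonneg (_h : Good q P0 d) (J p : ℕ) : 0 ≤ gg q J p := by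
  unfold gg
  exact div_nonneg (sum_nonneg fun n _ => hh_nonneg _ _) (by positivity)

lemma Good.gg_le_one (_h : Good q P0 d) (J : ℕ) {p : ℕ} (hp : 0 < p) : gg q J p ≤ 1 := by
  have hpp : (0 : ℝ) < ((p ^ 2 : ℕ) : ℝ) := by exact_mod_cast pow_pos hp 2
  unfold gg
  rw [div_le_one (by positivity)]
  calc _ ≤ ∑ _n ∈ Bx J (p ^ 2), (1 : ℝ) := sum_le_sum fun n _ => hh_le _ _
    _ = _ := by
        rw [sum_const, card_Bx, nsmul_eq_mul, mul_one]
        push_cast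
        rfl

lemma Good.sum_D (h : Good q P0 d) {D : Finset ℕ} (hD : ∀ p ∈ D, p.Prime) (x J : ℕ) :
    |∑ n ∈ Fintype.piFinset (fun _ : Fin J => Ioc 0 x), ∏ p ∈ D, hh p (∏ j, q (n j)) -
      (x : ℝ) ^ J * ∏ p ∈ D, gg q J p| ≤ ((x : ℝ) + (∏ p ∈ D, p ^ 2 : ℕ)) ^ J - (x : ℝ) ^ J := by
  have hM : 0 < ∏ p ∈ D, p ^ 2 := prod_pos fun p hp => pow_pos (hD p hp).pos 2
  have h1 := box_count (J := J) (x := x) hM (fun n => ∏ p ∈ D, hh p (∏ j, q (n j)))
    (fun n => by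
      rw [abs_prod]
      refine prod_le_one (fun p _ => abs_nonneg _) fun p _ => ?_
      rw [abs_of_nonneg (hh_nonneg _ _)]
      exact hh_le _ _)
    (fun n => prod_congr rfl fun p hp => h.hh_per (dvd_prod_of_mem (fun p => p ^ 2) hp) n)
  have h2 := crt_prod (J := J) D (fun p => p ^ 2) (fun p n => hh p (∏ j, q (n j)))
    (fun p _ n => h.hh_per dvd_rfl n) (fun p hp => pow_pos (hD p hp).pos 2)
    (fun p hp r hr hpr => Nat.Coprime.pow _ _ ((Nat.coprime_primes (hD p hp) (hD r hr)).2 hpr))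
  rw [h2] at h1
  have e : (∏ p ∈ D, ∑ n ∈ Bx J (p ^ 2), hh p (∏ j, q (n j))) / ((∏ p ∈ D, p ^ 2 : ℕ) : ℝ) ^ J = ∏ p ∈ D, gg q J p := by
    unfold gg
    rw [prod_div_distrib]
    congr 1
    rw [Nat.cast_prod, ← prod_pow]
  rw [e] at h1
  exact h1

/-- the sieve bound -/
lemma Good.sieve (h : Good q P0 d) {S : Finset ℕ} {z : ℕ} (hz : 1 ≤ z) (hS : ∀ p ∈ S, p.Prime ∧ p ≤ z) {δ : ℕ → ℝ}
    (hδ : ∀ p, 0 ≤ δ p ∧ δ p ≤ 1) {K : ℕ} (hK : Odd K) (x J : ℕ) :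
    ∑ n ∈ Fintype.piFinset (fun _ : Fin J => Ioc 0 x), ∏ p ∈ S, (1 - δ p * hh p (∏ j, q (n j))) ≤
      (x : ℝ) ^ J * (∏ p ∈ S, (1 - δ p * gg q J p) + EE K S fun p => δ p * gg q J p) +
        ((z : ℝ) + 1) ^ K * (((x : ℝ) + (z : ℝ) ^ (2 * K)) ^ J - (x : ℝ) ^ J) := by
  classical
  have h1 : ∀ n ∈ Fintype.piFinset (fun _ : Fin J => Ioc 0 x), ∏ p ∈ S, (1 - δ p * hh p (∏ j, q (n j))) ≤
      ∑ D ∈ S.powerset.filter (fun D => #D < K), ((-1) ^ #D * ∏ p ∈ D, δ p) * ∏ p ∈ D, hh p (∏ j, q (n j)) := by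
    intro n _
    have h2 := (bonf_odd (u := fun p => δ p * hh p (∏ j, q (n j))) (S := S) (fun p _ => ⟨mul_nonneg (hδ p).1 (hh_nonneg _ _),
      mul_le_one₀ (hδ p).2 (hh_nonneg _ _) (hh_le _ _)⟩) hK).1
    refine h2.trans (le_of_eq ?_)
    unfold TT
    rw [sum_filter]
    refine sum_congr rfl fun D _ => ?_
    rw [prod_mul_distrib]
    split_ifs <;> ring
  refine (sum_le_sum h1).trans ?_
  rw [sum_comm]
  have h3 : ∀ D ∈ S.powerset.filter (fun D => #D < K),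
      ∑ n ∈ Fintype.piFinset (fun _ : Fin J => Ioc 0 x), ((-1) ^ #D * ∏ p ∈ D, δ p) * ∏ p ∈ D, hh p (∏ j, q (n j)) ≤
      (x : ℝ) ^ J * ((-1) ^ #D * ∏ p ∈ D, (δ p * gg q J p)) + (((x : ℝ) + (z : ℝ) ^ (2 * K)) ^ J - (x : ℝ) ^ J) := by
    intro D hD
    rw [mem_filter, mem_powerset] at hD
    have hDp : ∀ p ∈ D, p.Prime := fun p hp => (hS p (hD.1 hp)).1
    have h4 := h.sum_D hDp x J
    rw [← mul_sum, prod_mul_distrib]
    set A := ∑ n ∈ Fintype.piFinset (fun _ : Fin J => Ioc 0 x), ∏ p ∈ D, hh p (∏ j, q (n j)) with hA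
    set B := ∏ p ∈ D, gg q J p with hB
    set E := (-1) ^ #D * ∏ p ∈ D, δ p with hE
    have hE1 : |E| ≤ 1 := by
      rw [hE, abs_mul, abs_pow, abs_neg, abs_one, one_pow, one_mul, abs_prod]
      refine prod_le_one (fun p _ => abs_nonneg _) fun p _ => ?_
      rw [abs_of_nonneg (hδ p).1]
      exact (hδ p).2
    have h5 : ((x : ℝ) + (∏ p ∈ D, p ^ 2 : ℕ)) ^ J - (x : ℝ) ^ J ≤ ((x : ℝ) + (z : ℝ) ^ (2 * K)) ^ J - (x : ℝ) ^ J := by
      have h6 : ((∏ p ∈ D, p ^ 2 : ℕ) : ℝ) ≤ (z : ℝ) ^ (2 * K) := by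
        rw [pow_mul, Nat.cast_prod]
        calc ∏ p ∈ D, ((p ^ 2 : ℕ) : ℝ) ≤ ∏ _p ∈ D, (z : ℝ) ^ 2 := by
                refine prod_le_prod (fun p _ => Nat.cast_nonneg _) fun p hp => ?_
                push_cast
                have : (p : ℝ) ≤ z := by exact_mod_cast (hS p (hD.1 hp)).2
                gcongr
          _ = ((z : ℝ) ^ 2) ^ #D := by rw [prod_const]
          _ ≤ _ := by
                refine pow_le_pow_right₀ ?_ hD.2.le
                have : (1 : ℝ) ≤ z := by exact_mod_cast hz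
                nlinarith
      have : (x : ℝ) + (∏ p ∈ D, p ^ 2 : ℕ) ≤ (x : ℝ) + (z : ℝ) ^ (2 * K) := by linarith
      have := pow_le_pow_left₀ (by positivity) this J
      linarith
    have h8 : E * A - (x : ℝ) ^ J * (E * B) = E * (A - (x : ℝ) ^ J * B) := by ring
    have h9 : |E * (A - (x : ℝ) ^ J * B)| ≤ 1 * (((x : ℝ) + (∏ p ∈ D, p ^ 2 : ℕ)) ^ J - (x : ℝ) ^ J) := by
      rw [abs_mul]
      exact mul_le_mul hE1 h4 (abs_nonneg _) zero_le_one
    have h10 := (le_abs_self _).trans h9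
    have e2 : (-1) ^ #D * ((∏ p ∈ D, δ p) * B) = E * B := by rw [hE]; ring
    rw [e2]
    linarith
  refine (sum_le_sum h3).trans ?_
  rw [sum_add_distrib, sum_const, nsmul_eq_mul, ← mul_sum]
  have hug : ∀ p ∈ S, 0 ≤ δ p * gg q J p ∧ δ p * gg q J p ≤ 1 := by
    intro p hp
    exact ⟨mul_nonneg (hδ p).1 (h.gg_nonneg J p), mul_le_one₀ (hδ p).2 (h.gg_nonneg J p) (h.gg_le_one J (hS p hp).1.pos)⟩
  have h11 := (bonf_odd hug hK).2
  have h12 : ∑ D ∈ S.powerset.filter (fun D => #D < K), (-1 : ℝ) ^ #D * ∏ p ∈ D, (δ p * gg q J p) =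
      TT K S fun p => δ p * gg q J p := by
    unfold TT
    rw [sum_filter]
  rw [h12]
  have h13 : (#(S.powerset.filter fun D => #D < K) : ℝ) ≤ ((z : ℝ) + 1) ^ K := by
    refine (card_small S K).trans ?_
    have h14 : #S ≤ z := by
      have : S ⊆ Ioc 0 z := fun p hp => mem_Ioc.2 ⟨(hS p hp).1.pos, (hS p hp).2⟩
      simpa using card_le_card this
    have : (#S : ℝ) ≤ z := by exact_mod_cast h14
    gcongr
  have h15 : 0 ≤ ((x : ℝ) + (z : ℝ) ^ (2 * K)) ^ J - (x : ℝ) ^ J := by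
    have : (x : ℝ) ≤ (x : ℝ) + (z : ℝ) ^ (2 * K) := by
      have : (0 : ℝ) ≤ (z : ℝ) ^ (2 * K) := by positivity
      linarith
    have := pow_le_pow_left₀ (Nat.cast_nonneg x) this J
    linarith
  exact add_le_add (mul_le_mul_of_nonneg_left h11 (by positivity)) (mul_le_mul_of_nonneg_right h13 h15)

end Pool.Agent.L5helper2.CH
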