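import Pool.Agent.L5helper2.CH.B5
import Pool.Agent.Helper601.Mertens

/-! Chowla's conjecture for random signs (helper2): moments of growing order. -/

set_option autoImplicit false

namespace Pool.Agent.L5helper2.CH

open Finset MeasureTheory ProbabilityTheory

variable {Ω : Type} [MeasurableSpace Ω] {P : Measure Ω} {X : ℕ → Ω → ℝ} {q : ℕ → ℤ} {P0 d : ℕ}

/-- the sum of `δ_p ρ(p) / p` -/
noncomputable def Dq (P : Measure Ω) (X : ℕ → Ω → ℝ) (q : ℕ → ℤ) (y : ℕ) : ℝ :=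
  ∑ p ∈ (Icc 1 y).filter Nat.Prime, dl P X p * ((rr q p : ℝ) / p)

/-- the order of the moment -/
noncomputable def JJ (L : ℝ) : ℕ := 2 * ⌈L⌉₊

/-- the number of the steps of the sieve -/
noncomputable def KK (d : ℕ) (C L : ℝ) : ℕ := 2 * ⌈4 * (JJ L : ℝ) * d * (L + C)⌉₊ + 1

/-- the level of the sieve -/
noncomputable def zz (ℓ L : ℝ) : ℕ := ⌊Real.exp (ℓ / L ^ 3)⌋₊

lemma JJ_ge {L : ℝ} : 2 * L ≤ JJ L := by
  unfold JJ
  push_cast
  linarith [Nat.le_ceil L]

lemma JJ_le {L : ℝ} (hL : 1 ≤ L) : (JJ L : ℝ) ≤ 4 * L := by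
  unfold JJ
  push_cast
  linarith [Nat.ceil_lt_add_one (by linarith : 0 ≤ L)]

lemma KK_ge (d : ℕ) (C L : ℝ) : 8 * (JJ L : ℝ) * d * (L + C) ≤ KK d C L := by
  unfold KK
  push_cast
  linarith [Nat.le_ceil (4 * (JJ L : ℝ) * d * (L + C))]

lemma KK_odd (d : ℕ) (C L : ℝ) : Odd (KK d C L) := ⟨_, rfl⟩

lemma KK_le (d : ℕ) {C L : ℝ} (hC : 0 ≤ C) (hL : 1 ≤ L) : (KK d C L : ℝ) ≤ (32 * d * (1 + C) + 3) * L ^ 2 := by
  have hJ := JJ_le hL
  have h0 : 0 ≤ 4 * (JJ L : ℝ) * d * (L + C) := by positivity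
  have h1 := Nat.ceil_lt_add_one h0
  have h2 : 4 * (JJ L : ℝ) * d * (L + C) ≤ 4 * (4 * L) * d * (L * (1 + C)) := by
    have h3 : L + C ≤ L * (1 + C) := by nlinarith
    have h4 : 4 * (JJ L : ℝ) * d ≤ 4 * (4 * L) * d := by
      have : (0 : ℝ) ≤ d := Nat.cast_nonneg d
      nlinarith
    exact mul_le_mul h4 h3 (by positivity) (by positivity)
  unfold KK
  push_cast
  have h5 : (1 : ℝ) ≤ L ^ 2 := one_le_pow₀ hL
  nlinarith

/-- the error term of the sieve -/
lemma err_small (d : ℕ) {C : ℝ} (hC : 0 ≤ C) : ∃ L0 : ℝ, 1 ≤ L0 ∧ ∀ L ℓ : ℝ, L0 ≤ L → ℓ = Real.exp L →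
    ((zz ℓ L : ℝ) + 1) ^ KK d C L * ((1 + (zz ℓ L : ℝ) ^ (2 * KK d C L) / Real.exp ℓ) ^ JJ L - 1) ≤ Real.exp (-(ℓ / 2)) := by
  set C1 : ℝ := 32 * d * (1 + C) + 3 with hC1
  have hC10 : 3 ≤ C1 := by
    have : 0 ≤ 32 * (d : ℝ) * (1 + C) := by positivity
    linarith
  have ht := Real.tendsto_exp_div_pow_atTop 3
  obtain ⟨L1, hL1⟩ := Filter.eventually_atTop.1 (ht.eventually_ge_atTop 32)
  refine ⟨max (max L1 (24 * C1)) 1, le_max_right _ _, fun L ℓ hL hℓ => ?_⟩
  have hL1' : L1 ≤ L := (le_max_left _ _).trans ((le_max_left _ _).trans hL)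
  have hL2 : 24 * C1 ≤ L := (le_max_right _ _).trans ((le_max_left _ _).trans hL)
  have hL3 : 1 ≤ L := (le_max_right _ _).trans hL
  have hL0 : 0 < L := by linarith
  have h1 := hL1 L hL1'
  rw [← hℓ] at h1
  have hL3p : 0 < L ^ 3 := by positivity
  have h2 : 32 * L ^ 3 ≤ ℓ := by rwa [le_div_iff₀ hL3p] at h1
  have h3 : 32 * L ≤ ℓ := by
    have : L ≤ L ^ 3 := by nlinarith [sq_nonneg (L - 1), mul_pos hL0 hL0]
    linarith
  have hℓ0 : 0 < ℓ := by linarith
  set z : ℝ := (zz ℓ L : ℝ) with hz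
  set K := KK d C L with hK
  set J := JJ L with hJ
  have hz0 : 0 ≤ z := Nat.cast_nonneg _
  have hz1 : z + 1 ≤ Real.exp (2 * (ℓ / L ^ 3)) := by
    have h4 : z ≤ Real.exp (ℓ / L ^ 3) := Nat.floor_le (Real.exp_pos _).le
    have h5 : Real.exp (2 * (ℓ / L ^ 3)) = Real.exp (ℓ / L ^ 3) * Real.exp (ℓ / L ^ 3) := by
      rw [← Real.exp_add]; congr 1; ring
    have h6 : 2 ≤ Real.exp (ℓ / L ^ 3) := by
      have := Real.add_one_le_exp (ℓ / L ^ 3)
      linarith
    rw [h5]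
    nlinarith
  have hKle : (K : ℝ) ≤ C1 * L ^ 2 := KK_le d hC hL3
  have hz3 : (z + 1) ^ (3 * K) ≤ Real.exp (ℓ / 4) := by
    calc (z + 1) ^ (3 * K) ≤ (Real.exp (2 * (ℓ / L ^ 3))) ^ (3 * K) := pow_le_pow_left₀ (by linarith) hz1 _
      _ = Real.exp ((3 * K : ℕ) * (2 * (ℓ / L ^ 3))) := by rw [← Real.exp_nat_mul]
      _ ≤ Real.exp (ℓ / 4) := by
          refine Real.exp_le_exp.2 ?_
          push_cast
          have h7 : (K : ℝ) * (ℓ / L ^ 3) ≤ C1 * L ^ 2 * (ℓ / L ^ 3) := mul_le_mul_of_nonneg_right hKle (by positivity)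
          have h8 : C1 * L ^ 2 * (ℓ / L ^ 3) = C1 * ℓ / L := by
            field_simp
          have h9 : C1 * ℓ / L ≤ ℓ / 24 := by
            rw [div_le_div_iff₀ hL0 (by norm_num)]
            nlinarith
          linarith
  have hJle : (J : ℝ) ≤ 4 * L := JJ_le hL3
  have hJ0 : (0 : ℝ) ≤ J := Nat.cast_nonneg _
  have he1 : 8 * L ≤ Real.exp (ℓ / 4) := by
    have := Real.add_one_le_exp (ℓ / 4)
    linarith
  set a : ℝ := z ^ (2 * K) / Real.exp ℓ with ha
  have ha0 : 0 ≤ a := by positivity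
  have haz : (z + 1) ^ K * a ≤ Real.exp (ℓ / 4) / Real.exp ℓ := by
    rw [ha, ← mul_div_assoc]
    refine div_le_div_of_nonneg_right ?_ (Real.exp_pos _).le
    calc (z + 1) ^ K * z ^ (2 * K) ≤ (z + 1) ^ K * (z + 1) ^ (2 * K) :=
          mul_le_mul_of_nonneg_left (pow_le_pow_left₀ hz0 (by linarith) _) (by positivity)
      _ = (z + 1) ^ (3 * K) := by rw [← pow_add]; congr 1; ring
      _ ≤ _ := hz3
  have haz1 : a ≤ Real.exp (ℓ / 4) / Real.exp ℓ := by
    have h7 : 1 ≤ (z + 1) ^ K := one_le_pow₀ (by linarith)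
    nlinarith
  have heq : Real.exp (ℓ / 4) / Real.exp ℓ = Real.exp (-(3 * ℓ / 4)) := by
    rw [← Real.exp_sub]; congr 1; ring
  have hJa : (J : ℝ) * a ≤ 1 := by
    calc (J : ℝ) * a ≤ (4 * L) * Real.exp (-(3 * ℓ / 4)) := by
          rw [← heq]
          exact mul_le_mul hJle haz1 ha0 (by positivity)
      _ ≤ Real.exp (ℓ / 4) * Real.exp (-(3 * ℓ / 4)) := mul_le_mul_of_nonneg_right (by linarith) (Real.exp_pos _).le
      _ = Real.exp (-(ℓ / 2)) := by rw [← Real.exp_add]; congr 1; ring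
      _ ≤ 1 := by
          rw [Real.exp_le_one_iff]
          linarith
  have hJa0 : 0 ≤ (J : ℝ) * a := mul_nonneg hJ0 ha0
  have h10 : (1 + a) ^ J - 1 ≤ 2 * (J * a) := by
    have h11 : (1 + a) ^ J ≤ Real.exp (J * a) := by
      rw [Real.exp_nat_mul]
      refine pow_le_pow_left₀ (by linarith) ?_ _
      linarith [Real.add_one_le_exp a]
    have h12 := Real.abs_exp_sub_one_le (x := J * a) (by rw [abs_of_nonneg hJa0]; exact hJa)
    rw [abs_of_nonneg hJa0] at h12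
    have h13 := (le_abs_self _).trans h12
    linarith
  calc (z + 1) ^ K * ((1 + a) ^ J - 1) ≤ (z + 1) ^ K * (2 * (J * a)) := mul_le_mul_of_nonneg_left h10 (by positivity)
    _ = 2 * J * ((z + 1) ^ K * a) := by ring
    _ ≤ 2 * (4 * L) * Real.exp (-(3 * ℓ / 4)) := by
        rw [← heq]
        exact mul_le_mul (by linarith) haz (by positivity) (by positivity)
    _ ≤ Real.exp (ℓ / 4) * Real.exp (-(3 * ℓ / 4)) := mul_le_mul_of_nonneg_right (by linarith) (Real.exp_pos _).le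
    _ = Real.exp (-(ℓ / 2)) := by rw [← Real.exp_add]; congr 1; ring

lemma mert : ∃ C : ℝ, 0 ≤ C ∧ ∀ N : ℕ, 3 ≤ N →
    ∑ p ∈ (Icc 1 N).filter Nat.Prime, (1 : ℝ) / p ≤ Real.log (Real.log N) + C := by
  obtain ⟨C, hC⟩ := Pool.Agent.Helper601.Mertens.mertens_inv
  refine ⟨C, (abs_nonneg _).trans (hC 3 le_rfl), fun N hN => ?_⟩
  have := (abs_le.1 (hC N hN)).2
  linarith

/-- the cut off for the small primes -/
noncomputable def P1 (P0 d : ℕ) (L : ℝ) : ℕ := P0 + 1 + (JJ L * d) ^ 2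

/-- the moments of order `2⌈log log x⌉` -/
theorem Signs.mom (h : Signs P X) (hq : Good q P0 d) : ∃ C L0 : ℝ, 0 ≤ C ∧ 1 ≤ L0 ∧
    ∀ c : ℕ → ℝ, (∀ n, |c n| ≤ 1) → ∀ (x : ℕ) (ℓ L : ℝ), ℓ = Real.log x → L = Real.log ℓ → L0 ≤ L → 0 < ℓ →
    |∫ ω, SS X c q ω x ^ JJ L ∂P| ≤ (x : ℝ) ^ JJ L * (3 * Real.exp (-(JJ L * (Dq P X q (zz ℓ L) - Dq P X q (P1 P0 d L)))) +
      Real.exp (-(8 * JJ L * d * (L + C))) + Real.exp (-(ℓ / 2))) := by
  obtain ⟨C, hC0, hC⟩ := mert
  obtain ⟨L1, hL1, herr⟩ := err_small d hC0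
  have ht := Real.tendsto_exp_div_pow_atTop 3
  obtain ⟨L2, hL2⟩ := Filter.eventually_atTop.1 (ht.eventually_ge_atTop 32)
  refine ⟨C, max L1 L2, hC0, le_max_of_le_left hL1, fun c hc x ℓ L hℓ hL hL0 hℓ0 => ?_⟩
  have hL1' : L1 ≤ L := (le_max_left _ _).trans hL0
  have hL2' : L2 ≤ L := (le_max_right _ _).trans hL0
  have hLone : 1 ≤ L := hL1.trans hL1'
  have hℓL : ℓ = Real.exp L := by rw [hL, Real.exp_log hℓ0]
  have hx0 : 0 < x := by
    rcases Nat.eq_zero_or_pos x with h0 | h0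
    · subst h0
      simp at hℓ
      linarith
    · exact h0
  have hx0' : (0 : ℝ) < x := by exact_mod_cast hx0
  have hxℓ : (x : ℝ) = Real.exp ℓ := by rw [hℓ, Real.exp_log hx0']
  set z := zz ℓ L with hz
  set J := JJ L with hJ
  set K := KK d C L with hK
  set p1 := P1 P0 d L with hp1
  have hexp : 32 ≤ ℓ / L ^ 3 := by
    have := hL2 L hL2'
    rwa [← hℓL] at this
  have hz3 : 3 ≤ z := by
    rw [hz]
    unfold zz
    refine Nat.le_floor ?_
    have := Real.add_one_le_exp (ℓ / L ^ 3)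
    push_cast
    linarith
  have hzx : z ≤ x := by
    rw [hz]
    unfold zz
    refine Nat.floor_le_of_le ?_
    rw [hxℓ]
    refine Real.exp_le_exp.2 ?_
    rw [div_le_iff₀ (by positivity)]
    have : (1 : ℝ) ≤ L ^ 3 := one_le_pow₀ hLone
    nlinarith
  have hloglog : Real.log (Real.log z) ≤ L := by
    rw [hL, hℓ]
    have hz1 : (1 : ℝ) < z := by exact_mod_cast (by omega : 1 < z)
    refine Real.log_le_log (Real.log_pos hz1) (Real.log_le_log (by linarith) ?_)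
    exact_mod_cast hzx
  have hms := hC z hz3
  set S := (Ioc p1 z).filter Nat.Prime with hS
  have hSp : ∀ p ∈ S, p.Prime ∧ p ≤ z := fun p hp => by
    rw [hS, mem_filter, mem_Ioc] at hp
    exact ⟨hp.2, hp.1.2⟩
  have hSP : ∀ p ∈ S, P0 < p := fun p hp => by
    rw [hS, mem_filter, mem_Ioc] at hp
    have := hp.1.1
    rw [hp1] at this
    unfold P1 at this
    omega
  have h1 := h.moment hc q (fun p hp => (hSp p hp).1) x J
  have h2 := hq.sieve (by omega : 1 ≤ z) hSp (δ := dl P X) (fun p => ⟨h.dl_nonneg p, h.dl_le p⟩) (KK_odd d C L) x J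
  refine h1.trans (h2.trans ?_)
  rw [← hK]
  -- the error
  have hE := herr L ℓ hL1' hℓL
  rw [← hz, ← hJ, ← hK, ← hxℓ] at hE
  have hE2 : ((z : ℝ) + 1) ^ K * (((x : ℝ) + (z : ℝ) ^ (2 * K)) ^ J - (x : ℝ) ^ J) =
      (x : ℝ) ^ J * (((z : ℝ) + 1) ^ K * ((1 + (z : ℝ) ^ (2 * K) / x) ^ J - 1)) := by
    have e : (x : ℝ) + (z : ℝ) ^ (2 * K) = x * (1 + (z : ℝ) ^ (2 * K) / x) := by
      field_simp
    rw [e, mul_pow]
    ring
  rw [hE2, ← mul_add]
  refine mul_le_mul_of_nonneg_left ?_ (by positivity)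
  refine add_le_add (add_le_add ?_ ?_) hE
  · -- the main term
    have h3 : ∏ p ∈ S, (1 - dl P X p * gg q J p) ≤ Real.exp (-∑ p ∈ S, dl P X p * gg q J p) := by
      rw [← sum_neg_distrib, Real.exp_sum]
      refine prod_le_prod (fun p hp => ?_) fun p _ => ?_
      · have := mul_le_one₀ (h.dl_le p) (hq.gg_nonneg J p) (hq.gg_le_one J (hSp p hp).1.pos)
        linarith
      · have := Real.add_one_le_exp (-(dl P X p * gg q J p))
        linarith
    have h4 : J * (Dq P X q z - Dq P X q p1) - 1 ≤ ∑ p ∈ S, dl P X p * gg q J p := by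
      have h5 : ∀ p ∈ S, J * (dl P X p * ((rr q p : ℝ) / p)) - ((J * d : ℕ) : ℝ) ^ 2 * ((p : ℝ) ^ 2)⁻¹ ≤
          dl P X p * gg q J p := by
        intro p hp
        have h6 := hq.gg_lower (hSp p hp).1 (hSP p hp) J
        have h7 := mul_le_mul_of_nonneg_left h6 (h.dl_nonneg p)
        have h8 : dl P X p * (((J * d : ℕ) : ℝ) ^ 2 / (p : ℝ) ^ 2) ≤ 1 * (((J * d : ℕ) : ℝ) ^ 2 / (p : ℝ) ^ 2) :=
          mul_le_mul_of_nonneg_right (h.dl_le p) (by positivity)
        rw [mul_sub] at h7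
        rw [← div_eq_mul_inv]
        linarith
      have h9 := sum_le_sum h5
      rw [sum_sub_distrib, ← mul_sum, ← mul_sum] at h9
      have h10 : Dq P X q z - Dq P X q p1 ≤ ∑ p ∈ S, dl P X p * ((rr q p : ℝ) / p) := by
        have h11 : Dq P X q z ≤ Dq P X q p1 + ∑ p ∈ S, dl P X p * ((rr q p : ℝ) / p) := by
          unfold Dq
          have hdis : Disjoint ((Icc 1 p1).filter Nat.Prime) S := by
            rw [disjoint_left]
            intro p hp hp'
            rw [mem_filter, mem_Icc] at hp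
            rw [hS, mem_filter, mem_Ioc] at hp'
            omega
          rw [← sum_union hdis]
          refine sum_le_sum_of_subset_of_nonneg ?_ fun p _ _ => mul_nonneg (h.dl_nonneg p) (by positivity)
          intro p hp
          rw [mem_filter, mem_Icc] at hp
          rw [mem_union, mem_filter, mem_Icc, hS, mem_filter, mem_Ioc]
          by_cases h12 : p ≤ p1
          · exact Or.inl ⟨⟨hp.1.1, h12⟩, hp.2⟩
          · exact Or.inr ⟨⟨by omega, hp.1.2⟩, hp.2⟩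
        linarith
      have h13 : ((J * d : ℕ) : ℝ) ^ 2 * ∑ p ∈ S, ((p : ℝ) ^ 2)⁻¹ ≤ 1 := by
        have hp1pos : p1 ≠ 0 := by
          rw [hp1]
          unfold P1
          omega
        have h14 : ∑ p ∈ S, ((p : ℝ) ^ 2)⁻¹ ≤ (p1 : ℝ)⁻¹ := by
          rcases le_total p1 z with h15 | h15
          · calc ∑ p ∈ S, ((p : ℝ) ^ 2)⁻¹ ≤ ∑ p ∈ Ioc p1 z, ((p : ℝ) ^ 2)⁻¹ :=
                  sum_le_sum_of_subset_of_nonneg (filter_subset _ _) fun p _ _ => by positivity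
              _ ≤ (p1 : ℝ)⁻¹ - (z : ℝ)⁻¹ := sum_Ioc_inv_sq_le_sub hp1pos h15
              _ ≤ _ := by
                  have : (0 : ℝ) ≤ (z : ℝ)⁻¹ := by positivity
                  linarith
          · have : S = ∅ := by
              rw [hS, Ioc_eq_empty_of_le h15, filter_empty]
            rw [this, sum_empty]
            positivity
        have h16 : ((J * d : ℕ) : ℝ) ^ 2 ≤ p1 := by
          have : (J * d) ^ 2 ≤ p1 := by
            rw [hp1]
            unfold P1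
            exact Nat.le_add_left _ _
          exact_mod_cast this
        have hp1' : (0 : ℝ) < p1 := by exact_mod_cast Nat.pos_of_ne_zero hp1pos
        calc ((J * d : ℕ) : ℝ) ^ 2 * ∑ p ∈ S, ((p : ℝ) ^ 2)⁻¹ ≤ p1 * (p1 : ℝ)⁻¹ :=
              mul_le_mul h16 h14 (sum_nonneg fun p _ => by positivity) hp1'.le
          _ = 1 := mul_inv_cancel₀ hp1'.ne'
      have h17 := mul_le_mul_of_nonneg_left h10 (Nat.cast_nonneg J : (0 : ℝ) ≤ J)
      linarith
    calc _ ≤ Real.exp (-∑ p ∈ S, dl P X p * gg q J p) := h3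
      _ ≤ Real.exp (1 + -(J * (Dq P X q z - Dq P X q p1))) := Real.exp_le_exp.2 (by linarith)
      _ = Real.exp 1 * Real.exp (-(J * (Dq P X q z - Dq P X q p1))) := Real.exp_add _ _
      _ ≤ _ := mul_le_mul_of_nonneg_right (by linarith [Real.exp_one_lt_d9]) (Real.exp_pos _).le
  · -- the tail
    have h3 := EE_le (S := S) (u := fun p => dl P X p * gg q J p)
      (fun p _ => mul_nonneg (h.dl_nonneg p) (hq.gg_nonneg J p)) (Real.exp_pos 2) K
    refine h3.trans ?_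
    rw [← Real.exp_nat_mul, ← Real.exp_sub]
    refine Real.exp_le_exp.2 ?_
    have h4 : ∑ p ∈ S, dl P X p * gg q J p ≤ J * d * (L + C) := by
      have h5 : ∀ p ∈ S, dl P X p * gg q J p ≤ J * d * (1 / p) := by
        intro p hp
        have h6 := hq.gg_upper (hSp p hp).1 J
        have h7 : (rr q p : ℝ) ≤ d := by exact_mod_cast hq.root p (hSp p hp).1 (hSP p hp)
        calc dl P X p * gg q J p ≤ 1 * gg q J p := mul_le_mul_of_nonneg_right (h.dl_le p) (hq.gg_nonneg J p)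
          _ ≤ J * ((rr q p : ℝ) / p) := by rw [one_mul]; exact h6
          _ ≤ J * (d / p) := by
              refine mul_le_mul_of_nonneg_left ?_ (Nat.cast_nonneg _)
              exact div_le_div_of_nonneg_right h7 (Nat.cast_nonneg _)
          _ = _ := by ring
      refine (sum_le_sum h5).trans ?_
      rw [← mul_sum]
      refine mul_le_mul_of_nonneg_left ?_ (by positivity)
      calc ∑ p ∈ S, (1 : ℝ) / p ≤ ∑ p ∈ (Icc 1 z).filter Nat.Prime, (1 : ℝ) / p := by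
            refine sum_le_sum_of_subset_of_nonneg ?_ fun p _ _ => by positivity
            intro p hp
            rw [hS, mem_filter, mem_Ioc] at hp
            rw [mem_filter, mem_Icc]
            exact ⟨⟨hp.2.pos, hp.1.2⟩, hp.2⟩
        _ ≤ _ := by linarith
    have hK2 : 8 * (J : ℝ) * d * (L + C) ≤ K := KK_ge d C L
    have he2 : Real.exp 2 ≤ 8 := by
      have : Real.exp 2 = Real.exp 1 * Real.exp 1 := by rw [← Real.exp_add]; norm_num
      rw [this]
      have h6 := Real.exp_one_lt_d9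
      have h7 := Real.exp_pos 1
      nlinarith
    have h5 : 0 ≤ (J : ℝ) * d * (L + C) := by positivity
    have h6 : Real.exp 2 * ∑ p ∈ S, dl P X p * gg q J p ≤ 8 * (J * d * (L + C)) := by
      calc _ ≤ Real.exp 2 * (J * d * (L + C)) := mul_le_mul_of_nonneg_left h4 (Real.exp_pos _).le
        _ ≤ _ := mul_le_mul_of_nonneg_right he2 h5
    have h7 : ((K : ℕ) : ℝ) * 2 = 2 * K := by ring
    rw [h7]
    linarith

end Pool.Agent.L5helper2.CH
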