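import Mathlib

/-! Chowla's conjecture for random signs (helper2): from sparse exceptional sets to all `x`. -/

set_option autoImplicit false

namespace Pool.Agent.L5helper2.CH

open Finset MeasureTheory ProbabilityTheory

lemma steps {s : ℕ → ℝ} (hs : ∀ x, |s (x + 1) - s x| ≤ 1) (y k : ℕ) : |s (y + k) - s y| ≤ k := by
  induction k with
  | zero => simp
  | succ k ih =>
    have e : s (y + (k + 1)) - s y = (s (y + k + 1) - s (y + k)) + (s (y + k) - s y) := by
      rw [← add_assoc]
      ring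
    rw [e]
    calc _ ≤ |s (y + k + 1) - s (y + k)| + |s (y + k) - s y| := abs_add_le _ _
      _ ≤ 1 + k := add_le_add (hs _) ih
      _ = _ := by push_cast; ring

/-- the deterministic part -/
lemma interp {s η : ℕ → ℝ} (hs : ∀ x, |s (x + 1) - s x| ≤ 1) {x1 : ℕ} (hη0 : ∀ x, 0 < η x)
    (hη1 : ∀ x, x1 ≤ x → η x ≤ 1) (hmono : ∀ x y, x1 ≤ x → x ≤ y → η y ≤ η x)
    (hsum : Summable fun x : ℕ => if η x * x < |s x| then 1 / (η x * x) else 0) :
    ∃ x0 : ℕ, ∀ y, x0 ≤ y → |s y| ≤ 4 * (η y * y) := by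
  classical
  obtain ⟨t, ht⟩ := hsum.vanishing (e := Set.Ioo (-(1 / 2 : ℝ)) (1 / 2)) (Ioo_mem_nhds (by norm_num) (by norm_num))
  refine ⟨max (max x1 1) (t.sup id + 1), fun y hy => ?_⟩
  have hy1 : x1 ≤ y := (le_max_left _ _).trans ((le_max_left _ _).trans hy)
  have hy2 : 1 ≤ y := (le_max_right _ _).trans ((le_max_left _ _).trans hy)
  have hy3 : t.sup id + 1 ≤ y := (le_max_right _ _).trans hy
  by_contra hcon
  push Not at hcon
  have hy0 : (0 : ℝ) < y := by exact_mod_cast hy2
  have hηy := hη0 y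
  have hA : 0 < η y * y := mul_pos hηy hy0
  set h : ℕ := ⌊η y * y⌋₊ with hh
  have hhle : (h : ℝ) ≤ η y * y := Nat.floor_le hA.le
  have hhlt : η y * y < h + 1 := Nat.lt_floor_add_one _
  have hhy : (h : ℝ) ≤ y := by
    refine hhle.trans ?_
    have := hη1 y hy1
    nlinarith
  have hbad : ∀ x ∈ Icc y (y + h), η x * x < |s x| ∧ 1 / (2 * (η y * y)) ≤ 1 / (η x * x) := by
    intro x hx
    rw [mem_Icc] at hx
    obtain ⟨k, rfl⟩ : ∃ k, x = y + k := ⟨x - y, by omega⟩
    have hk : (k : ℝ) ≤ h := by exact_mod_cast (by omega : k ≤ h)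
    have h1 := steps hs y k
    have h2 : |s y| ≤ |s (y + k)| + |s (y + k) - s y| := by
      have : s y = s (y + k) - (s (y + k) - s y) := by ring
      calc |s y| = |s (y + k) - (s (y + k) - s y)| := by rw [← this]
        _ ≤ _ := abs_sub _ _
    have h3 : η (y + k) ≤ η y := hmono y (y + k) hy1 (by omega)
    have h4 : η (y + k) * ((y + k : ℕ) : ℝ) ≤ 2 * (η y * y) := by
      have h5 : ((y + k : ℕ) : ℝ) ≤ 2 * y := by
        push_cast
        linarith
      calc η (y + k) * ((y + k : ℕ) : ℝ) ≤ η y * (2 * y) := mul_le_mul h3 h5 (Nat.cast_nonneg _) hηy.le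
        _ = _ := by ring
    refine ⟨by linarith, ?_⟩
    have h6 : 0 < η (y + k) * ((y + k : ℕ) : ℝ) := by
      refine mul_pos (hη0 _) ?_
      push_cast
      positivity
    exact one_div_le_one_div_of_le h6 h4
  have hdisj : Disjoint (Icc y (y + h)) t := by
    rw [disjoint_left]
    intro x hx hxt
    rw [mem_Icc] at hx
    have : x ≤ t.sup id := le_sup (f := id) hxt
    omega
  have h1 := (ht _ hdisj).2
  have h2 : (1 / 2 : ℝ) ≤ ∑ x ∈ Icc y (y + h), if η x * x < |s x| then 1 / (η x * x) else 0 := by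
    calc (1 / 2 : ℝ) = (η y * y) * (1 / (2 * (η y * y))) := by field_simp
      _ ≤ (h + 1) * (1 / (2 * (η y * y))) := mul_le_mul_of_nonneg_right hhlt.le (by positivity)
      _ = ∑ _x ∈ Icc y (y + h), 1 / (2 * (η y * y)) := by
          rw [sum_const, Nat.card_Icc, nsmul_eq_mul]
          congr 1
          have : y + h + 1 - y = h + 1 := by omega
          rw [this]
          push_cast
          ring
      _ ≤ _ := by
          refine sum_le_sum fun x hx => ?_
          rw [if_pos (hbad x hx).1]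
          exact (hbad x hx).2
  linarith

/-- from summable probabilities to almost all `ω` and all `y` -/
theorem as_general {Ω : Type} [MeasurableSpace Ω] {P : Measure Ω} [IsProbabilityMeasure P] {s : Ω → ℕ → ℝ}
    (hm : ∀ x, Measurable fun ω => s ω x) (hs : ∀ ω x, |s ω (x + 1) - s ω x| ≤ 1) {η : ℕ → ℝ} {x1 : ℕ}
    (hη0 : ∀ x, 0 < η x) (hη1 : ∀ x, x1 ≤ x → η x ≤ 1) (hmono : ∀ x y, x1 ≤ x → x ≤ y → η y ≤ η x)
    (hsum : Summable fun x : ℕ => P.real {ω | η x * x < |s ω x|} / (η x * x)) :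
    ∀ᵐ ω ∂P, ∃ x0 : ℕ, ∀ y, x0 ≤ y → |s ω y| ≤ 4 * (η y * y) := by
  set B : ℕ → Set Ω := fun x => {ω | η x * x < |s ω x|} with hB
  have hBm : ∀ x, MeasurableSet (B x) := fun x => measurableSet_lt measurable_const (continuous_abs.measurable.comp (hm x))
  set f : ℕ → Ω → ENNReal := fun x => (B x).indicator fun _ => ENNReal.ofReal (1 / (η x * x)) with hf
  have hfm : ∀ x, Measurable (f x) := fun x => measurable_const.indicator (hBm x)
  have h1 : ∫⁻ ω, ∑' x, f x ω ∂P = ∑' x, ENNReal.ofReal (P.real (B x) / (η x * x)) := by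
    rw [lintegral_tsum fun x => (hfm x).aemeasurable]
    congr 1
    funext x
    rw [hf]
    simp only
    have e : P.real (B x) / (η x * x) = (1 / (η x * x)) * P.real (B x) := by ring
    rw [lintegral_indicator_const (hBm x), e, ENNReal.ofReal_mul, ofReal_measureReal]
    have := (hη0 x).le
    positivity
  have h2 : ∫⁻ ω, ∑' x, f x ω ∂P ≠ ⊤ := by
    rw [h1]
    exact hsum.tsum_ofReal_ne_top
  have h3 := ae_lt_top (Measurable.ennreal_tsum fun x => hfm x) h2
  filter_upwards [h3] with ω hω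
  have h4 := ENNReal.summable_toReal hω.ne
  refine interp (hs ω) hη0 hη1 hmono (h4.congr fun x => ?_)
  rw [hf]
  simp only
  by_cases h5 : η x * x < |s ω x|
  · rw [Set.indicator_of_mem (show ω ∈ B x from h5), if_pos h5, ENNReal.toReal_ofReal]
    have := (hη0 x).le
    positivity
  · rw [Set.indicator_of_notMem (show ω ∉ B x from h5), if_neg h5]
    simp

end Pool.Agent.L5helper2.CH
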