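import Pool.Agent.L5helper2.CH.B6
import Pool.Agent.L5helper2.CH.B7

/-! Chowla's conjecture for random signs (helper2): the bound for almost all `ω`. -/

set_option autoImplicit false

namespace Pool.Agent.L5helper2.CH

open Finset MeasureTheory ProbabilityTheory Filter

variable {Ω : Type} [MeasurableSpace Ω] {P : Measure Ω} {X : ℕ → Ω → ℝ} {q : ℕ → ℤ} {P0 d : ℕ}

/-- a convergent series -/
lemma summable_log_sq : Summable (fun j : ℕ => 1 / ((j : ℝ) * Real.log j ^ 2)) := by
  -- monotone modification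
  have h1 : Summable (fun j : ℕ => if j ≤ 1 then (3 : ℝ) else 1 / ((j : ℝ) * Real.log j ^ 2)) := by
    rw [← summable_condensed_iff_of_nonneg]
    · have h2 : Summable (fun k : ℕ => 1 / Real.log 2 ^ 2 * (1 / (k : ℝ) ^ 2)) :=
        (Real.summable_one_div_nat_pow.2 (by norm_num)).mul_left _
      refine (summable_congr_atTop ?_).2 h2
      filter_upwards [eventually_ge_atTop 1] with k hk
      have h3 : ¬ (2 ^ k ≤ 1) := by
        have : 2 ^ 1 ≤ 2 ^ k := Nat.pow_le_pow_right (by norm_num) hk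
        omega
      rw [if_neg h3]
      have h4 : (0 : ℝ) < Real.log 2 := Real.log_pos (by norm_num)
      have h5 : (0 : ℝ) < k := by exact_mod_cast hk
      push_cast
      rw [Real.log_pow]
      field_simp
    · intro n
      split_ifs
      · norm_num
      · positivity
    · intro m n hm hmn
      by_cases hn : n ≤ 1
      · rw [if_pos hn, if_pos (by omega)]
      · rw [if_neg hn]
        by_cases hm1 : m ≤ 1
        · rw [if_pos hm1]
          have h2n : (2 : ℝ) ≤ n := by exact_mod_cast (by omega : 2 ≤ n)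
          have h3 : Real.log 2 ≤ Real.log n := Real.log_le_log (by norm_num) h2n
          have h4 := Real.log_two_gt_d9
          have h6 : (0.69 : ℝ) ≤ Real.log n := by linarith
          have h5 : (0.69 : ℝ) ^ 2 ≤ Real.log n ^ 2 := pow_le_pow_left₀ (by norm_num) h6 2
          have h7 : (0 : ℝ) < (n : ℝ) * Real.log n ^ 2 := by positivity
          rw [div_le_iff₀ h7]
          nlinarith
        · rw [if_neg hm1]
          have h2m : (2 : ℝ) ≤ m := by exact_mod_cast (by omega : 2 ≤ m)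
          have hmnR : (m : ℝ) ≤ n := by exact_mod_cast hmn
          have h3 : 0 < Real.log m := Real.log_pos (by linarith)
          have h4 : Real.log m ≤ Real.log n := Real.log_le_log (by linarith) hmnR
          apply one_div_le_one_div_of_le (by positivity)
          gcongr
  refine (summable_congr_atTop ?_).1 h1
  filter_upwards [eventually_ge_atTop 2] with j hj
  rw [if_neg (by omega)]

lemma Signs.Dq_mono (h : Signs P X) (q : ℕ → ℤ) {y z : ℕ} (hyz : y ≤ z) : Dq P X q y ≤ Dq P X q z := by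
  unfold Dq
  refine sum_le_sum_of_subset_of_nonneg ?_ fun p _ _ => mul_nonneg (h.dl_nonneg p) (by positivity)
  intro p hp
  rw [mem_filter, mem_Icc] at hp ⊢
  exact ⟨⟨hp.1.1, hp.1.2.trans hyz⟩, hp.2⟩

lemma Signs.Dq_nonneg (h : Signs P X) (q : ℕ → ℤ) (y : ℕ) : 0 ≤ Dq P X q y :=
  sum_nonneg fun p _ => mul_nonneg (h.dl_nonneg p) (by positivity)

lemma Signs.Dq_le (h : Signs P X) (hq : Good q P0 d) : ∃ C : ℝ, 0 ≤ C ∧ ∀ y : ℕ, 3 ≤ y →
    Dq P X q y ≤ d * (Real.log (Real.log y) + C) + P0 := by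
  obtain ⟨C, hC0, hC⟩ := mert
  refine ⟨C, hC0, fun y hy => ?_⟩
  unfold Dq
  have h1 : ∀ p ∈ (Icc 1 y).filter Nat.Prime, dl P X p * ((rr q p : ℝ) / p) ≤
      d * (1 / (p : ℝ)) + (if p ≤ P0 then 1 else 0) := by
    intro p hp
    rw [mem_filter, mem_Icc] at hp
    have hp0 : (0 : ℝ) < p := by exact_mod_cast hp.2.pos
    have h2 : dl P X p * ((rr q p : ℝ) / p) ≤ (rr q p : ℝ) / p := by
      calc _ ≤ 1 * ((rr q p : ℝ) / p) := mul_le_mul_of_nonneg_right (h.dl_le p) (by positivity)
        _ = _ := one_mul _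
    refine h2.trans ?_
    split_ifs with h3
    · have h4 : (rr q p : ℝ) / p ≤ 1 := by
        rw [div_le_one hp0]
        exact_mod_cast rr_le q p
      have : 0 ≤ (d : ℝ) * (1 / (p : ℝ)) := by positivity
      linarith
    · have h4 : (rr q p : ℝ) ≤ d := by exact_mod_cast hq.root p hp.2 (not_le.1 h3)
      rw [add_zero, mul_one_div]
      exact div_le_div_of_nonneg_right h4 hp0.le
  refine (sum_le_sum h1).trans ?_
  rw [sum_add_distrib, ← mul_sum]
  refine add_le_add (mul_le_mul_of_nonneg_left (hC y hy) (Nat.cast_nonneg d)) ?_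
  rw [sum_boole]
  have : #(((Icc 1 y).filter Nat.Prime).filter fun p => p ≤ P0) ≤ P0 := by
    calc _ ≤ #(Icc 1 P0) := by
          refine card_le_card fun p hp => ?_
          rw [mem_filter, mem_filter, mem_Icc] at hp
          exact mem_Icc.2 ⟨hp.1.1.1, hp.2⟩
      _ = P0 := by rw [Nat.card_Icc]; omega
  exact_mod_cast this

lemma zz_large : ∀ᶠ L : ℝ in atTop, Real.exp (Real.exp (L / 2)) ≤ zz (Real.exp L) L := by
  have ht := Real.tendsto_exp_div_pow_atTop 3
  have h2 : Tendsto (fun L : ℝ => L / 2) atTop atTop := tendsto_id.atTop_div_const (by norm_num)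
  filter_upwards [(ht.comp h2).eventually_ge_atTop 16, eventually_ge_atTop 2] with L hL hL2
  simp only [Function.comp] at hL
  have hL0 : 0 < L := by linarith
  rw [le_div_iff₀ (by positivity)] at hL
  have h3 : 2 * L ^ 3 ≤ Real.exp (L / 2) := by nlinarith
  have h4 : Real.exp (L / 2) ≤ Real.exp L / (2 * L ^ 3) := by
    rw [le_div_iff₀ (by positivity)]
    have : Real.exp L = Real.exp (L / 2) * Real.exp (L / 2) := by rw [← Real.exp_add]; congr 1; ring
    rw [this]
    exact mul_le_mul_of_nonneg_left h3 (Real.exp_pos _).le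
  have h5 : 1 ≤ Real.exp (L / 2) := Real.one_le_exp (by linarith)
  set a := Real.exp L / (2 * L ^ 3) with ha
  have h6 : Real.exp L / L ^ 3 = 2 * a := by rw [ha]; field_simp
  have h7 := Nat.lt_floor_add_one (Real.exp (Real.exp L / L ^ 3))
  unfold zz
  have h8 : Real.exp (2 * a) = Real.exp a * Real.exp a := by rw [← Real.exp_add]; congr 1; ring
  rw [h6, h8] at h7
  rw [h6, h8]
  have h9 : 2 ≤ Real.exp a := by
    have := Real.add_one_le_exp a
    linarith
  have h10 : Real.exp (Real.exp (L / 2)) ≤ Real.exp a := Real.exp_le_exp.2 h4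
  nlinarith

/-- the fourfold logarithm -/
noncomputable def log4 (y : ℝ) : ℝ := Real.log (Real.log (Real.log (Real.log y)))

lemma loglog_half : ∀ᶠ L : ℝ in atTop, Real.log (Real.log L) / 2 ≤ Real.log (Real.log (L / 2)) ∧
    0 < Real.log (L / 2) := by
  have t1 := Real.tendsto_log_atTop
  filter_upwards [t1.eventually_ge_atTop 2, (t1.comp t1).eventually_ge_atTop 2, eventually_ge_atTop 3] with L h1 h2 h3
  simp only [Function.comp] at h2
  have hl2 : Real.log 2 < 1 := by have := Real.log_two_lt_d9; linarith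
  have e : Real.log (L / 2) = Real.log L - Real.log 2 := Real.log_div (by linarith) (by norm_num)
  have h4 : Real.log L / 2 ≤ Real.log (L / 2) := by rw [e]; linarith
  have h5 : Real.log (Real.log L / 2) ≤ Real.log (Real.log (L / 2)) := Real.log_le_log (by linarith) h4
  have h6 : Real.log (Real.log L / 2) = Real.log (Real.log L) - Real.log 2 := Real.log_div (by linarith) (by norm_num)
  exact ⟨by linarith, by linarith⟩

lemma zz_log4 : ∀ᶠ L : ℝ in atTop, Real.log (Real.log L) / 2 ≤ log4 (zz (Real.exp L) L) := by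
  filter_upwards [zz_large, loglog_half, eventually_ge_atTop 3] with L h1 h2 h3
  refine h2.1.trans ?_
  have a1 : Real.exp (L / 2) ≤ Real.log (zz (Real.exp L) L) := by
    rw [Real.le_log_iff_exp_le ((Real.exp_pos _).trans_le h1)]
    exact h1
  have a2 : L / 2 ≤ Real.log (Real.log (zz (Real.exp L) L)) := by
    rw [Real.le_log_iff_exp_le ((Real.exp_pos _).trans_le a1)]
    exact a1
  unfold log4
  exact Real.log_le_log h2.2 (Real.log_le_log (by linarith) a2)

lemma P1_log (P0 : ℕ) {d : ℕ} (hd : 1 ≤ d) : ∀ᶠ L : ℝ in atTop, 3 ≤ P1 P0 d L ∧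
    Real.log (Real.log (P1 P0 d L)) ≤ Real.log 3 + Real.log (Real.log L) := by
  filter_upwards [eventually_ge_atTop ((P0 : ℝ) + 3 + 16 * (d : ℝ) ^ 2)] with L hL
  have hd0 : (0 : ℝ) ≤ 16 * (d : ℝ) ^ 2 := by positivity
  have hP0 : (0 : ℝ) ≤ P0 := Nat.cast_nonneg P0
  have hL3 : 3 ≤ L := by linarith
  have hJ : (JJ L : ℝ) ≤ 4 * L := JJ_le (by linarith)
  have hJ2 : 2 ≤ JJ L := by
    have h1 := JJ_ge (L := L)
    have : (2 : ℝ) ≤ JJ L := by linarith
    exact_mod_cast this
  have h3 : 3 ≤ P1 P0 d L := by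
    unfold P1
    have : 2 * 1 ≤ JJ L * d := Nat.mul_le_mul hJ2 hd
    nlinarith
  refine ⟨h3, ?_⟩
  have h4 : ((P1 P0 d L : ℕ) : ℝ) ≤ L ^ 3 := by
    unfold P1
    push_cast
    have h5 : ((JJ L : ℝ) * d) ^ 2 ≤ 16 * (d : ℝ) ^ 2 * L ^ 2 := by
      have h6 : (JJ L : ℝ) * d ≤ 4 * L * d := mul_le_mul_of_nonneg_right hJ (Nat.cast_nonneg d)
      have h7 : ((JJ L : ℝ) * d) ^ 2 ≤ (4 * L * d) ^ 2 := pow_le_pow_left₀ (by positivity) h6 2
      linarith [h7]
    have h8 : (1 : ℝ) ≤ L ^ 2 := one_le_pow₀ (by linarith)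
    have h9 : (P0 : ℝ) + 1 ≤ (P0 + 1) * L ^ 2 := by nlinarith
    have h10 : (P0 + 1 + 16 * (d : ℝ) ^ 2) * L ^ 2 ≤ L * L ^ 2 := mul_le_mul_of_nonneg_right (by linarith) (by positivity)
    nlinarith
  have h5 : (3 : ℝ) ≤ (P1 P0 d L : ℕ) := by exact_mod_cast h3
  have h6 : Real.log (P1 P0 d L : ℕ) ≤ 3 * Real.log L := by
    have := Real.log_le_log (by linarith) h4
    rwa [Real.log_pow] at this
  have h7 : 0 < Real.log (P1 P0 d L : ℕ) := Real.log_pos (by linarith)
  have h8 : 0 < Real.log L := Real.log_pos (by linarith)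
  calc Real.log (Real.log (P1 P0 d L : ℕ)) ≤ Real.log (3 * Real.log L) := Real.log_le_log h7 h6
    _ = _ := Real.log_mul (by norm_num) h8.ne'

/-- the small primes do not matter -/
lemma Signs.small_primes (h : Signs P X) (hq : Good q P0 d) (hd : 1 ≤ d)
    (hD : Tendsto (fun y : ℕ => Dq P X q y / log4 y) atTop atTop) {a : ℝ} (ha : 0 < a) :
    ∀ᶠ L : ℝ in atTop, 1 ≤ a * Dq P X q (zz (Real.exp L) L) - Dq P X q (P1 P0 d L) := by
  obtain ⟨C, hC0, hC⟩ := h.Dq_le hq
  obtain ⟨y0, hy0⟩ := eventually_atTop.1 (hD.eventually_ge_atTop ((2 * (2 * (d : ℝ) + 2)) / a))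
  have t1 := Real.tendsto_log_atTop
  have hM := (t1.comp t1).eventually_ge_atTop (max 1 (Real.log 3 + C + P0))
  filter_upwards [zz_large, zz_log4, P1_log P0 hd, hM, eventually_ge_atTop (2 * (y0 : ℝ))] with L h1 h2 h3 h4 h5
  simp only [Function.comp] at h4
  set M := Real.log (Real.log L) with hMdef
  have hM1 : 1 ≤ M := (le_max_left _ _).trans h4
  have hM2 : Real.log 3 + C + P0 ≤ M := (le_max_right _ _).trans h4
  have hzy : y0 ≤ zz (Real.exp L) L := by
    have h6 : (y0 : ℝ) ≤ zz (Real.exp L) L := by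
      have h7 := Real.add_one_le_exp (Real.exp (L / 2))
      have h8 := Real.add_one_le_exp (L / 2)
      linarith
    exact_mod_cast h6
  have h6 := hy0 _ hzy
  have hpos : 0 < log4 (zz (Real.exp L) L) := by linarith
  rw [le_div_iff₀ hpos] at h6
  have hd1 : (1 : ℝ) ≤ d := by exact_mod_cast hd
  have h7 : (2 * (d : ℝ) + 2) * M ≤ a * Dq P X q (zz (Real.exp L) L) := by
    calc (2 * (d : ℝ) + 2) * M = a * ((2 * (2 * (d : ℝ) + 2)) / a * (M / 2)) := by field_simp
      _ ≤ a * ((2 * (2 * (d : ℝ) + 2)) / a * log4 (zz (Real.exp L) L)) := by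
          refine mul_le_mul_of_nonneg_left (mul_le_mul_of_nonneg_left h2 (by positivity)) ha.le
      _ ≤ _ := mul_le_mul_of_nonneg_left h6 ha.le
  have h8 : Dq P X q (P1 P0 d L) ≤ (2 * d + 1) * M := by
    refine (hC _ h3.1).trans ?_
    have h9 : (d : ℝ) * (Real.log (Real.log (P1 P0 d L)) + C) ≤ d * (M + M) :=
      mul_le_mul_of_nonneg_left (by
        have := h3.2
        have hP0 : (0 : ℝ) ≤ P0 := Nat.cast_nonneg P0
        linarith) (by linarith)
    have hl3 : 0 ≤ Real.log 3 := Real.log_nonneg (by norm_num)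
    nlinarith
  linarith

lemma exp_div_mono {L L' : ℝ} (hL : 3 ≤ L) (hLL : L ≤ L') : Real.exp L / L ^ 3 ≤ Real.exp L' / L' ^ 3 := by
  have hL0 : 0 < L := by linarith
  have hL0' : 0 < L' := by linarith
  rw [div_le_div_iff₀ (by positivity) (by positivity)]
  have h1 : L' ≤ L * Real.exp ((L' - L) / 3) := by
    have h2 := Real.add_one_le_exp ((L' - L) / 3)
    have h3 : L * ((L' - L) / 3 + 1) ≤ L * Real.exp ((L' - L) / 3) := mul_le_mul_of_nonneg_left h2 hL0.le
    have h4 : L' ≤ L * ((L' - L) / 3 + 1) := by nlinarith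
    linarith
  have h2 : L' ^ 3 ≤ L ^ 3 * Real.exp (L' - L) := by
    calc L' ^ 3 ≤ (L * Real.exp ((L' - L) / 3)) ^ 3 := pow_le_pow_left₀ hL0'.le h1 3
      _ = L ^ 3 * Real.exp (L' - L) := by
          rw [mul_pow, ← Real.exp_nat_mul]
          congr 2
          push_cast
          ring
  calc Real.exp L * L' ^ 3 ≤ Real.exp L * (L ^ 3 * Real.exp (L' - L)) := mul_le_mul_of_nonneg_left h2 (Real.exp_pos _).le
    _ = (Real.exp L * Real.exp (L' - L)) * L ^ 3 := by ring
    _ = Real.exp L' * L ^ 3 := by rw [← Real.exp_add]; congr 2; ring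

lemma tend_LL : Tendsto (fun x : ℕ => Real.log (Real.log x)) atTop atTop :=
  Real.tendsto_log_atTop.comp (Real.tendsto_log_atTop.comp tendsto_natCast_atTop_atTop)

/-- the level at `x` -/
noncomputable def zx (x : ℕ) : ℕ := zz (Real.log x) (Real.log (Real.log x))

lemma zx_mono {x y : ℕ} (hx : 3 ≤ Real.log (Real.log x)) (hx1 : 1 < Real.log x) (hxy : x ≤ y) : zx x ≤ zx y := by
  unfold zx zz
  have hx0 : (0 : ℝ) < x := by
    rcases Nat.eq_zero_or_pos x with h | h
    · subst h
      simp at hx1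
      linarith
    · exact_mod_cast h
  have hxy' : (x : ℝ) ≤ y := by exact_mod_cast hxy
  have h1 : Real.log x ≤ Real.log y := Real.log_le_log hx0 hxy'
  have h2 : Real.log (Real.log x) ≤ Real.log (Real.log y) := Real.log_le_log (by linarith) h1
  refine Nat.floor_le_floor (Real.exp_le_exp.2 ?_)
  have h3 := exp_div_mono hx h2
  rwa [Real.exp_log (by linarith), Real.exp_log (by linarith)] at h3

/-- the probability of the bad set -/
lemma Signs.bad (h : Signs P X) (hq : Good q P0 d) (hd : 1 ≤ d)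
    (hD : Tendsto (fun y : ℕ => Dq P X q y / log4 y) atTop atTop) {c : ℕ → ℝ} (hc : ∀ n, |c n| ≤ 1) {ε : ℝ}
    (hε : 0 < ε) (hε1 : ε < 1) :
    ∀ᶠ x : ℕ in atTop, P.real {ω | Real.exp (-((1 - ε) * Dq P X q (zx x))) * x < |SS X c q ω x|} /
      (Real.exp (-((1 - ε) * Dq P X q (zx x))) * x) ≤ 5 * (1 / ((x : ℝ) * Real.log x ^ 2)) := by
  have hP := h.prob
  obtain ⟨C, L0, hC0, hL0, hmom⟩ := h.mom hq
  obtain ⟨C', hC'0, hC'⟩ := h.Dq_le hq
  have hsp := h.small_primes hq hd hD (half_pos hε)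
  have ht := Real.tendsto_exp_div_pow_atTop 3
  set B : ℝ := 24 * d * (1 + C') + 4 with hB
  filter_upwards [tend_LL.eventually hsp, tend_LL.eventually (eventually_ge_atTop L0),
    tend_LL.eventually (ht.eventually_ge_atTop B), tend_LL.eventually zz_large,
    tend_LL.eventually (eventually_ge_atTop (4 * (P0 : ℝ) + 4 * C' + 3)),
    tend_LL.eventually (eventually_ge_atTop (2 / ε)),
    (Real.tendsto_log_atTop.comp tendsto_natCast_atTop_atTop).eventually_ge_atTop 3,
    eventually_ge_atTop 1] with x e1 e2 e3 e4 e5 e6 e7 e8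
  simp only [Function.comp] at e7
  set ℓ := Real.log (x : ℝ) with hℓ
  set L := Real.log ℓ with hL
  have hℓ0 : 0 < ℓ := by linarith
  have hℓL : Real.exp L = ℓ := by rw [hL, Real.exp_log hℓ0]
  rw [hℓL] at e1 e3 e4
  have hx0 : (0 : ℝ) < x := by exact_mod_cast e8
  have hP00 : (0 : ℝ) ≤ P0 := Nat.cast_nonneg P0
  have hd1 : (1 : ℝ) ≤ d := by exact_mod_cast hd
  have hLpos : 3 ≤ L := by linarith
  have hzx : zx x = zz ℓ L := rfl
  rw [hzx]
  set z := zz ℓ L with hz
  set Dz := Dq P X q z with hDz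
  set Dp := Dq P X q (P1 P0 d L) with hDp
  set J := JJ L with hJ
  have hDz0 : 0 ≤ Dz := h.Dq_nonneg q z
  have hJge : 2 * L ≤ J := JJ_ge
  have hJle : (J : ℝ) ≤ 4 * L := JJ_le (by linarith)
  have hJeven : Even J := ⟨⌈L⌉₊, by rw [hJ]; unfold JJ; ring⟩
  set η := Real.exp (-((1 - ε) * Dz)) with hη
  have hη0 : 0 < η := Real.exp_pos _
  -- the moment
  have h1 := hmom c hc x ℓ L hℓ hL e2 hℓ0
  rw [← hz, ← hDz, ← hDp, ← hJ] at h1
  -- Markov
  have h2 : (η * x) ^ J * P.real {ω | η * x < |SS X c q ω x|} ≤ ∫ ω, SS X c q ω x ^ J ∂P := by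
    have h3 := mul_meas_ge_le_integral_of_nonneg (μ := P) (f := fun ω => SS X c q ω x ^ J)
      (Eventually.of_forall fun ω => hJeven.pow_nonneg _)
      (Integrable.of_bound ((h.meas_SS c q x).pow_const J).aestronglyMeasurable ((x : ℝ) ^ J)
        (Eventually.of_forall fun ω => by
          rw [Real.norm_eq_abs, abs_pow]
          refine pow_le_pow_left₀ (abs_nonneg _) ?_ _
          unfold SS
          refine (abs_sum_le_sum_abs _ _).trans ?_
          calc ∑ n ∈ Ioc 0 x, |c n * FF X ω (q n).natAbs| ≤ ∑ _n ∈ Ioc 0 x, (1 : ℝ) := by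
                refine sum_le_sum fun n _ => ?_
                rw [abs_mul]
                exact mul_le_one₀ (hc n) (abs_nonneg _) (h.abs_FF ω _)
            _ = x := by simp)) ((η * x) ^ J)
    refine le_trans ?_ h3
    refine mul_le_mul_of_nonneg_left ?_ (by positivity)
    refine measureReal_mono ?_ (measure_ne_top P _)
    intro ω hω
    have h4 : η * x < |SS X c q ω x| := hω
    show (η * x) ^ J ≤ SS X c q ω x ^ J
    rw [← hJeven.pow_abs (SS X c q ω x)]
    exact pow_le_pow_left₀ (by positivity) h4.le J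
  set Pb := P.real {ω | η * x < |SS X c q ω x|} with hPb
  set E := 3 * Real.exp (-(J * (Dz - Dp))) + Real.exp (-(8 * J * d * (L + C))) + Real.exp (-(ℓ / 2)) with hE
  have h3 : η ^ J * Pb ≤ E := by
    have h4 : (η * x) ^ J * Pb ≤ (x : ℝ) ^ J * E := h2.trans ((le_abs_self _).trans h1)
    rw [mul_pow] at h4
    have hxJ : 0 < (x : ℝ) ^ J := by positivity
    have h5 : (x : ℝ) ^ J * (η ^ J * Pb) ≤ (x : ℝ) ^ J * E := by linarith [h4]
    exact le_of_mul_le_mul_left h5 hxJ
  -- multiply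
  have h4 : Pb / η ≤ Real.exp ((J + 1) * ((1 - ε) * Dz)) * E := by
    have h5 : Real.exp ((J + 1) * ((1 - ε) * Dz)) * (η ^ J * Pb) = Pb / η := by
      have h6 : Real.exp ((J + 1) * ((1 - ε) * Dz)) = (η ^ J * η)⁻¹ := by
        rw [hη, ← Real.exp_nat_mul, ← Real.exp_add, ← Real.exp_neg]
        congr 1
        ring
      rw [h6]
      field_simp
    rw [← h5]
    exact mul_le_mul_of_nonneg_left h3 (Real.exp_pos _).le
  have hDzle : Dz ≤ d * (L + C') + P0 := by
    have hz3 : 3 ≤ z := by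
      have h5 := Real.add_one_le_exp (Real.exp (L / 2))
      have h6 := Real.add_one_le_exp (L / 2)
      have : (3 : ℝ) ≤ z := by linarith
      exact_mod_cast this
    refine (hC' z hz3).trans ?_
    have hzx' : z ≤ x := by
      rw [hz]
      unfold zz
      refine Nat.floor_le_of_le ?_
      have hxe : (x : ℝ) = Real.exp ℓ := by rw [hℓ, Real.exp_log hx0]
      rw [hxe]
      refine Real.exp_le_exp.2 ?_
      rw [div_le_iff₀ (by positivity)]
      have : (1 : ℝ) ≤ L ^ 3 := one_le_pow₀ (by linarith)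
      nlinarith
    have hz1 : (1 : ℝ) < z := by exact_mod_cast (by omega : 1 < z)
    have : Real.log (Real.log z) ≤ L := by
      rw [hL, hℓ]
      refine Real.log_le_log (Real.log_pos hz1) (Real.log_le_log (by linarith) ?_)
      exact_mod_cast hzx'
    have := mul_le_mul_of_nonneg_left (add_le_add_left this C') (by linarith : (0 : ℝ) ≤ d)
    linarith
  have hJ1 : (1 : ℝ) ≤ J := by linarith
  have h1ε : (1 - ε) * Dz ≤ Dz := by nlinarith
  have h1ε0 : 0 ≤ (1 - ε) * Dz := mul_nonneg (by linarith) hDz0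
  have hJDz : (J + 1) * ((1 - ε) * Dz) ≤ 3 * (J * d * L) := by
    have h5 : (J + 1) * ((1 - ε) * Dz) ≤ (2 * J) * (d * (L + C') + P0) :=
      mul_le_mul (by linarith) (h1ε.trans hDzle) h1ε0 (by linarith)
    have h6 : d * (L + C') + P0 ≤ d * ((3 / 2) * L) := by
      have h7 : d * (L + C') + P0 ≤ d * (L + C' + P0) := by nlinarith
      have h8 : L + C' + P0 ≤ (3 / 2) * L := by linarith
      exact h7.trans (mul_le_mul_of_nonneg_left h8 (by linarith))
    have h9 := mul_le_mul_of_nonneg_left h6 (by linarith : (0 : ℝ) ≤ 2 * J)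
    linarith
  have t1 : Real.exp ((J + 1) * ((1 - ε) * Dz)) * (3 * Real.exp (-(J * (Dz - Dp)))) ≤ 3 * Real.exp (-(2 * L)) := by
    have e : Real.exp ((J + 1) * ((1 - ε) * Dz)) * (3 * Real.exp (-(J * (Dz - Dp)))) =
        3 * Real.exp ((J + 1) * ((1 - ε) * Dz) + -(J * (Dz - Dp))) := by
      rw [Real.exp_add]; ring
    rw [e]
    refine mul_le_mul_of_nonneg_left (Real.exp_le_exp.2 ?_) (by norm_num)
    have h5 : (1 - ε) * Dz ≤ J * ((ε / 2) * Dz) := by
      have h6 : 1 ≤ J * (ε / 2) := by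
        have h7 : 2 / ε ≤ J := by linarith
        rw [div_le_iff₀ hε] at h7
        linarith
      nlinarith
    have h6 : J * 1 ≤ J * (ε / 2 * Dz - Dp) := mul_le_mul_of_nonneg_left e1 (by linarith)
    nlinarith
  have t2 : Real.exp ((J + 1) * ((1 - ε) * Dz)) * Real.exp (-(8 * J * d * (L + C))) ≤ Real.exp (-(2 * L)) := by
    rw [← Real.exp_add]
    refine Real.exp_le_exp.2 ?_
    have h5 : J * d * L ≤ J * d * (L + C) := mul_le_mul_of_nonneg_left (by linarith) (by positivity)
    have h6 : 1 * 1 * L ≤ J * d * L := by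
      refine mul_le_mul_of_nonneg_right ?_ (by linarith)
      exact mul_le_mul hJ1 hd1 (by norm_num) (by linarith)
    nlinarith
  have t3 : Real.exp ((J + 1) * ((1 - ε) * Dz)) * Real.exp (-(ℓ / 2)) ≤ Real.exp (-(2 * L)) := by
    rw [← Real.exp_add]
    refine Real.exp_le_exp.2 ?_
    rw [le_div_iff₀ (by positivity)] at e3
    have h5 : J * d * L ≤ 4 * L * d * L := by
      refine mul_le_mul_of_nonneg_right ?_ (by linarith)
      exact mul_le_mul_of_nonneg_right hJle (by linarith)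
    have h6 : L ^ 2 ≤ L ^ 3 := by
      have : L ^ 3 = L ^ 2 * L := by ring
      nlinarith [sq_nonneg L]
    have h7 : L ≤ L ^ 3 := by nlinarith [sq_nonneg L]
    have h8 : 24 * d * L ^ 3 + 4 * L ^ 3 ≤ B * L ^ 3 := by
      rw [← add_mul]
      refine mul_le_mul_of_nonneg_right ?_ (by positivity)
      rw [hB]
      have : 0 ≤ 24 * (d : ℝ) * C' := by positivity
      linarith
    have h9 : d * L ^ 2 ≤ d * L ^ 3 := mul_le_mul_of_nonneg_left h6 (by linarith)
    nlinarith
  have h5 : Pb / η ≤ 5 * Real.exp (-(2 * L)) := by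
    refine h4.trans ?_
    rw [hE, mul_add, mul_add]
    linarith
  have h6 : Real.exp (-(2 * L)) = 1 / ℓ ^ 2 := by
    rw [Real.exp_neg, one_div]
    congr 1
    rw [two_mul, Real.exp_add, hℓL]
    ring
  rw [h6] at h5
  calc Pb / (η * x) = (Pb / η) * (1 / x) := by field_simp
    _ ≤ (5 * (1 / ℓ ^ 2)) * (1 / x) := mul_le_mul_of_nonneg_right h5 (by positivity)
    _ = _ := by ring

/-- the main bound -/
theorem Signs.as_main (h : Signs P X) (hq : Good q P0 d) (hd : 1 ≤ d)
    (hD : Tendsto (fun y : ℕ => Dq P X q y / log4 y) atTop atTop) {c : ℕ → ℝ} (hc : ∀ n, |c n| ≤ 1) {ε : ℝ}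
    (hε : 0 < ε) (hε1 : ε < 1) :
    ∀ᵐ ω ∂P, ∃ x0 : ℕ, ∀ x, x0 ≤ x → |SS X c q ω x| ≤ x * Real.exp (-((1 - ε) * Dq P X q (zx x))) := by
  have hP := h.prob
  have hε2 : 0 < ε / 2 := half_pos hε
  obtain ⟨x1, hx1⟩ := eventually_atTop.1 ((tend_LL.eventually_ge_atTop 3).and
    ((Real.tendsto_log_atTop.comp tendsto_natCast_atTop_atTop).eventually_gt_atTop 1))
  have h1 := as_general (P := P) (s := fun ω x => SS X c q ω x) (fun x => h.meas_SS c q x)
    (fun ω x => by
      unfold SS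
      rw [← Finset.insert_Ioc_right_eq_Ioc_add_one (Nat.zero_le x), sum_insert (by simp), add_sub_cancel_right, abs_mul]
      exact mul_le_one₀ (hc _) (abs_nonneg _) (h.abs_FF ω _))
    (η := fun x => Real.exp (-((1 - ε / 2) * Dq P X q (zx x)))) (x1 := x1) (fun x => Real.exp_pos _)
    (fun x _ => by
      rw [Real.exp_le_one_iff]
      have := h.Dq_nonneg q (zx x)
      nlinarith)
    (fun x y hx hxy => by
      refine Real.exp_le_exp.2 (neg_le_neg (mul_le_mul_of_nonneg_left ?_ (by linarith)))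
      exact h.Dq_mono q (zx_mono (hx1 x hx).1 (hx1 x hx).2 hxy))
    (by
      refine Summable.of_norm_bounded_eventually_nat (summable_log_sq.mul_left 5) ?_
      filter_upwards [h.bad hq hd hD hc hε2 (by linarith)] with x hx
      rw [Real.norm_of_nonneg (by positivity)]
      exact hx)
  have h2 := h.small_primes hq hd hD (half_pos hε2)
  obtain ⟨x2, hx2⟩ := eventually_atTop.1 (tend_LL.eventually h2)
  filter_upwards [h1] with ω hω
  obtain ⟨x0, hx0⟩ := hω
  refine ⟨max (max x0 x1) x2, fun x hx => ?_⟩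
  have a1 : x0 ≤ x := (le_max_left _ _).trans ((le_max_left _ _).trans hx)
  have a2 : x1 ≤ x := (le_max_right _ _).trans ((le_max_left _ _).trans hx)
  have a3 : x2 ≤ x := (le_max_right _ _).trans hx
  refine (hx0 x a1).trans ?_
  have h3 := hx2 x a3
  have h4 : Real.exp (Real.log (Real.log x)) = Real.log x := by
    rw [Real.exp_log]
    have := (hx1 x a2).2
    simp only [Function.comp] at this
    linarith
  rw [h4] at h3
  have h5 : 0 ≤ Dq P X q (P1 P0 d (Real.log (Real.log x))) := h.Dq_nonneg q _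
  have hDe : Dq P X q (zx x) = Dq P X q (zz (Real.log x) (Real.log (Real.log x))) := rfl
  rw [← hDe] at h3
  set Dz := Dq P X q (zx x) with hDz
  have h6 : 4 ≤ Real.exp (ε / 2 * Dz) := by
    have h7 : 2 ≤ ε / 2 * Dz := by linarith
    have h8 : Real.exp 2 ≤ Real.exp (ε / 2 * Dz) := Real.exp_le_exp.2 h7
    have h9 : Real.exp 2 = Real.exp 1 * Real.exp 1 := by rw [← Real.exp_add]; norm_num
    have h10 := Real.exp_one_gt_d9
    nlinarith
  have h7 : Real.exp (-((1 - ε) * Dz)) = Real.exp (ε / 2 * Dz) * Real.exp (-((1 - ε / 2) * Dz)) := by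
    rw [← Real.exp_add]; congr 1; ring
  rw [h7]
  have h8 := Real.exp_pos (-((1 - ε / 2) * Dz))
  have hx0' : (0 : ℝ) ≤ x := Nat.cast_nonneg x
  calc 4 * (Real.exp (-((1 - ε / 2) * Dz)) * x) = x * (4 * Real.exp (-((1 - ε / 2) * Dz))) := by ring
    _ ≤ _ := mul_le_mul_of_nonneg_left (mul_le_mul_of_nonneg_right h6 h8.le) hx0'

end Pool.Agent.L5helper2.CH
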