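import Pool.Agent.L5helper2.CH.B8

/-! Chowla's conjecture for random signs (helper2): polynomials. -/

set_option autoImplicit false

namespace Pool.Agent.L5helper2.CH

open Finset MeasureTheory ProbabilityTheory Filter
open scoped Polynomial

/-- Bezout with denominators -/
theorem bezout (F G : ℤ[X]) (h : IsCoprime (F.map (Int.castRingHom ℚ)) (G.map (Int.castRingHom ℚ))) :
    ∃ (U V : ℤ[X]) (R : ℤ), R ≠ 0 ∧ U * F + V * G = Polynomial.C R := by
  obtain ⟨u, v, huv⟩ := h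
  obtain ⟨b, hb, hbu⟩ := IsLocalization.integerNormalization_spec (nonZeroDivisors ℤ) u
  obtain ⟨c, hc, hcv⟩ := IsLocalization.integerNormalization_spec (nonZeroDivisors ℤ) v
  set U := IsLocalization.integerNormalization (nonZeroDivisors ℤ) u
  set V := IsLocalization.integerNormalization (nonZeroDivisors ℤ) v
  have hb0 : b ≠ 0 := nonZeroDivisors.ne_zero hb
  have hc0 : c ≠ 0 := nonZeroDivisors.ne_zero hc
  refine ⟨Polynomial.C c * U, Polynomial.C b * V, b * c, mul_ne_zero hb0 hc0, ?_⟩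
  apply Polynomial.map_injective (Int.castRingHom ℚ) Int.cast_injective
  have e1 : U.map (Int.castRingHom ℚ) = Polynomial.C (b : ℚ) * u := by
    have : U.map (Int.castRingHom ℚ) = b • u := hbu
    rw [this, zsmul_eq_mul]
    simp
  have e2 : V.map (Int.castRingHom ℚ) = Polynomial.C (c : ℚ) * v := by
    have : V.map (Int.castRingHom ℚ) = c • v := hcv
    rw [this, zsmul_eq_mul]
    simp
  rw [Polynomial.map_add, Polynomial.map_mul, Polynomial.map_mul, Polynomial.map_mul,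
    Polynomial.map_mul, Polynomial.map_C, Polynomial.map_C, Polynomial.map_C, e1, e2, eq_intCast,
    eq_intCast, eq_intCast]
  have : Polynomial.C (c : ℚ) * (Polynomial.C (b : ℚ) * u) * F.map (Int.castRingHom ℚ) +
      Polynomial.C (b : ℚ) * (Polynomial.C (c : ℚ) * v) * G.map (Int.castRingHom ℚ) =
      Polynomial.C (b : ℚ) * Polynomial.C (c : ℚ) * (u * F.map (Int.castRingHom ℚ) + v * G.map (Int.castRingHom ℚ)) := by
    ring
  rw [this, huv, mul_one, ← Polynomial.C_mul]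
  push_cast
  rfl

/-- the values of a polynomial -/
def ev (Q : ℤ[X]) (n : ℕ) : ℤ := Q.eval (n : ℤ)

lemma rr_le_deg (Q : ℤ[X]) {p : ℕ} (hp : p.Prime) (hl : ¬ (p : ℤ) ∣ Q.leadingCoeff) :
    rr (ev Q) p ≤ Q.natDegree := by
  have : Fact p.Prime := ⟨hp⟩
  obtain ⟨Hp, hHp⟩ : ∃ Hp : (ZMod p)[X], Hp = Q.map (Int.castRingHom (ZMod p)) := ⟨_, rfl⟩
  have hne : Hp ≠ 0 := by
    intro h0
    apply hl
    have h1 : Hp.coeff Q.natDegree = 0 := by rw [h0, Polynomial.coeff_zero]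
    rw [hHp, Polynomial.coeff_map] at h1
    rw [← ZMod.intCast_zmod_eq_zero_iff_dvd]
    simpa using h1
  have hev : ∀ x : ℤ, ((p : ℤ) ∣ Q.eval x) ↔ Hp.eval (x : ZMod p) = 0 := by
    intro x
    rw [← ZMod.intCast_zmod_eq_zero_iff_dvd, hHp]
    have h := Polynomial.eval_intCast_map (Int.castRingHom (ZMod p)) Q x
    simp only [eq_intCast, Int.cast_id] at h
    rw [h]
  have h1 : rr (ev Q) p ≤ #Hp.roots.toFinset := by
    unfold rr ev
    apply card_le_card_of_injOn (fun a : ℕ => (a : ZMod p))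
    · intro a ha
      rw [mem_coe, mem_filter] at ha
      rw [mem_coe, Multiset.mem_toFinset, Polynomial.mem_roots hne]
      have := (hev a).1 ha.2
      simpa using this
    · intro a ha b hb hab
      rw [mem_coe, mem_filter, mem_range] at ha hb
      simp only at hab
      have h2 := congrArg ZMod.val hab
      rwa [ZMod.val_cast_of_lt ha.1, ZMod.val_cast_of_lt hb.1] at h2
  refine h1.trans ((Multiset.toFinset_card_le _).trans ((Polynomial.card_roots' _).trans ?_))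
  rw [hHp]
  exact Polynomial.natDegree_map_le

lemma not_dvd_of_lt {p : ℕ} {R : ℤ} (hR : R ≠ 0) (h : R.natAbs < p) : ¬ (p : ℤ) ∣ R := by
  intro h1
  have h2 : p ∣ R.natAbs := Int.natCast_dvd.1 h1
  have := Nat.le_of_dvd (Int.natAbs_pos.2 hR) h2
  omega

lemma ev_sub (Q : ℤ[X]) (m n : ℕ) : (m : ℤ) ∣ ev Q n - ev Q (n % m) := by
  unfold ev
  refine dvd_trans ?_ (Polynomial.sub_dvd_eval_sub (n : ℤ) ((n % m : ℕ) : ℤ) Q)
  push_cast
  exact Int.dvd_self_sub_emod

/-- a polynomial without multiple roots gives a good sequence -/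
lemma good_poly {Q : ℤ[X]} (hQ : (Q.map (Int.castRingHom ℚ)).Separable) :
    ∃ P0 : ℕ, Good (ev Q) P0 Q.natDegree := by
  have hQ0 : Q ≠ 0 := by
    rintro rfl
    rw [Polynomial.map_zero] at hQ
    exact hQ.ne_zero rfl
  have hco : IsCoprime (Q.map (Int.castRingHom ℚ)) ((Polynomial.derivative Q).map (Int.castRingHom ℚ)) := by
    have := hQ
    rw [Polynomial.Separable, Polynomial.derivative_map] at this
    exact this
  obtain ⟨U, V, R, hR, hUV⟩ := bezout Q (Polynomial.derivative Q) hco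
  refine ⟨R.natAbs + Q.leadingCoeff.natAbs, ⟨ev_sub Q, ?_, ?_⟩⟩
  · intro p hp hpP b c hbc hb hc
    have hpR : ¬ (p : ℤ) ∣ R := not_dvd_of_lt hR (by omega)
    have hder : ¬ (p : ℤ) ∣ (Polynomial.derivative Q).eval (c : ℤ) := by
      intro h1
      apply hpR
      have h2 := congrArg (Polynomial.eval (c : ℤ)) hUV
      rw [Polynomial.eval_add, Polynomial.eval_mul, Polynomial.eval_mul, Polynomial.eval_C] at h2
      rw [← h2]
      refine dvd_add (dvd_mul_of_dvd_right ?_ _) (dvd_mul_of_dvd_right h1 _)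
      exact (Dvd.intro_left _ (by ring : (p : ℤ) * p = (p : ℤ) ^ 2)).trans hc
    obtain ⟨k, hk⟩ := Polynomial.binomExpansion Q (c : ℤ) ((b : ℤ) - c)
    have e : (c : ℤ) + ((b : ℤ) - c) = b := by ring
    rw [e] at hk
    unfold ev at hb hc
    have h3 : (p : ℤ) ^ 2 ∣ (Polynomial.derivative Q).eval (c : ℤ) * ((b : ℤ) - c) := by
      have h4 : (Polynomial.derivative Q).eval (c : ℤ) * ((b : ℤ) - c) =
          Q.eval (b : ℤ) - Q.eval (c : ℤ) - k * ((b : ℤ) - c) ^ 2 := by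
        rw [hk]; ring
      rw [h4]
      exact dvd_sub (dvd_sub hb hc) (dvd_mul_of_dvd_right (pow_dvd_pow_of_dvd hbc 2) _)
    have h5 : IsCoprime ((p : ℤ) ^ 2) ((Polynomial.derivative Q).eval (c : ℤ)) := by
      refine IsCoprime.pow_left ?_
      rw [(Nat.prime_iff_prime_int.1 hp).coprime_iff_not_dvd]
      exact hder
    exact h5.dvd_of_dvd_mul_left h3
  · intro p hp hpP
    exact rr_le_deg Q hp (not_dvd_of_lt (Polynomial.leadingCoeff_ne_zero.2 hQ0) (by omega))

/-- the roots of a product modulo large primes -/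
lemma rr_prod {ι : Type*} (s : Finset ι) (G : ι → ℤ[X])
    (hco : ∀ i ∈ s, ∀ j ∈ s, i ≠ j → IsCoprime ((G i).map (Int.castRingHom ℚ)) ((G j).map (Int.castRingHom ℚ))) :
    ∃ P0 : ℕ, ∀ p : ℕ, p.Prime → P0 < p → ∑ i ∈ s, rr (ev (G i)) p ≤ rr (ev (∏ i ∈ s, G i)) p := by
  classical
  have hR : ∀ i ∈ s, ∀ j ∈ s, i ≠ j → ∃ R : ℤ, R ≠ 0 ∧ ∀ p c : ℕ, (p : ℤ) ∣ ev (G i) c → (p : ℤ) ∣ ev (G j) c →
      (p : ℤ) ∣ R := by
    intro i hi j hj hij
    obtain ⟨U, V, R, hR, hUV⟩ := bezout _ _ (hco i hi j hj hij)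
    refine ⟨R, hR, fun p c h1 h2 => ?_⟩
    have h3 := congrArg (Polynomial.eval (c : ℤ)) hUV
    rw [Polynomial.eval_add, Polynomial.eval_mul, Polynomial.eval_mul, Polynomial.eval_C] at h3
    rw [← h3]
    exact dvd_add (dvd_mul_of_dvd_right h1 _) (dvd_mul_of_dvd_right h2 _)
  choose! R hR0 hRd using hR
  refine ⟨∑ i ∈ s, ∑ j ∈ s, (R i j).natAbs, fun p hp hpP => ?_⟩
  unfold rr
  rw [← card_biUnion]
  · refine card_le_card fun c hc => ?_
    rw [mem_biUnion] at hc
    obtain ⟨i, hi, hc⟩ := hc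
    rw [mem_filter] at hc ⊢
    refine ⟨hc.1, ?_⟩
    unfold ev at hc ⊢
    rw [Polynomial.eval_prod]
    exact hc.2.trans (dvd_prod_of_mem _ hi)
  · intro i hi j hj hij
    rw [Function.onFun, disjoint_left]
    intro c hc hc'
    rw [mem_filter] at hc hc'
    have h1 := hRd i hi j hj hij p c hc.2 hc'.2
    refine not_dvd_of_lt (hR0 i hi j hj hij) ?_ h1
    refine lt_of_le_of_lt ?_ hpP
    calc (R i j).natAbs ≤ ∑ j ∈ s, (R i j).natAbs := single_le_sum (f := fun j => (R i j).natAbs) (fun _ _ => Nat.zero_le _) hj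
      _ ≤ _ := single_le_sum (f := fun i => ∑ j ∈ s, (R i j).natAbs) (fun _ _ => Nat.zero_le _) hi

variable {Ω : Type} [MeasurableSpace Ω] {P : Measure Ω} {X : ℕ → Ω → ℝ}

lemma Signs.Dq_prod (h : Signs P X) {ι : Type*} (s : Finset ι) (G : ι → ℤ[X])
    (hco : ∀ i ∈ s, ∀ j ∈ s, i ≠ j → IsCoprime ((G i).map (Int.castRingHom ℚ)) ((G j).map (Int.castRingHom ℚ))) :
    ∃ C : ℝ, ∀ y : ℕ, ∑ i ∈ s, Dq P X (ev (G i)) y ≤ Dq P X (ev (∏ i ∈ s, G i)) y + C := by
  obtain ⟨P0, hP0⟩ := rr_prod s G hco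
  refine ⟨P0 * #s, fun y => ?_⟩
  unfold Dq
  rw [sum_comm]
  have h1 : ∀ p ∈ (Icc 1 y).filter Nat.Prime, ∑ i ∈ s, dl P X p * ((rr (ev (G i)) p : ℝ) / p) ≤
      dl P X p * ((rr (ev (∏ i ∈ s, G i)) p : ℝ) / p) + (if p ≤ P0 then (#s : ℝ) else 0) := by
    intro p hp
    rw [mem_filter, mem_Icc] at hp
    have hp0 : (0 : ℝ) < p := by exact_mod_cast hp.2.pos
    split_ifs with h2
    · have h3 : ∑ i ∈ s, dl P X p * ((rr (ev (G i)) p : ℝ) / p) ≤ ∑ _i ∈ s, (1 : ℝ) := by
        refine sum_le_sum fun i _ => ?_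
        refine mul_le_one₀ (h.dl_le p) (by positivity) ?_
        rw [div_le_one hp0]
        exact_mod_cast rr_le _ _
      rw [sum_const, nsmul_eq_mul, mul_one] at h3
      have h4 : 0 ≤ dl P X p * ((rr (ev (∏ i ∈ s, G i)) p : ℝ) / p) := mul_nonneg (h.dl_nonneg p) (by positivity)
      linarith
    · rw [add_zero, ← mul_sum, ← sum_div]
      refine mul_le_mul_of_nonneg_left (div_le_div_of_nonneg_right ?_ hp0.le) (h.dl_nonneg p)
      exact_mod_cast hP0 p hp.2 (not_le.1 h2)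
  refine (sum_le_sum h1).trans ?_
  rw [sum_add_distrib]
  refine add_le_add le_rfl ?_
  rw [← sum_filter, sum_const, nsmul_eq_mul]
  refine mul_le_mul_of_nonneg_right ?_ (Nat.cast_nonneg _)
  have : #(((Icc 1 y).filter Nat.Prime).filter fun p => p ≤ P0) ≤ P0 := by
    calc _ ≤ #(Icc 1 P0) := by
          refine card_le_card fun p hp => ?_
          rw [mem_filter, mem_filter, mem_Icc] at hp
          exact mem_Icc.2 ⟨hp.1.1.1, hp.2⟩
      _ = P0 := by rw [Nat.card_Icc]; omega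
  exact_mod_cast this

lemma log4_tendsto : Tendsto (fun y : ℕ => log4 y) atTop atTop := by
  have t := Real.tendsto_log_atTop
  exact t.comp (t.comp (t.comp (t.comp tendsto_natCast_atTop_atTop)))

lemma zx_tendsto : Tendsto zx atTop atTop := by
  rw [tendsto_atTop]
  intro y0
  filter_upwards [tend_LL.eventually zz_large, tend_LL.eventually (eventually_ge_atTop (2 * (y0 : ℝ))),
    (Real.tendsto_log_atTop.comp tendsto_natCast_atTop_atTop).eventually_gt_atTop 1] with x h1 h2 h3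
  simp only [Function.comp] at h3
  rw [Real.exp_log (by linarith)] at h1
  have h6 : (y0 : ℝ) ≤ zx x := by
    have h7 := Real.add_one_le_exp (Real.exp (Real.log (Real.log x) / 2))
    have h8 := Real.add_one_le_exp (Real.log (Real.log x) / 2)
    have h9 : (zx x : ℝ) = zz (Real.log x) (Real.log (Real.log x)) := rfl
    rw [h9]
    linarith
  exact_mod_cast h6

/-- the main bound, with a minorant of the distance function -/
theorem Signs.as_poly (h : Signs P X) {Q : ℤ[X]} (hQ : (Q.map (Int.castRingHom ℚ)).Separable) (hd : 1 ≤ Q.natDegree)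
    {E : ℕ → ℝ} {C : ℝ} (hE : ∀ y, E y ≤ Dq P X (ev Q) y + C)
    (hE4 : Tendsto (fun y : ℕ => E y / log4 y) atTop atTop) {c : ℕ → ℝ} (hc : ∀ n, |c n| ≤ 1) :
    ∀ᵐ ω ∂P, ∀ ε : ℝ, 0 < ε → ∃ x0 : ℕ, ∀ x, x0 ≤ x → |SS X c (ev Q) ω x| ≤ x * Real.exp (-((1 - ε) * E (zx x))) := by
  obtain ⟨P0, hG⟩ := good_poly hQ
  have hl := log4_tendsto
  have hD : Tendsto (fun y : ℕ => Dq P X (ev Q) y / log4 y) atTop atTop := by
    have h1 : Tendsto (fun y : ℕ => E y / log4 y + (-|C|)) atTop atTop := tendsto_atTop_add_const_right _ _ hE4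
    refine tendsto_atTop_mono' _ ?_ h1
    filter_upwards [hl.eventually_ge_atTop 1] with y hy
    have h2 := hE y
    rw [le_div_iff₀ (by linarith), add_mul, div_mul_cancel₀ _ (by linarith : log4 (y : ℝ) ≠ 0)]
    have h3 : |C| ≤ |C| * log4 y := le_mul_of_one_le_right (abs_nonneg _) hy
    have h4 := le_abs_self C
    linarith
  have hE5 : Tendsto E atTop atTop := by
    refine tendsto_atTop_mono' _ ?_ hE4
    filter_upwards [hl.eventually_ge_atTop 1, hE4.eventually_ge_atTop 0] with y hy hy2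
    have h3 : E y / log4 y * log4 y = E y := div_mul_cancel₀ _ (by linarith)
    nlinarith
  have hE6 := hE5.comp zx_tendsto
  have key : ∀ m : ℕ, ∀ᵐ ω ∂P, ∃ x0 : ℕ, ∀ x, x0 ≤ x →
      |SS X c (ev Q) ω x| ≤ x * Real.exp (-((1 - 1 / ((m : ℝ) + 2)) * Dq P X (ev Q) (zx x))) := by
    intro m
    have hm0 : (0 : ℝ) < (m : ℝ) + 2 := by positivity
    refine h.as_main hG hd hD hc (by positivity) ?_
    rw [div_lt_one hm0]
    have : (0 : ℝ) ≤ m := Nat.cast_nonneg m
    linarith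
  rw [← ae_all_iff] at key
  filter_upwards [key] with ω hω ε hε
  obtain ⟨m, hm⟩ := exists_nat_gt (2 / ε)
  obtain ⟨x0, hx0⟩ := hω m
  have hm0 : (0 : ℝ) < (m : ℝ) + 2 := by positivity
  have hmε : 1 / ((m : ℝ) + 2) ≤ ε / 2 := by
    rw [div_le_iff₀ hm0]
    rw [div_lt_iff₀ hε] at hm
    nlinarith
  have hm1 : 1 / ((m : ℝ) + 2) ≤ 1 / 2 := by
    rw [div_le_div_iff₀ hm0 (by norm_num)]
    have : (0 : ℝ) ≤ m := Nat.cast_nonneg m
    linarith
  obtain ⟨x1, hx1⟩ := eventually_atTop.1 (hE6.eventually_ge_atTop (2 * |C| / ε))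
  refine ⟨max x0 x1, fun x hx => ?_⟩
  refine (hx0 x ((le_max_left _ _).trans hx)).trans ?_
  refine mul_le_mul_of_nonneg_left (Real.exp_le_exp.2 (neg_le_neg ?_)) (Nat.cast_nonneg x)
  have h1 := hx1 x ((le_max_right _ _).trans hx)
  simp only [Function.comp] at h1
  rw [div_le_iff₀ hε] at h1
  have h2 := hE (zx x)
  have h3 := le_abs_self C
  set Dz := Dq P X (ev Q) (zx x)
  set Ez := E (zx x)
  have hE0 : 0 ≤ Ez := by
    have := abs_nonneg C
    by_contra hneg
    push Not at hneg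
    nlinarith
  set μ := 1 / ((m : ℝ) + 2)
  have hμ0 : 0 < μ := by positivity
  have h4 : (1 - μ) * (Ez - |C|) ≤ (1 - μ) * Dz := mul_le_mul_of_nonneg_left (by linarith) (by linarith)
  have h5 : (1 - μ) * |C| ≤ |C| := by nlinarith [abs_nonneg C]
  nlinarith

end Pool.Agent.L5helper2.CH
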